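import Pool.Agent.Lib.MP_b4f117_lc.AT.Stm

set_option autoImplicit false

namespace Pool.Agent.Lib.MP_b4f117_lc.AT

open Pool.Agent.Lib.MP_b4f117_lc.AC

private theorem base_MC {R J K : ℕ} {C : Type} (n : ℕ) (P : Rw R J K n → C → Prop)
    (p : Rw R J K n → Prop) (c0 : Rw R J K n → C)
    (h : ∀ o c, P o c ↔ (c = c0 o → ¬ p o)) : MC n P ↔ gN n p := by
  cases n with
  | zero =>
    change (∀ (o : Fin R) (c : C), P o c) ↔ ∀ o : Fin R, ¬ p o
    constructor
    · intro h1 o
      exact (h o _).1 (h1 o (c0 o)) rfl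
    · intro h1 o c
      exact (h o c).2 fun _ => h1 o
  | succ n =>
    change gN n (fun o => ¬ ∃ (j : Fin J) (κ : Fin K) (c : C), ¬ P ((o, j), κ) c) ↔
      gN n (fun o => ¬ ∃ (j : Fin J) (κ : Fin K), p ((o, j), κ))
    have e : (fun o : Rw R J K n => ¬ ∃ (j : Fin J) (κ : Fin K) (c : C), ¬ P ((o, j), κ) c) =
        (fun o => ¬ ∃ (j : Fin J) (κ : Fin K), p ((o, j), κ)) := by
      funext o
      refine propext (not_congr (exists_congr fun j => exists_congr fun κ => ?_))
      constructor
      · rintro ⟨c, hc⟩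
        by_contra h2
        exact hc ((h ((o, j), κ) c).2 fun _ => h2)
      · intro h2
        refine ⟨c0 ((o, j), κ), fun h3 => ?_⟩
        exact (h ((o, j), κ) (c0 ((o, j), κ))).1 h3 rfl h2
    rw [e]

section

variable {m d q B H : ℕ}

private theorem base_ent_an (b : Be (Fin m ⊕ Fin d) q B H) (a : Fin d → Fin q) :
    entE (pt H b) (Sum.elim (fun _ => none) (fun g => some (a g))) =
      anE m a (fun g => pt H b (Sum.inr g) (a g)) := by
  funext g
  rcases g with i | i <;> rfl

private theorem base_ent_mn (b : Be (Fin m ⊕ Fin d) q B H) (κ : Fin m → Fin q)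
    (a : Fin d → Fin q) :
    entE (pt H b) (Sum.elim (fun i => some (κ i)) (fun g => some (a g))) =
      mnE κ (fun i => pt H b (Sum.inl i) (κ i)) a (fun g => pt H b (Sum.inr g) (a g)) := by
  funext g
  rcases g with i | i <;> rfl

private theorem base_col_an {A : Type} (a : Fin d → Fin q) (v : Fin d → A) :
    (fun g => (anE m a v g).map Prod.fst) =
      (Sum.elim (fun _ => none) (fun g => some (a g)) : Fin m ⊕ Fin d → Option (Fin q)) := by
  funext g
  rcases g with i | i <;> rfl

private theorem base_col_mn {A : Type} (κ : Fin m → Fin q) (c : Fin m → A) (a : Fin d → Fin q)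
    (v : Fin d → A) :
    (fun g => (mnE κ c a v g).map Prod.fst) =
      (Sum.elim (fun i => some (κ i)) (fun g => some (a g)) : Fin m ⊕ Fin d → Option (Fin q)) := by
  funext g
  rcases g with i | i <;> rfl

private theorem base_unit_an (a : Fin d → Fin q) :
    (fun g => ((Sum.elim (fun _ => none) (fun g => some (a g)) :
      Fin m ⊕ Fin d → Option (Fin q)) g).map fun a => (a, ())) = anE m a (fun _ => ()) := by
  funext g
  rcases g with i | i <;> rfl

private theorem base_unit_mn (κ : Fin m → Fin q) (a : Fin d → Fin q) :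
    (fun g => ((Sum.elim (fun i => some (κ i)) (fun g => some (a g)) :
      Fin m ⊕ Fin d → Option (Fin q)) g).map fun a => (a, ())) =
      mnE κ (fun _ => ()) a (fun _ => ()) := by
  funext g
  rcases g with i | i <;> rfl

private theorem base_mn_inj {A : Type} {κ κ' : Fin m → Fin q} {c c' : Fin m → A}
    {a a' : Fin d → Fin q} {v v' : Fin d → A} (h : mnE κ c a v = mnE κ' c' a' v') :
    κ = κ' ∧ c = c' ∧ a = a' := by
  have h1 : ∀ i : Fin m, (κ i, c i) = (κ' i, c' i) := fun i =>
    Option.some.inj (congrFun h (Sum.inl i))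
  have h2 : ∀ g : Fin d, (a g, v g) = (a' g, v' g) := fun g =>
    Option.some.inj (congrFun h (Sum.inr g))
  exact ⟨funext fun i => congrArg Prod.fst (h1 i), funext fun i => congrArg Prod.snd (h1 i),
    funext fun g => congrArg Prod.fst (h2 g)⟩

variable {R J K n : ℕ}

private theorem base_pl_an (ι : Rw R J K n → Fin m → Fin q) (hm : 0 < m)
    (x' : Rw R J K n × (Fin d → Fin q) → Bool) (a : Fin d → Fin q) :
    plE ι x' (anE m a (fun _ => ())) = true := by
  classical
  have h : ¬ ∃ p : Rw R J K n × (Fin d → Fin q),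
      anE m a (fun _ => ()) = mnE (ι p.1) (fun _ => ()) p.2 (fun _ => ()) := by
    rintro ⟨p, hp⟩
    have h1 := congrFun hp (Sum.inl ⟨0, hm⟩)
    simp [anE, mnE] at h1
  unfold plE
  rw [dif_neg h]
  exact decide_eq_true ⟨a, rfl⟩

private theorem base_pl_mn (ι : Rw R J K n → Fin m → Fin q) (hι : Function.Injective ι)
    (x' : Rw R J K n × (Fin d → Fin q) → Bool) (o : Rw R J K n) (a : Fin d → Fin q) :
    plE ι x' (mnE (ι o) (fun _ => ()) a (fun _ => ())) = x' (o, a) := by
  classical
  have h : ∃ p : Rw R J K n × (Fin d → Fin q),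
      mnE (ι o) (fun _ => ()) a (fun _ => ()) =
        mnE (ι p.1) (fun _ => ()) p.2 (fun _ => ()) := ⟨(o, a), rfl⟩
  unfold plE
  rw [dif_pos h]
  have h1 := base_mn_inj h.choose_spec
  have h2 : h.choose = (o, a) := Prod.ext (hι h1.1).symm h1.2.2.symm
  rw [h2]

end

theorem p_base (h1 : S_embE) : S_base := by
  classical
  intro R J K m d q B H Q _ n ι b z hm hι hA hB x'
  obtain ⟨e1, e2⟩ := h1 (G := Fin m ⊕ Fin d) (q := q) (B := B) (Q := Q) H b z (plE ι x')
  set X := EmbE H b z (plE ι x') with hX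
  -- anchors
  have an1 : ∀ a : Fin d → Fin q, X (anE m a (fun g => pt H b (Sum.inr g) (a g))) = true := by
    intro a
    rw [← base_ent_an, e1, base_unit_an]
    exact base_pl_an ι hm x' a
  have an2 : ∀ (a : Fin d → Fin q) (v : Fin d → Lv B H),
      anE m a v ≠ anE m a (fun g => pt H b (Sum.inr g) (a g)) →
      X (anE m a v) = true → z (anE m a v) = 0 := by
    intro a v hv hx
    rw [e2 (anE m a v) (by rw [base_col_an, base_ent_an]; exact hv)] at hx
    exact of_decide_eq_true hx
  -- main entries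
  have mn1 : ∀ (o : Rw R J K n) (a : Fin d → Fin q),
      X (mnE (ι o) (fun i => pt H b (Sum.inl i) (ι o i)) a
        (fun g => pt H b (Sum.inr g) (a g))) = x' (o, a) := by
    intro o a
    rw [← base_ent_mn, e1, base_unit_mn]
    exact base_pl_mn ι hι x' o a
  have mn2 : ∀ (κ : Fin m → Fin q) (c : Fin m → Lv B H) (a : Fin d → Fin q),
      c ≠ (fun i => pt H b (Sum.inl i) (κ i)) →
      z (mnE κ c a (fun g => pt H b (Sum.inr g) (a g))) = 0 →
      X (mnE κ c a (fun g => pt H b (Sum.inr g) (a g))) = true := by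
    intro κ c a hc hz
    rw [e2 _ (by
      rw [base_col_mn, base_ent_mn]
      intro h
      exact hc (base_mn_inj h).2.1)]
    exact decide_eq_true hz
  have key : MC n (fun (o : Rw R J K n) (c : Fin m → Lv B H) =>
      ∃ a : Fin d → Fin q, X (mnE (ι o) c a (fun g => pt H b (Sum.inr g) (a g))) = true) ↔
      fS n x' := by
    refine base_MC n _ _ (fun o i => pt H b (Sum.inl i) (ι o i)) ?_
    intro o c
    constructor
    · rintro ⟨a, ha⟩ hc h2
      rw [hc, mn1] at ha
      have := h2 a
      rw [ha] at this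
      exact absurd this (by simp)
    · intro h2
      by_cases hc : c = (fun i => pt H b (Sum.inl i) (ι o i))
      · have h3 := h2 hc
        push Not at h3
        obtain ⟨a, ha⟩ := h3
        refine ⟨a, ?_⟩
        rw [hc, mn1]
        simpa using ha
      · by_contra h3
        apply hB
        refine ⟨ι o, c, fun a hz => ?_⟩
        exact h3 ⟨a, mn2 (ι o) c a hc hz⟩
  constructor
  · rintro ⟨s, hs1, hs2⟩
    have hs : s = (fun g => pt H b (Sum.inr g)) := by
      by_contra hne
      exact hA ⟨s, hne, fun a ha => an2 a _ ha (hs1 a)⟩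
    rw [hs] at hs2
    exact key.1 hs2
  · intro h
    exact ⟨fun g => pt H b (Sum.inr g), an1, key.2 h⟩

end Pool.Agent.Lib.MP_b4f117_lc.AT
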