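import Pool.Agent.Lib.MP_b4f117_lc.AT.Stm

/-!
# Piece certE: from vertices to coordinates
-/

set_option autoImplicit false

open Finset

namespace Pool.Agent.Lib.MP_b4f117_lc.AT

open Pool.Agent.Lib.MP_b4f117_lc.AC

section

variable {R J K m d q n : ℕ}

/-- the main entry of level `0` with the index `p` -/
def certE_main (ι : Rw R J K n → Fin m → Fin q) (p : Rw R J K n × (Fin d → Fin q)) :
    En (Fin m ⊕ Fin d) q Unit :=
  mnE (ι p.1) (fun _ => ()) p.2 (fun _ => ())

/-- the vertices of the main entry -/
def certE_vx (ι : Rw R J K n → Fin m → Fin q) (p : Rw R J K n × (Fin d → Fin q)) :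
    Fin m ⊕ Fin d → Vx (Fin m ⊕ Fin d) q Unit :=
  fun g => (g, (Sum.elim (fun i => ι p.1 i) (fun g => p.2 g) g, ()))

theorem certE_main_eq (ι : Rw R J K n → Fin m → Fin q) (p : Rw R J K n × (Fin d → Fin q))
    (g : Fin m ⊕ Fin d) : certE_main ι p g = some (certE_vx ι p g).2 := by
  rcases g with i | g
  · rfl
  · rfl

theorem certE_vx_inj (ι : Rw R J K n → Fin m → Fin q) (hι : Function.Injective ι)
    (p p' : Rw R J K n × (Fin d → Fin q)) (h : certE_vx ι p = certE_vx ι p') : p = p' := by
  have h1 : ι p.1 = ι p'.1 := by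
    funext i
    have := congrArg (fun f => (f (Sum.inl i)).2.1) h
    exact this
  have h2 : p.2 = p'.2 := by
    funext i
    have := congrArg (fun f => (f (Sum.inr i)).2.1) h
    exact this
  exact Prod.ext (hι h1) h2

end

theorem p_certE : S_certE := by
  classical
  intro R J K m d q n w ι hι f hf x' hx'
  obtain ⟨U, hUw, hU⟩ := hf _ hx'
  refine ⟨Finset.univ.filter fun p => WiE (certE_main ι p) U, ?_, ?_⟩
  · have h1 : (Finset.univ.filter fun p : Rw R J K n × (Fin d → Fin q) =>
        WiE (certE_main ι p) U).card ≤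
        (Fintype.piFinset (fun _ : Fin m ⊕ Fin d => U)).card := by
      refine Finset.card_le_card_of_injOn (certE_vx ι) ?_ ?_
      · intro p hp
        rw [Finset.mem_coe, Finset.mem_filter] at hp
        rw [Finset.mem_coe, Fintype.mem_piFinset]
        intro g
        exact hp.2 g _ (certE_main_eq ι p g)
      · intro p _ p' _ h
        exact certE_vx_inj ι hι p p' h
    refine h1.trans ?_
    rw [Fintype.card_piFinset, Finset.prod_const, Finset.card_univ, Fintype.card_sum,
      Fintype.card_fin, Fintype.card_fin]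
    exact Nat.pow_le_pow_left hUw _
  · intro x'' hx''
    refine hU _ ?_
    intro e he
    by_cases h : ∃ p : Rw R J K n × (Fin d → Fin q),
        e = mnE (ι p.1) (fun _ => ()) p.2 (fun _ => ())
    · have e1 : ∀ y : Rw R J K n × (Fin d → Fin q) → Bool, plE ι y e = y h.choose := by
        intro y
        simp only [plE]
        rw [dif_pos h]
      rw [e1, e1]
      refine hx'' _ ?_
      rw [Finset.mem_filter]
      refine ⟨Finset.mem_univ _, ?_⟩
      have h2 : e = certE_main ι h.choose := h.choose_spec
      rw [← h2]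
      exact he
    · simp only [plE]
      rw [dif_neg h, dif_neg h]

end Pool.Agent.Lib.MP_b4f117_lc.AT
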