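import Pool.Agent.Lib.MP_b4f117_lc.AT.Stm

set_option autoImplicit false

namespace Pool.Agent.Lib.MP_b4f117_lc.AT

open Pool.Agent.Lib.MP_b4f117_lc.AC

private theorem conv_congr {I : Type} (r : ℕ) (P Q : (Fin r → I) → Prop) (h : ∀ i, P i ↔ Q i) :
    NS r P ↔ NS r Q := by
  have : P = Q := funext fun i => propext (h i)
  rw [this]

/-- nested NORs can be computed starting with the innermost index -/
private theorem conv_snoc {I : Type} (r : ℕ) : ∀ Q : (Fin (r + 1) → I) → Prop,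
    NS (r + 1) Q ↔ NS r (fun i => ∃ j, ¬ Q (Fin.snoc i j)) := by
  induction r with
  | zero =>
    intro Q
    simp only [NS]
    have h : ∀ j : I, (Fin.cons j (fun i => i.elim0) : Fin 1 → I) =
        Fin.snoc (fun i => i.elim0) j := by
      intro j
      funext i
      have hi : i = Fin.last 0 := by
        apply Fin.ext
        have := i.2
        simp only [Fin.val_last]
        omega
      rw [hi, Fin.snoc_last]
      rfl
    simp only [h]
  | succ r ih =>
    intro Q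
    have h1 : NS (r + 1 + 1) Q ↔ ¬ ∃ j : I, NS (r + 1) (fun i => Q (Fin.cons j i)) := Iff.rfl
    have h2 : NS (r + 1) (fun i => ∃ j, ¬ Q (Fin.snoc i j)) ↔
        ¬ ∃ j : I, NS r (fun i => ∃ j', ¬ Q (Fin.snoc (Fin.cons j i : Fin (r + 1) → I) j')) :=
      Iff.rfl
    rw [h1, h2]
    refine not_congr (exists_congr fun j => ?_)
    rw [ih]
    refine conv_congr _ _ _ fun i => exists_congr fun j' => ?_
    rw [Fin.cons_snoc_eq_snoc_cons]

private theorem conv_row {R J K m d q : ℕ} {A : Type} (n : ℕ)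
    (i : Fin (n + 1) → Dx R J K m d q A) (j : Dx R J K m d q A) :
    rowOf (n + 1) (Fin.snoc i j) = ((rowOf n i, j.jj), j.kk) := by
  have h1 : (Fin.snoc i j : Fin (n + 1 + 1) → Dx R J K m d q A) (Fin.last (n + 1)) = j :=
    Fin.snoc_last _ _
  have h2 : (fun l : Fin (n + 1) => (Fin.snoc i j : Fin (n + 1 + 1) → Dx R J K m d q A)
      l.castSucc) = i := by
    funext l
    exact Fin.snoc_castSucc _ _ _
  change ((rowOf n (fun l : Fin (n + 1) => (Fin.snoc i j : Fin (n + 1 + 1) → Dx R J K m d q A)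
    l.castSucc), ((Fin.snoc i j : Fin (n + 1 + 1) → Dx R J K m d q A) (Fin.last (n + 1))).jj),
    ((Fin.snoc i j : Fin (n + 1 + 1) → Dx R J K m d q A) (Fin.last (n + 1))).kk) = _
  rw [h1, h2]

section

variable {R J K m d q : ℕ} {A : Type} [Nonempty A]

private theorem conv_ex (_ : 0 < R) (_ : 0 < J) (_ : 0 < K) (hq : 0 < q) (hd : 0 < d)
    (F : Fin R → Fin J → Fin K → (Fin m → A) → Prop) :
    (∃ j : Dx R J K m d q A, F j.row j.jj j.kk j.cop) ↔ ∃ o j κ c, F o j κ c := by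
  constructor
  · rintro ⟨j, hj⟩
    exact ⟨_, _, _, _, hj⟩
  · rintro ⟨o, j, κ, c, h⟩
    exact ⟨⟨0, o, j, κ, c, fun _ => ⟨0, hq⟩, (⟨0, hd⟩, ⟨0, hq⟩), Classical.arbitrary A⟩, h⟩

private theorem conv_gN (hR : 0 < R) (hJ : 0 < J) (hK : 0 < K) (hq : 0 < q) (hd : 0 < d)
    (n : ℕ) : ∀ p : Rw R J K n → Prop,
    NS (n + 1) (fun i : Fin (n + 1) → Dx R J K m d q A => ¬ p (rowOf n i)) ↔ gN n p := by
  induction n with
  | zero =>
    intro p
    change (¬ ∃ j : Dx R J K m d q A, ¬ ¬ p j.row) ↔ ∀ o : Fin R, ¬ p o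
    have h := conv_ex (m := m) (d := d) (q := q) (A := A) hR hJ hK hq hd
      (fun o _ _ _ => ¬ ¬ p o)
    rw [h]
    constructor
    · intro h1 o ho
      exact h1 ⟨o, ⟨0, hJ⟩, ⟨0, hK⟩, fun _ => Classical.arbitrary A, fun h2 => h2 ho⟩
    · rintro h1 ⟨o, _, _, _, h2⟩
      exact h2 (h1 o)
  | succ n ih =>
    intro p
    rw [conv_snoc]
    have h1 : gN (n + 1) p ↔ gN n (fun o => ¬ ∃ (j : Fin J) (κ : Fin K), p ((o, j), κ)) := Iff.rfl
    rw [h1, ← ih]
    refine conv_congr _ _ _ fun i => ?_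
    simp only [conv_row, not_not]
    have h := conv_ex (m := m) (d := d) (q := q) (A := A) hR hJ hK hq hd
      (fun _ j κ _ => p ((rowOf n i, j), κ))
    rw [h]
    constructor
    · rintro ⟨_, j, κ, _, h2⟩
      exact ⟨j, κ, h2⟩
    · rintro ⟨j, κ, h2⟩
      exact ⟨⟨0, hR⟩, j, κ, fun _ => Classical.arbitrary A, h2⟩

end

theorem p_conv : S_conv := by
  refine ⟨?_, ?_, ?_⟩
  · intro I _ r P
    induction r with
    | zero => simp [NS]
    | succ r ih =>
      have h1 : NS (r + 1) (fun _ : Fin (r + 1) → I => P) ↔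
          ¬ ∃ _ : I, NS r (fun _ : Fin r → I => P) := Iff.rfl
      rw [h1, exists_const, ih]
      have h2 : ((r + 1) % 2 = 1) ↔ ¬ (r % 2 = 1) := by omega
      rw [h2]
      tauto
  · intro I _ r P
    induction r with
    | zero =>
      change (¬ ∃ j, ¬ P j) ↔ _
      simp
    | succ r ih =>
      have h1 : NS (r + 1 + 1) (fun i : Fin (r + 1 + 1) → I => P (i (Fin.last (r + 1)))) ↔
          ¬ ∃ _ : I, NS (r + 1) (fun i : Fin (r + 1) → I => P (i (Fin.last r))) := Iff.rfl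
      rw [h1, exists_const, ih]
      have h2 : ((r + 1) % 2 = 0) ↔ ¬ (r % 2 = 0) := by omega
      rw [h2]
      tauto
  · intro R J K m d q A _ n P hR hJ hK hq hd
    cases n with
    | zero =>
      change (¬ ∃ j : Dx R J K m d q A, ¬ P j.row j.cop) ↔ ∀ (o : Fin R) (c : Fin m → A), P o c
      have h := conv_ex (m := m) (d := d) (q := q) (A := A) hR hJ hK hq hd
        (fun o _ _ c => ¬ P o c)
      rw [h]
      constructor
      · intro h1 o c
        by_contra h2
        exact h1 ⟨o, ⟨0, hJ⟩, ⟨0, hK⟩, c, h2⟩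
      · rintro h1 ⟨o, _, _, c, h2⟩
        exact h2 (h1 o c)
    | succ n =>
      rw [conv_snoc]
      have h1 : MC (n + 1) P ↔
          gN n (fun o => ¬ ∃ (j : Fin J) (κ : Fin K) (c : Fin m → A), ¬ P ((o, j), κ) c) :=
        Iff.rfl
      rw [h1, ← conv_gN (m := m) (d := d) (q := q) (A := A) hR hJ hK hq hd n]
      refine conv_congr _ _ _ fun i => ?_
      simp only [conv_row, Fin.snoc_last]
      rw [not_not]
      have h := conv_ex (m := m) (d := d) (q := q) (A := A) hR hJ hK hq hd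
        (fun _ j κ c => ¬ P ((rowOf n i, j), κ) c)
      rw [h]
      constructor
      · rintro ⟨_, j, κ, c, h2⟩
        exact ⟨j, κ, c, h2⟩
      · rintro ⟨j, κ, c, h2⟩
        exact ⟨⟨0, hR⟩, j, κ, c, h2⟩

end Pool.Agent.Lib.MP_b4f117_lc.AT
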