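import Pool.Agent.Lib.MP_b4f117_lc.AT.Stm

/-!
# Piece embE: explicit form of the planted inputs with partial entries (helper29)
-/

set_option autoImplicit false

namespace Pool.Agent.Lib.MP_b4f117_lc.AT

open Pool.Agent.Lib.MP_b4f117_lc.AC

private theorem embE_prj_kap {G : Type} {q B : ℕ} {A : Type} (β : Vx G q A → Fin B)
    (e : En G q A) : prjE (kapE β e) = e := by
  funext g
  unfold prjE kapE
  rw [Option.map_map]
  cases e g <;> rfl

private theorem embE_fill1 {G : Type} {q B Q : ℕ} [NeZero Q] {A : Type}
    (β : Vx G q A → Fin B) (z : En G q (A × Fin B) → Fin Q) (y : En G q A → Bool)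
    (e : En G q A) : FillE β z y (kapE β e) = y e := by
  have h : kapE β e = kapE β (prjE (kapE β e)) := by rw [embE_prj_kap]
  rw [FillE, if_pos h, embE_prj_kap]

private theorem embE_fill2 {G : Type} {q B Q : ℕ} [NeZero Q] {A : Type}
    (β : Vx G q A → Fin B) (z : En G q (A × Fin B) → Fin Q) (y : En G q A → Bool)
    (s : G → Fin q → A) (e : En G q (A × Fin B))
    (h : ∀ e : En G q A, e ≠ entE s (fun g => (e g).map Prod.fst) →
      y e = decide (z (kapE β e) = 0))
    (he : e ≠ kapE β (entE s (fun g => (e g).map Prod.fst))) :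
    FillE β z y e = decide (z e = 0) := by
  rw [FillE]
  by_cases h1 : e = kapE β (prjE e)
  · rw [if_pos h1]
    have h2 : prjE e ≠ entE s (fun g => (prjE e g).map Prod.fst) := by
      intro h3
      apply he
      have h4 : kapE β (prjE e) = kapE β (entE s (fun g => (prjE e g).map Prod.fst)) :=
        congrArg _ h3
      rw [← h1] at h4
      have h5 : (fun g => (prjE e g).map Prod.fst) = fun g => (e g).map Prod.fst := by
        funext g
        unfold prjE
        rw [Option.map_map]
        rfl
      rw [h5] at h4
      exact h4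
    rw [h _ h2, ← h1]
  · rw [if_neg h1]

private theorem embE_ent {G : Type} {q B : ℕ} (j : ℕ) (b : Be G q B (j + 1))
    (C : G → Option (Fin q)) :
    entE (pt (j + 1) b) C = kapE (A := Lv B j) b.1 (entE (pt j b.2) C) := by
  funext g
  unfold kapE entE
  rw [Option.map_map]
  rfl

theorem p_embE : S_embE := by
  intro G _ _ q B Q _ j
  induction j with
  | zero =>
    intro b z y
    refine ⟨fun C => rfl, fun e he => ?_⟩
    refine absurd ?_ he
    funext g
    unfold entE
    rw [Option.map_map]
    cases e g <;> rfl
  | succ j ih =>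
    intro b z y
    have hi := ih b.2 (fun e => z (kapE b.1 e)) y
    constructor
    · intro C
      rw [embE_ent j b C]
      exact (embE_fill1 (A := Lv B j) b.1 z (EmbE j b.2 (fun e => z (kapE b.1 e)) y)
        (entE (pt j b.2) C)).trans (hi.1 C)
    · intro e he
      rw [embE_ent j b] at he
      exact embE_fill2 (A := Lv B j) b.1 z (EmbE j b.2 (fun e => z (kapE b.1 e)) y)
        (pt j b.2) e hi.2 he

end Pool.Agent.Lib.MP_b4f117_lc.AT
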