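import Pool.Agent.Lib.MP_b4f117_lc.AT.Stm

set_option autoImplicit false

open Finset

namespace Pool.Agent.Lib.MP_b4f117_lc.AT

open Pool.Agent.Lib.MP_b4f117_lc.AC

/-- the disjunction of finitely many circuits -/
private noncomputable def formT_or {I J : Type} (f : J → Circ I) (S : Finset J) : Circ I :=
  Circ.gate true S.card (fun i => f (S.equivFin.symm i).1)

private theorem formT_or_eval {I J : Type} (f : J → Circ I) (S : Finset J) (x : I → Bool) :
    (formT_or f S).eval x = true ↔ ∃ j ∈ S, (f j).eval x = true := by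
  unfold formT_or
  rw [Circ.eval_or]
  constructor
  · rintro ⟨i, hi⟩
    exact ⟨_, (S.equivFin.symm i).2, hi⟩
  · rintro ⟨j, hj, h⟩
    refine ⟨S.equivFin ⟨j, hj⟩, ?_⟩
    rw [Equiv.symm_apply_apply]
    exact h

private theorem formT_or_bd {I J : Type} (f : J → Circ I) (S : Finset J) (h s : ℕ)
    (hf : ∀ j, (f j).depth ≤ h ∧ (f j).size ≤ s) :
    (formT_or f S).depth ≤ h + 1 ∧ (formT_or f S).size ≤ 1 + S.card * s := by
  unfold formT_or
  constructor
  · rw [Circ.depth_gate]
    refine Nat.add_le_add_right (Finset.sup_le fun i _ => (hf _).1) 1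
  · rw [Circ.size_gate]
    refine Nat.add_le_add_left ?_ 1
    calc ∑ i : Fin S.card, (f (S.equivFin.symm i).1).size ≤ ∑ _i : Fin S.card, s :=
          sum_le_sum fun i _ => (hf _).2
      _ = S.card * s := by simp

/-- the end of the gap which begins at `lo` -/
private theorem formT_nx (M : ℕ) (W : Finset (Fin M)) : ∃ nx : Fin (M + 1) → Fin (M + 1),
    (∀ lo, ∀ u ∈ W, lo ≤ u.castSucc → nx lo ≤ u.castSucc) ∧
    (∀ lo, nx lo = Fin.last M ∨ ∃ u ∈ W, lo ≤ u.castSucc ∧ nx lo = u.castSucc) := by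
  have hne : ∀ lo : Fin (M + 1),
      (insert (Fin.last M) ((W.image Fin.castSucc).filter fun v => lo ≤ v)).Nonempty :=
    fun lo => insert_nonempty _ _
  refine ⟨fun lo => (insert (Fin.last M) ((W.image Fin.castSucc).filter fun v => lo ≤ v)).min'
    (hne lo), ?_, ?_⟩
  · intro lo u hu hlo
    refine min'_le _ _ ?_
    rw [mem_insert, mem_filter, mem_image]
    exact Or.inr ⟨⟨u, hu, rfl⟩, hlo⟩
  · intro lo
    have := min'_mem _ (hne lo)
    rw [mem_insert, mem_filter, mem_image] at this
    rcases this with h | ⟨⟨u, hu, h⟩, h2⟩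
    · exact Or.inl h
    · refine Or.inr ⟨u, hu, ?_, h.symm⟩
      rw [h]
      exact h2

private theorem formT_gap (M : ℕ) (W : Finset (Fin M)) (nx : Fin (M + 1) → Fin (M + 1))
    (h1 : ∀ lo, ∀ u ∈ W, lo ≤ u.castSucc → nx lo ≤ u.castSucc)
    (h2 : ∀ lo, nx lo = Fin.last M ∨ ∃ u ∈ W, lo ≤ u.castSucc ∧ nx lo = u.castSucc) (u : Fin M) :
    u ∉ W ↔ ∃ lo ∈ insert (0 : Fin (M + 1)) (W.image Fin.succ), lo ≤ u.castSucc ∧
      u.castSucc < nx lo := by
  constructor
  · intro hu
    have hne : ((insert (0 : Fin (M + 1)) (W.image Fin.succ)).filter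
        fun v => v ≤ u.castSucc).Nonempty := ⟨0, by simp⟩
    obtain ⟨lo, hlo⟩ : ∃ lo, lo = max' _ hne := ⟨_, rfl⟩
    have hm := max'_mem _ hne
    rw [← hlo, mem_filter] at hm
    refine ⟨lo, hm.1, hm.2, ?_⟩
    rcases h2 lo with h | ⟨v, hv, hv1, hv2⟩
    · rw [h]
      exact Fin.castSucc_lt_last u
    · rw [hv2]
      by_contra hcon
      rw [not_lt] at hcon
      have hne' : v ≠ u := fun h => hu (h ▸ hv)
      have hvu : v < u := lt_of_le_of_ne (Fin.castSucc_le_castSucc_iff.1 hcon) hne'
      have h5 : v.succ ≤ lo := by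
        rw [hlo]
        refine le_max' _ _ ?_
        rw [mem_filter, mem_insert, mem_image]
        exact ⟨Or.inr ⟨v, hv, rfl⟩, Fin.succ_le_castSucc_iff.2 hvu⟩
      exact absurd (h5.trans hv1) (not_le.2 Fin.castSucc_lt_succ)
  · rintro ⟨lo, _, h3, h4⟩ hu
    exact absurd (h1 lo u hu h3) (not_le.2 h4)

/-- slots -/
private abbrev formT_Sl (M : ℕ) : Type := Option (Fin M ⊕ (Fin (M + 1) × Fin (M + 1)))

/-- the choices allowed by a slot -/
private def formT_Ch {M : ℕ} (l : Bool) : formT_Sl M → Option (Fin M × Bool) → Prop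
  | none, o => o = none
  | some (Sum.inl u), o => o = some (u, !l)
  | some (Sum.inr p), o => ∃ u : Fin M, p.1 ≤ u.castSucc ∧ u.castSucc < p.2 ∧ o = some (u, l)

/-- the slots for the set `W` -/
private def formT_SW {M : ℕ} (W : Finset (Fin M)) (nx : Fin (M + 1) → Fin (M + 1)) :
    Finset (formT_Sl M) :=
  insert none (W.image (fun u => some (Sum.inl u)) ∪
    (insert (0 : Fin (M + 1)) (W.image Fin.succ)).image (fun lo => some (Sum.inr (lo, nx lo))))

private theorem formT_SW_card {M : ℕ} (W : Finset (Fin M)) (nx : Fin (M + 1) → Fin (M + 1)) :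
    (formT_SW W nx).card ≤ 2 * W.card + 2 := by
  unfold formT_SW
  refine (card_insert_le _ _).trans ?_
  have a1 : (W.image (fun u => (some (Sum.inl u) : formT_Sl M))).card ≤ W.card := card_image_le
  have a2 : ((insert (0 : Fin (M + 1)) (W.image Fin.succ)).image
      (fun lo => (some (Sum.inr (lo, nx lo)) : formT_Sl M))).card ≤ W.card + 1 := by
    refine card_image_le.trans ((card_insert_le _ _).trans ?_)
    exact Nat.add_le_add_right card_image_le 1
  have a3 := card_union_le (W.image (fun u => (some (Sum.inl u) : formT_Sl M)))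
    ((insert (0 : Fin (M + 1)) (W.image Fin.succ)).image
      (fun lo => (some (Sum.inr (lo, nx lo)) : formT_Sl M)))
  omega

private theorem formT_key {M : ℕ} (W : Finset (Fin M)) (nx : Fin (M + 1) → Fin (M + 1))
    (h1 : ∀ lo, ∀ u ∈ W, lo ≤ u.castSucc → nx lo ≤ u.castSucc)
    (h2 : ∀ lo, nx lo = Fin.last M ∨ ∃ u ∈ W, lo ≤ u.castSucc ∧ nx lo = u.castSucc) (l : Bool)
    (o : Option (Fin M × Bool)) :
    (∀ p, o = some p → (p.1 ∈ W ↔ p.2 = !l)) ↔ ∃ s ∈ formT_SW W nx, formT_Ch l s o := by
  have hgap := formT_gap M W nx h1 h2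
  unfold formT_SW
  constructor
  · intro h
    rcases o with _ | ⟨u, b⟩
    · exact ⟨none, mem_insert_self _ _, rfl⟩
    · have h3 := h (u, b) rfl
      by_cases hb : b = !l
      · have hu : u ∈ W := h3.2 hb
        refine ⟨some (Sum.inl u), ?_, ?_⟩
        · exact mem_insert_of_mem (mem_union_left _
            (mem_image_of_mem (fun u => (some (Sum.inl u) : formT_Sl M)) hu))
        · change some (u, b) = some (u, !l)
          rw [hb]
      · have hu : u ∉ W := fun hu => hb (h3.1 hu)
        obtain ⟨lo, hlo, hl1, hl2⟩ := (hgap u).1 hu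
        refine ⟨some (Sum.inr (lo, nx lo)), ?_, ?_⟩
        · exact mem_insert_of_mem (mem_union_right _
            (mem_image_of_mem (fun lo => (some (Sum.inr (lo, nx lo)) : formT_Sl M)) hlo))
        · refine ⟨u, hl1, hl2, ?_⟩
          have hbl : b = l := by
            cases b <;> cases l <;> simp_all
          rw [hbl]
  · rintro ⟨s, hs, hc⟩ p hp
    rcases mem_insert.1 hs with rfl | hs
    · have hc' : o = none := hc
      rw [hc'] at hp
      exact absurd hp (by simp)
    · rcases mem_union.1 hs with hs | hs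
      · rw [mem_image] at hs
        obtain ⟨u, hu, rfl⟩ := hs
        have hc' : o = some (u, !l) := hc
        rw [hc'] at hp
        have hp' := Option.some.inj hp
        subst hp'
        simp [hu]
      · rw [mem_image] at hs
        obtain ⟨lo, hlo, rfl⟩ := hs
        obtain ⟨u, hu1, hu2, hc'⟩ := hc
        rw [hc'] at hp
        have hp' := Option.some.inj hp
        subst hp'
        have hu := (hgap u).2 ⟨lo, hlo, hu1, hu2⟩
        simp [hu]

private theorem formT_rel {d ν : ℕ} (W : Finset (Fin ν)) (l : Bool) (T : Tm d ν) :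
    Rel W l T ↔ ∀ p ∈ T.1, (p.1 ∈ W ↔ p.2 = !l) := by
  unfold Rel TmSome TmHolds
  cases l
  · simp
  · simp only [if_true]
    push Not
    refine forall_congr' fun p => forall_congr' fun _ => ?_
    cases h : p.2 <;> simp_all

private theorem formT_tau {d M : ℕ} (T : Tm d M) :
    ∃ τ : Fin d → Option (Fin M × Bool), ∀ p, p ∈ T.1 ↔ ∃ k, τ k = some p := by
  classical
  refine ⟨fun k => if h : k.1 < T.1.card then some (T.1.equivFin.symm ⟨k.1, h⟩).1 else none, ?_⟩
  intro p
  constructor
  · intro hp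
    have hlt : (T.1.equivFin ⟨p, hp⟩).1 < d := lt_of_lt_of_le (T.1.equivFin ⟨p, hp⟩).2 T.2
    refine ⟨⟨(T.1.equivFin ⟨p, hp⟩).1, hlt⟩, ?_⟩
    beta_reduce
    rw [dif_pos (T.1.equivFin ⟨p, hp⟩).2]
    simp
  · rintro ⟨k, hk⟩
    beta_reduce at hk
    by_cases h : k.1 < T.1.card
    · rw [dif_pos h] at hk
      rw [← Option.some.inj hk]
      exact (T.1.equivFin.symm ⟨k.1, h⟩).2
    · rw [dif_neg h] at hk
      exact absurd hk (by simp)

private theorem formT_tm (d M : ℕ) : Fintype.card (Tm d M) ≤ (2 * M + 1) ^ d := by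
  classical
  choose τ hτ using fun T : Tm d M => formT_tau T
  have hinj : Function.Injective τ := by
    intro T T' h
    apply Subtype.ext
    ext p
    rw [hτ T p, hτ T' p, h]
  have h1 := Fintype.card_le_of_injective τ hinj
  have h2 : Fintype.card (Fin d → Option (Fin M × Bool)) = (2 * M + 1) ^ d := by
    rw [Fintype.card_fun]
    simp only [Fintype.card_option, Fintype.card_prod, Fintype.card_fin, Fintype.card_bool]
    rw [mul_comm]
  rw [h2] at h1
  exact h1

/-- the set `T` matches the slots `σ` -/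
private def formT_Mt {d M : ℕ} (l : Bool) (T : Tm d M) (σ : Fin d → formT_Sl M) : Prop :=
  ∃ τ : Fin d → Option (Fin M × Bool), (∀ k, formT_Ch l (σ k) (τ k)) ∧
    ∀ p, p ∈ T.1 ↔ ∃ k, τ k = some p

theorem p_formT : S_formT := by
  classical
  intro I r d' M L P h s l out par hout hpar hs
  let occS : Fin M → Finset ((Fin r → Fin L) × Tm d' M) := fun u =>
    univ.filter fun j : (Fin r → Fin L) × Tm d' M => ∃ b : Bool, (u, b) ∈ j.2.1
  let gatS : (Fin r → Fin L) → (Fin d' → formT_Sl M) → Finset ((Fin r → Fin L) × Tm d' M) :=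
    fun i σ => univ.filter fun j : (Fin r → Fin L) × Tm d' M => j.1 = i ∧ formT_Mt l j.2 σ
  let circ : Fin (P + 1) ⊕ (Fin M ⊕ ((Fin r → Fin L) × (Fin d' → formT_Sl M))) → Circ I :=
    fun j => match j with
    | Sum.inl κ => par κ
    | Sum.inr (Sum.inl u) => formT_or out (occS u)
    | Sum.inr (Sum.inr (i, σ)) => formT_or out (gatS i σ)
  have hcardS : ∀ S : Finset ((Fin r → Fin L) × Tm d' M),
      S.card ≤ L ^ r * (2 * M + 1) ^ d' := by
    intro S
    refine (card_le_univ S).trans ?_
    rw [Fintype.card_prod, Fintype.card_fun, Fintype.card_fin, Fintype.card_fin]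
    exact Nat.mul_le_mul_left _ (formT_tm d' M)
  have hcirc : ∀ j, (circ j).depth ≤ h + 1 ∧
      (circ j).size ≤ 1 + (L ^ r * (2 * M + 1) ^ d' + 1) * s := by
    have hsz : ∀ S : Finset ((Fin r → Fin L) × Tm d' M),
        1 + S.card * s ≤ 1 + (L ^ r * (2 * M + 1) ^ d' + 1) * s := by
      intro S
      have := hcardS S
      gcongr
      omega
    have hsm : s ≤ 1 + (L ^ r * (2 * M + 1) ^ d' + 1) * s := by
      calc s ≤ (L ^ r * (2 * M + 1) ^ d' + 1) * s := Nat.le_mul_of_pos_left _ (by omega)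
        _ ≤ 1 + (L ^ r * (2 * M + 1) ^ d' + 1) * s := by omega
    rintro (κ | u | ⟨i, σ⟩)
    · have := hpar κ (by omega)
      exact ⟨by have := this.1; change (par κ).depth ≤ h + 1; omega, this.2.trans hsm⟩
    · have := formT_or_bd out (occS u) h s hout
      exact ⟨this.1, this.2.trans (hsz _)⟩
    · have := formT_or_bd out (gatS i σ) h s hout
      exact ⟨this.1, this.2.trans (hsz _)⟩
  refine ⟨(univ : Finset (Fin (P + 1) ⊕
    (Fin M ⊕ ((Fin r → Fin L) × (Fin d' → formT_Sl M))))).toList.map circ, ?_, ?_, ?_, ?_, ?_⟩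
  · rw [List.length_map, length_toList, card_univ]
    simp only [Fintype.card_sum, Fintype.card_prod, Fintype.card_fin, Fintype.card_fun,
      Fintype.card_option]
    have h2 : M + (M + 1) * (M + 1) + 1 = 1 + M + (M + 1) ^ 2 := by ring
    rw [h2]
    omega
  · intro c hc
    rw [List.mem_map] at hc
    obtain ⟨j, _, rfl⟩ := hc
    exact hcirc j
  · intro j hj
    rw [List.mem_map]
    exact ⟨Sum.inl ⟨j, by omega⟩, by simp, rfl⟩
  · intro u
    refine ⟨formT_or out (occS u), ?_, ?_⟩
    · rw [List.mem_map]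
      exact ⟨Sum.inr (Sum.inl u), by simp, rfl⟩
    · intro x
      rw [formT_or_eval]
      unfold OccF
      constructor
      · rintro ⟨⟨i, T⟩, hj, hx⟩
        simp only [occS, mem_filter, mem_univ, true_and] at hj
        exact ⟨i, T, hx, hj⟩
      · rintro ⟨i, T, hx, hb⟩
        refine ⟨(i, T), ?_, hx⟩
        simp only [occS, mem_filter, mem_univ, true_and]
        exact hb
  · intro W hW i
    obtain ⟨nx, hn1, hn2⟩ := formT_nx M W
    have hkey := formT_key W nx hn1 hn2 l
    refine ⟨(Fintype.piFinset (fun _ : Fin d' => formT_SW W nx)).toList.map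
      (fun σ => formT_or out (gatS i σ)), ?_, ?_, ?_⟩
    · rw [List.length_map, length_toList, Fintype.card_piFinset]
      simp only [prod_const, card_univ, Fintype.card_fin]
      refine Nat.pow_le_pow_left ((formT_SW_card W nx).trans ?_) _
      omega
    · intro c hc
      rw [List.mem_map] at hc ⊢
      obtain ⟨σ, _, rfl⟩ := hc
      exact ⟨Sum.inr (Sum.inr (i, σ)), by simp, rfl⟩
    · intro x
      constructor
      · rintro ⟨T, hT, hR⟩
        rw [formT_rel] at hR
        obtain ⟨τ, hτ⟩ := formT_tau T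
        have hex : ∀ k, ∃ s ∈ formT_SW W nx, formT_Ch l s (τ k) := by
          intro k
          rw [← hkey]
          intro p hp
          exact hR p ((hτ p).2 ⟨k, hp⟩)
        choose σ hσ1 hσ2 using hex
        refine ⟨formT_or out (gatS i σ), ?_, ?_⟩
        · rw [List.mem_map]
          refine ⟨σ, ?_, rfl⟩
          rw [mem_toList, Fintype.mem_piFinset]
          exact hσ1
        · rw [formT_or_eval]
          refine ⟨(i, T), ?_, hT⟩
          simp only [gatS, mem_filter, mem_univ, true_and]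
          exact ⟨τ, hσ2, hτ⟩
      · rintro ⟨c, hc, hx⟩
        rw [List.mem_map] at hc
        obtain ⟨σ, hσ, rfl⟩ := hc
        rw [mem_toList, Fintype.mem_piFinset] at hσ
        rw [formT_or_eval] at hx
        obtain ⟨⟨i', T⟩, hj, hx⟩ := hx
        simp only [gatS, mem_filter, mem_univ, true_and] at hj
        obtain ⟨rfl, τ, hτ1, hτ2⟩ := hj
        refine ⟨T, hx, ?_⟩
        rw [formT_rel]
        intro p hp
        obtain ⟨k, hk⟩ := (hτ2 p).1 hp
        exact (hkey (τ k)).2 ⟨σ k, hσ k, hτ1 k⟩ p hk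

end Pool.Agent.Lib.MP_b4f117_lc.AT
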