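import Pool.Agent.Lib.MP_b4f117_lc.AT.Stm

/-!
# AC⁰ reductions between the problems `p-WSAT(Γ_{t,d})`: the source function under a block restriction
-/

set_option autoImplicit false

namespace Pool.Agent.Lib.MP_b4f117_lc.AT

open Pool.Agent.Lib.MP_b4f117_lc.AC

private theorem hot_block {O K' E : Type} [DecidableEq K'] [DecidableEq E] (β : O → K')
    (z : O × K' → E) (y : O → Bool) (o : O) (κ : K') :
    (∀ e, Hot β z y ((o, κ), e) = false) ↔ κ = β o ∧ y o = true := by
  constructor
  · intro h
    have h1 := h (z (o, κ))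
    unfold Hot at h1
    rw [decide_eq_false_iff_not] at h1
    have h2 : ¬ (κ = β o → y o = false) := fun h3 => h1 ⟨rfl, h3⟩
    rw [Classical.not_imp] at h2
    exact ⟨h2.1, by simpa using h2.2⟩
  · rintro ⟨h1, h2⟩ e
    unfold Hot
    rw [decide_eq_false_iff_not]
    rintro ⟨-, h3⟩
    have h4 := h3 h1
    rw [h2] at h4
    exact Bool.noConfusion h4

theorem p_hot : S_hot := by
  intro R J K n E _ β z y
  have h : (fun o : Rw R J K n => ¬ ∃ (j : Fin J) (κ : Fin K), ∀ e : E,
      Hot β z y (((o, j), κ), e) = false) = (fun o : Rw R J K n => ∀ j : Fin J, y (o, j) = false) := by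
    funext o
    apply propext
    constructor
    · intro h j
      by_contra hy
      exact h ⟨j, β (o, j), (hot_block β z y (o, j) (β (o, j))).2 ⟨rfl, by simpa using hy⟩⟩
    · rintro h ⟨j, κ, h1⟩
      have h2 := ((hot_block β z y (o, j) κ).1 h1).2
      rw [h j] at h2
      exact Bool.noConfusion h2
  change gN n (fun o : Rw R J K n => ¬ ∃ (j : Fin J) (κ : Fin K), ∀ e : E,
      Hot β z y (((o, j), κ), e) = false) ↔ gN n (fun o : Rw R J K n => ∀ j : Fin J, y (o, j) = false)
  rw [h]

end Pool.Agent.Lib.MP_b4f117_lc.AT
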