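import Pool.Agent.Lib.MP_b4f117_lc.AT.Stm

/-!
# piece [EWT litE]: literals have certificates
-/

set_option autoImplicit false

namespace Pool.Agent.Lib.MP_b4f117_lc.AT

open Pool.Agent.Lib.MP_b4f117_lc.AC

theorem p_litE : S_litE := by
  intro G _ _ q A _ e b
  have key : ∀ x : En G q A → Bool, ∃ U : Finset (Vx G q A), U.card ≤ Fintype.card G ∧
      ∀ x' : En G q A → Bool, (∀ e', WiE e' U → x' e' = x e') → x' e = x e := by
    intro x
    refine ⟨Finset.univ.biUnion (fun g => (e g).toFinset.image (fun u => (g, u))), ?_, ?_⟩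
    · refine Finset.card_biUnion_le.trans ?_
      refine (Finset.sum_le_card_nsmul Finset.univ _ 1 ?_).trans (by simp)
      intro g _
      refine Finset.card_image_le.trans ?_
      cases h : e g <;> simp
    · intro x' h
      refine h e (fun g u hu => ?_)
      refine Finset.mem_biUnion.mpr ⟨g, Finset.mem_univ g, ?_⟩
      refine Finset.mem_image.mpr ⟨u, ?_, rfl⟩
      simp [hu]
  constructor
  · intro x hx
    obtain ⟨U, hU, h⟩ := key x
    exact ⟨U, hU, fun x' hx' => (h x' hx').trans hx⟩
  · intro x hx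
    obtain ⟨U, hU, h⟩ := key x
    refine ⟨U, hU, fun x' hx' h' => hx ?_⟩
    exact (h x' hx').symm.trans h'

end Pool.Agent.Lib.MP_b4f117_lc.AT
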