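import Pool.Agent.Lib.MP_b4f117_lc.AT.Stm

/-!
# Assembly: no AC⁰ reduction, for all levels and widths
-/

set_option autoImplicit false

open Finset

namespace Pool.Agent.Lib.MP_b4f117_lc.AT

open Pool.Agent.Lib.MP_b4f117_lc.AC

theorem mainT_cardRw (R J K : ℕ) : ∀ n, Fintype.card (Rw R J K n) = R * (J * K) ^ n
  | 0 => by
    show Fintype.card (Fin R) = _
    simp
  | n + 1 => by
    have h := mainT_cardRw R J K n
    have h1 : Fintype.card (Rw R J K (n + 1)) = Fintype.card ((Rw R J K n × Fin J) × Fin K) := rfl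
    rw [h1, Fintype.card_prod, Fintype.card_prod, h, Fintype.card_fin, Fintype.card_fin]
    ring

noncomputable instance mainT_fintypeDx {R J K m d q : ℕ} {A : Type} [Fintype A] :
    Fintype (Dx R J K m d q A) := by
  classical
  exact Fintype.ofEquiv _ Dx.equiv.symm

theorem mainT_cardDx {R J K m d q : ℕ} {A : Type} [Fintype A] :
    Fintype.card (Dx R J K m d q A) =
      3 * (R * (J * (K * (Fintype.card A ^ m * (q ^ d * ((d * q) * Fintype.card A)))))) := by
  classical
  rw [Fintype.card_congr (Dx.equiv (R := R) (J := J) (K := K) (m := m) (d := d) (q := q) (A := A))]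
  simp [Fintype.card_prod]

theorem mainT_lay {R J K m d q w ν μ : ℕ} {A : Type} [Fintype A] [DecidableEq A]
    (hproj : S_projT) (hlit : S_litE) (hor : S_orE) (hw : m + d ≤ w) (n : ℕ)
    (φ : Fin d × (Fin q × A) ≃ Fin ν) (ψ : Dx R J K m d q A ≃ Fin μ)
    (ι : Rw R J K n → Fin m → Fin q)
    (k : ℕ) (C : Fin k → Circ ((Fin (n + 1) → Fin μ) × Tm d ν)) :
    LayE w 0 (fun i => (C i).depth)
      (fun i (x : En (Fin m ⊕ Fin d) q A → Bool) => (C i).eval (srcT n φ ψ ι x) = true) := by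
  intro i hi
  have hi' : (C i).depth = 0 := Nat.le_zero.1 hi
  cases hC : C i with
  | gate b n f =>
    rw [hC, Circ.depth_gate] at hi'
    exact absurd hi' (Nat.succ_ne_zero _)
  | lit j b =>
    have hG : Fintype.card (Fin m ⊕ Fin d) ≤ w := by
      simp
      omega
    have ev : ∀ x : En (Fin m ⊕ Fin d) q A → Bool,
        ((Circ.lit j b).eval (srcT n φ ψ ι x) = true ↔ srcT n φ ψ ι x j = b) := fun x =>
      Circ.eval_lit _ _ _
    simp only [hC, ev]
    rcases hproj n φ ψ ι j with ⟨b', hb'⟩ | ⟨e, b', he⟩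
    · simp only [hb']
      exact ⟨(hor w).2.1 _, (hor w).2.1 _⟩
    · have key : ∀ x : En (Fin m ⊕ Fin d) q A → Bool,
          (srcT n φ ψ ι x j = b ↔ x e = (b == b')) := by
        intro x
        have h1 := he x
        cases hb : srcT n φ ψ ι x j <;> cases b <;> cases b' <;> cases hx : x e <;>
          simp_all
      simp only [key]
      obtain ⟨h1, h2⟩ := hlit e (b == b')
      exact ⟨(hor _).2.2 _ w hG h1, (hor _).2.2 _ w hG h2⟩

theorem p_mainT (hstages : S_stagesE) (hor : S_orE) (hlit : S_litE) (hemb : S_embE)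
    (huniq : S_uniqE) (hneut : S_neut) (htop : S_top) (hproj : S_projT) (hsrcsat : S_srcsatT)
    (hbase : S_base) (hform : S_formT) (hout : S_outNT) (hcert : S_certE) (hnum : S_num)
    (hlv : S_lvcard) (hsubs : S_subs) (hstr : S_str) : S_mainT := by
  classical
  rintro r d d' γ hr hd hγ ⟨h, c, hred⟩
  obtain ⟨n, rfl⟩ : ∃ n, r = n + 1 := ⟨r - 1, by omega⟩
  obtain ⟨q, a, b, w, hq2, hq8, hw, hK8, hneu, hnum'⟩ := hnum n d d' h c γ hd hγ
  have hqpos : 0 < q := by omega
  have hmpos : 0 < mm n a b := by unfold mm; omega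
  -- abbreviations
  let m := mm n a b
  let R := q ^ (a + 1)
  let J := q ^ (a + 1)
  let K := q ^ b
  let B := 2 ^ q
  let H := h + 1
  let Q := (2 ^ (H + 1)) ^ d
  let A := Lv B H
  have hRpos : 0 < R := by positivity
  have hJpos : 0 < J := by positivity
  have hKpos : 0 < K := by positivity
  haveI : NeZero Q := ⟨by positivity⟩
  have hQ2 : 2 ≤ Q := by
    calc 2 = 2 ^ 1 := rfl
      _ ≤ 2 ^ ((H + 1) * d) := Nat.pow_le_pow_right (by norm_num)
          (Nat.one_le_iff_ne_zero.2 (by positivity))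
      _ = Q := by rw [pow_mul]
  have hA : Fintype.card A = B ^ H := hlv B H
  have hA' : Fintype.card A = 2 ^ (q * H) := by rw [hA, pow_mul]
  have hApos : 0 < Fintype.card A := by rw [hA]; positivity
  haveI : Nonempty A := Fintype.card_pos_iff.1 hApos
  let G := Fin m ⊕ Fin d
  have hG : Fintype.card G = m + d := by simp [G]
  -- the rows
  have hRw : Fintype.card (Rw R J K n) = Fintype.card (Fin m → Fin q) := by
    rw [mainT_cardRw, Fintype.card_fun, Fintype.card_fin, Fintype.card_fin]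
    show q ^ (a + 1) * (q ^ (a + 1) * q ^ b) ^ n = q ^ mm n a b
    unfold mm
    rw [← pow_add, ← pow_mul, ← pow_add]
    congr 1
    ring
  let ι : Rw R J K n → Fin m → Fin q := fun o => Fintype.equivOfCardEq hRw o
  have hι : Function.Injective ι := (Fintype.equivOfCardEq hRw).injective
  let ν := Fintype.card (Fin d × (Fin q × A))
  let μ := Fintype.card (Dx R J K m d q A)
  let φ : Fin d × (Fin q × A) ≃ Fin ν := Fintype.equivFin _
  let ψ : Dx R J K m d q A ≃ Fin μ := Fintype.equivFin _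
  have hV : ν + μ + 2 = Vn n d h a b q := by
    show Fintype.card (Fin d × (Fin q × A)) + Fintype.card (Dx R J K m d q A) + 2 = _
    rw [mainT_cardDx, Fintype.card_prod, Fintype.card_prod, Fintype.card_fin, Fintype.card_fin, hA]
    rfl
  obtain ⟨M, L, P, out, par, hM, hL, hP, hout', hpar, hx⟩ := hred ν μ (d * q)
  rw [hV] at hM hL hP
  simp only [hV] at hout' hpar
  set s0 := (2 ^ (d * q) * Vn n d h a b q) ^ c with hs0
  have hs1 : 1 ≤ s0 := by
    have : 0 < Vn n d h a b q := by unfold Vn; omega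
    exact Nat.one_le_iff_ne_zero.2 (by positivity)
  obtain ⟨hineq1, hineq2, hineq3, hineq4⟩ := hnum' M L P s0 hM hL le_rfl hP
  obtain ⟨fam, hlen, hfam, hfpar, hfocc, hfW⟩ :=
    hform (n + 1) d' M L P h s0 (xor true (decide ((n + 1) % 2 = 1))) out par hout' hpar hs1
  obtain ⟨k, C, hm, hC1, hC2, -⟩ := hsubs fam
  have hmg : k ≤ gatesT (n + 1) d' P M L s0 := by
    refine hm.trans ?_
    have h1 : (fam.map Circ.size).sum ≤
        fam.length • (1 + (L ^ (n + 1) * (2 * M + 1) ^ d' + 1) * s0) := by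
      have := List.sum_le_card_nsmul (fam.map Circ.size)
        (1 + (L ^ (n + 1) * (2 * M + 1) ^ d' + 1) * s0)
        (by
          intro x hx
          obtain ⟨c', hc', rfl⟩ := List.mem_map.1 hx
          exact (hfam c' hc').2)
      simpa using this
    refine h1.trans ?_
    rw [smul_eq_mul]
    exact Nat.mul_le_mul_right _ hlen
  -- the gates
  let ev : Fin k → (En G q A → Bool) → Prop := fun i x => (C i).eval (srcT n φ ψ ι x) = true
  let δ : Fin k → ℕ := fun i => (C i).depth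
  have hStr : Str δ ev := hstr k C (fun x => srcT n φ ψ ι x) hC2
  have hLay : LayE w 0 δ ev := mainT_lay hproj hlit hor hw n φ ψ ι k C
  have hst := hstages (G := G) (q := q) (B := B) (Q := Q) w H 0 (Fin k) δ ev hQ2 hStr hLay
  rw [hG, Fintype.card_fin] at hst
  -- counting
  let Z := En G q A → Fin Q
  have hBpos : 0 < B := by positivity
  haveI : Nonempty (Fin Q) := ⟨0⟩
  haveI : Nonempty Z := inferInstance
  haveI hBe : Nonempty (Be G q B H) := by
    haveI : Nonempty (Fin B) := ⟨⟨0, hBpos⟩⟩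
    have : ∀ j, Nonempty (Be G q B j) := by
      intro j
      induction j with
      | zero => exact ⟨()⟩
      | succ j ih => exact ⟨(fun _ => Classical.arbitrary _, Classical.choice ih)⟩
    exact this H
  set N0 := Nat.card (Be G q B H × Z) with hN0
  have hNpos : 0 < N0 := Nat.card_pos
  let bad1 : Set (Be G q B H × Z) :=
    {p | ¬ LayE w (0 + H) δ (fun i y => ev i (EmbE H p.1 p.2 y))}
  let bad2 : Set (Be G q B H × Z) := {p | ∃ s : Fin d → Fin q → A,
    s ≠ (fun g => pt H p.1 (Sum.inr g)) ∧ ∀ a : Fin d → Fin q,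
      anE m a (fun g => s g (a g)) ≠ anE m a (fun g => pt H p.1 (Sum.inr g) (a g)) →
      p.2 (anE m a (fun g => s g (a g))) = 0}
  let bad3 : Set (Be G q B H × Z) := {p | ∃ (κ : Fin m → Fin q) (c : Fin m → A),
    ∀ a : Fin d → Fin q, p.2 (mnE κ c a (fun g => pt H p.1 (Sum.inr g) (a g))) ≠ 0}
  have hb1 : 4 * Nat.card bad1 < N0 := by
    by_contra hcon
    push Not at hcon
    have h1 : Nat.card bad1 * B ^ (w + 1) ≤ H * (2 * k * CstE (m + d) w Q) * N0 := hst
    have h2 : 4 * (H * (2 * k * CstE (m + d) w Q)) < B ^ (w + 1) := by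
      refine lt_of_le_of_lt ?_ hineq1
      have : 2 * k * CstE (m + d) w Q ≤
          2 * gatesT (n + 1) d' P M L s0 * CstE (m + d) w Q :=
        Nat.mul_le_mul_right _ (Nat.mul_le_mul_left _ hmg)
      exact Nat.mul_le_mul_left _ (Nat.mul_le_mul_left _ this)
    have h3 : N0 * B ^ (w + 1) ≤ 4 * (Nat.card bad1 * B ^ (w + 1)) := by
      calc N0 * B ^ (w + 1) ≤ (4 * Nat.card bad1) * B ^ (w + 1) := Nat.mul_le_mul_right _ hcon
        _ = _ := by ring
    have h4 : N0 * B ^ (w + 1) ≤ (4 * (H * (2 * k * CstE (m + d) w Q))) * N0 := by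
      calc _ ≤ _ := h3
        _ ≤ 4 * (H * (2 * k * CstE (m + d) w Q) * N0) := Nat.mul_le_mul_left _ h1
        _ = _ := by ring
    have h5 : B ^ (w + 1) ≤ 4 * (H * (2 * k * CstE (m + d) w Q)) := by
      rw [mul_comm N0] at h4
      exact Nat.le_of_mul_le_mul_right h4 hNpos
    omega
  have hb2 : 4 * Nat.card bad2 ≤ N0 := by
    have e : (bad2 : Type) ≃ Σ b : Be G q B H, {z : Z // ∃ s : Fin d → Fin q → A,
        s ≠ (fun g => pt H b (Sum.inr g)) ∧ ∀ a : Fin d → Fin q,
        anE m a (fun g => s g (a g)) ≠ anE m a (fun g => pt H b (Sum.inr g) (a g)) →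
        z (anE m a (fun g => s g (a g))) = 0} :=
      { toFun := fun p => ⟨p.1.1, ⟨p.1.2, p.2⟩⟩
        invFun := fun s => ⟨(s.1, s.2.1), s.2.2⟩
        left_inv := fun _ => rfl
        right_inv := fun _ => rfl }
    rw [Nat.card_congr e, Nat.card_sigma, Finset.mul_sum]
    calc _ ≤ ∑ _b : Be G q B H, Nat.card Z := Finset.sum_le_sum fun b _ =>
          huniq m d q H hd hA' hq8 (fun g => pt H b (Sum.inr g))
      _ = N0 := by
          rw [Finset.sum_const, smul_eq_mul, hN0, Nat.card_prod, Finset.card_univ,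
            Nat.card_eq_fintype_card (α := Be G q B H)]
  have hb3 : 4 * Nat.card bad3 ≤ N0 := by
    have e : (bad3 : Type) ≃ Σ b : Be G q B H, {z : Z // ∃ (κ : Fin m → Fin q) (c : Fin m → A),
        ∀ a : Fin d → Fin q, z (mnE κ c a (fun g => pt H b (Sum.inr g) (a g))) ≠ 0} :=
      { toFun := fun p => ⟨p.1.1, ⟨p.1.2, p.2⟩⟩
        invFun := fun s => ⟨(s.1, s.2.1), s.2.2⟩
        left_inv := fun _ => rfl
        right_inv := fun _ => rfl }
    rw [Nat.card_congr e, Nat.card_sigma, Finset.mul_sum]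
    calc _ ≤ ∑ _b : Be G q B H, Nat.card Z := Finset.sum_le_sum fun b _ =>
          hneut m d q Q (A := A) (by rw [hA]; exact hneu) (fun g => pt H b (Sum.inr g))
      _ = N0 := by
          rw [Finset.sum_const, smul_eq_mul, hN0, Nat.card_prod, Finset.card_univ,
            Nat.card_eq_fintype_card (α := Be G q B H)]
  have hex : ∃ x : Be G q B H × Z, x ∉ bad1 ∧ x ∉ bad2 ∧ x ∉ bad3 := by
    by_contra hcon
    push Not at hcon
    have hun : bad1 ∪ (bad2 ∪ bad3) = Set.univ := by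
      ext x
      simp only [Set.mem_union, Set.mem_univ, iff_true]
      by_cases hx1 : x ∈ bad1
      · exact Or.inl hx1
      · by_cases hx2 : x ∈ bad2
        · exact Or.inr (Or.inl hx2)
        · exact Or.inr (Or.inr (hcon x hx1 hx2))
    have h1 : Nat.card (bad1 ∪ (bad2 ∪ bad3) : Set (Be G q B H × Z)) ≤
        Nat.card bad1 + Nat.card (bad2 ∪ bad3 : Set (Be G q B H × Z)) :=
      Set.ncard_union_le bad1 (bad2 ∪ bad3)
    have h1' : Nat.card (bad2 ∪ bad3 : Set (Be G q B H × Z)) ≤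
        Nat.card bad2 + Nat.card bad3 := Set.ncard_union_le bad2 bad3
    rw [hun] at h1
    have h2 : Nat.card (Set.univ : Set (Be G q B H × Z)) = N0 := Nat.card_congr (Equiv.Set.univ _)
    omega
  obtain ⟨⟨b', z⟩, hx1, hx2, hx3⟩ := hex
  have hlay : LayE w (0 + H) δ (fun i y => ev i (EmbE H b' z y)) := not_not.1 hx1
  have hsol := hbase n ι b' z hmpos hι hx2 hx3
  -- the output conditions
  let X := Rw R J K n × (Fin d → Fin q)
  let Φ : (X → Bool) → (Fin (n + 1) → Fin μ) × Tm d ν → Bool :=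
    fun x' => srcT n φ ψ ι (EmbE H b' z (plE ι x'))
  let N := L + P + 1
  let s₁ := w ^ (m + d)
  let F : ℕ → Finset (Fin M) → (X → Bool) → Prop := fun κ W x' =>
    (par κ).eval (Φ x') = true ∧
      (∀ u ∈ W, OccF (fun j => (out j).eval (Φ x') : Form (n + 1) d' M L) u) ∧
      Sem W (n + 1) true (fun j => (out j).eval (Φ x') : Form (n + 1) d' M L)
  have hF : ∀ x' : X → Bool, (∃ κ ≤ P, ∃ W : Finset (Fin M), W.card = κ ∧ F κ W x') ↔
      fS n x' := by
    intro x'
    rw [← hsol x', ← hsrcsat n φ ψ ι _ hRpos hJpos hKpos hqpos (by omega)]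
    obtain ⟨κ, hκ, hκ1, hκ2⟩ := hx (Φ x')
    show _ ↔ WSatF (Φ x' : Form (n + 1) d ν μ) (d * q)
    rw [hκ2]
    constructor
    · rintro ⟨κ', hκ', W, hW, h1, h2, h3⟩
      have : κ' = κ := (hκ1 κ' hκ').1 h1
      subst this
      exact ⟨W, h2, hW, h3⟩
    · rintro ⟨W, h2, hW, h3⟩
      exact ⟨κ, hκ, W, hW, (hκ1 κ hκ).2 rfl, h2, h3⟩
  have hfamC : ∀ c' ∈ fam, C1 s₁ (fun x : X → Bool => c'.eval (Φ x) = true) ∧
      C1 s₁ (fun x : X → Bool => ¬ c'.eval (Φ x) = true) := by
    intro c' hc'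
    obtain ⟨i, hi⟩ := hC1 c' hc'
    have h1 := hlay i (by
      show (C i).depth ≤ 0 + H
      rw [hi, zero_add]
      exact (hfam c' hc').1)
    simp only [ev, hi] at h1
    exact ⟨hcert w ι hι _ h1.1, hcert w ι hι _ h1.2⟩
  have hNT : ∀ κ ≤ P, ∀ W : Finset (Fin M), W.card = κ →
      NT ((2 * P + 2) ^ d' * s₁) N (n + 1) (F κ W) :=
    hout n d' M L P N s₁ out par fam Φ hfamC hfpar hfocc hfW le_rfl
  -- the hard inputs
  have hw1 : 1 ≤ w := by omega
  have hs2 : 1 ≤ (2 * P + 2) ^ d' * s₁ := Nat.one_le_iff_ne_zero.2 (by positivity)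
  obtain ⟨D, hDf, hDn, hdd, hD1, hD2⟩ := htop R J K N (q ^ a) n ((2 * P + 2) ^ d' * s₁)
    (Fin d → Fin q) (by omega) hs2 (Nat.one_le_iff_ne_zero.2 (by positivity))
    (by rw [Fintype.card_fun, Fintype.card_fin, Fintype.card_fin]; exact hineq2)
    (by rw [Fintype.card_fun, Fintype.card_fin, Fintype.card_fin]; exact hineq3)
    (by
      show 2 * q ^ a ≤ q ^ (a + 1)
      rw [pow_succ, mul_comm]
      exact Nat.mul_le_mul_left _ hq2)
    hK8
  have hDpos : (0 : ℝ) < (Nat.card D : ℝ) := by exact_mod_cast Nat.card_pos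
  set η : ℝ := (n : ℝ) * (N : ℝ) ^ n / 2 ^ (q ^ a) + (1 / 2) ^ R with hη
  have hη0 : 0 ≤ η := by positivity
  have htr : ∀ κ ≤ P, ∀ W : Finset (Fin M), W.card = κ →
      ((Nat.card {δ : D // F κ W (hdd δ)} : ℕ) : ℝ) ≤ η * (Nat.card D : ℝ) := by
    intro κ hκ W hW
    exact hD2 (F κ W) (hNT κ hκ W hW) (fun x hx => (hF x).1 ⟨κ, hκ, W, hW, hx⟩)
  have hall : (Nat.card D : ℝ) ≤ ((P : ℝ) + 1) * ((M : ℝ) + 1) ^ P * (η * (Nat.card D : ℝ)) := by
    let S : ℕ → Finset (Fin M) → Set D := fun κ W => {δ | F κ W (hdd δ)}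
    have hsub : (Set.univ : Set D) ⊆
        ⋃ κ ∈ Finset.range (P + 1), ⋃ W ∈ Finset.powersetCard κ (Finset.univ : Finset (Fin M)),
          S κ W := by
      intro e _
      obtain ⟨κ, hκ, W, hW, hFW⟩ := (hF (hdd e)).2 (hD1 e)
      simp only [Set.mem_iUnion]
      exact ⟨κ, Finset.mem_range.2 (by omega), W,
        Finset.mem_powersetCard.2 ⟨Finset.subset_univ _, hW⟩, hFW⟩
    have hcard : ∀ κ ∈ Finset.range (P + 1),
        ∀ W ∈ Finset.powersetCard κ (Finset.univ : Finset (Fin M)),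
        (((S κ W).ncard : ℕ) : ℝ) ≤ η * (Nat.card D : ℝ) := by
      intro κ hκ W hW
      exact htr κ (by have := Finset.mem_range.1 hκ; omega) W (Finset.mem_powersetCard.1 hW).2
    have hun : Nat.card D = (Set.univ : Set D).ncard := (Set.ncard_univ D).symm
    have h1 : Nat.card D ≤ ∑ κ ∈ Finset.range (P + 1),
        ∑ W ∈ Finset.powersetCard κ (Finset.univ : Finset (Fin M)), (S κ W).ncard := by
      calc Nat.card D = (Set.univ : Set D).ncard := hun
        _ ≤ _ := Set.ncard_le_ncard hsub (Set.toFinite _)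
        _ ≤ ∑ κ ∈ Finset.range (P + 1),
          (⋃ W ∈ Finset.powersetCard κ (Finset.univ : Finset (Fin M)), S κ W).ncard :=
            Finset.set_ncard_biUnion_le _ _
        _ ≤ _ := Finset.sum_le_sum fun κ _ => Finset.set_ncard_biUnion_le _ _
    have h2 : (Nat.card D : ℝ) ≤ ∑ κ ∈ Finset.range (P + 1),
        ∑ W ∈ Finset.powersetCard κ (Finset.univ : Finset (Fin M)),
          (((S κ W).ncard : ℕ) : ℝ) := by
      have := (Nat.cast_le (α := ℝ)).2 h1
      push_cast at this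
      exact this
    calc (Nat.card D : ℝ) ≤ _ := h2
      _ ≤ ∑ κ ∈ Finset.range (P + 1),
          ∑ _W ∈ Finset.powersetCard κ (Finset.univ : Finset (Fin M)),
            η * (Nat.card D : ℝ) :=
            Finset.sum_le_sum fun κ hκ => Finset.sum_le_sum fun W hW => hcard κ hκ W hW
      _ ≤ ∑ κ ∈ Finset.range (P + 1), ((M : ℝ) + 1) ^ P * (η * (Nat.card D : ℝ)) := by
            refine Finset.sum_le_sum fun κ hκ => ?_
            rw [Finset.sum_const, nsmul_eq_mul, Finset.card_powersetCard, Finset.card_univ,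
              Fintype.card_fin]
            refine mul_le_mul_of_nonneg_right ?_ (by positivity)
            have h3 : M.choose κ ≤ (M + 1) ^ P := by
              calc M.choose κ ≤ M ^ κ := Nat.choose_le_pow M κ
                _ ≤ (M + 1) ^ κ := Nat.pow_le_pow_left (Nat.le_succ _) _
                _ ≤ (M + 1) ^ P := Nat.pow_le_pow_right (Nat.succ_pos _)
                  (by have := Finset.mem_range.1 hκ; omega)
            exact_mod_cast h3
      _ = ((P : ℝ) + 1) * ((M : ℝ) + 1) ^ P * (η * (Nat.card D : ℝ)) := by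
            rw [Finset.sum_const, nsmul_eq_mul, Finset.card_range]
            push_cast
            ring
  have hfin : ((P : ℝ) + 1) * ((M : ℝ) + 1) ^ P * η < 1 := hineq4
  have : ((P : ℝ) + 1) * ((M : ℝ) + 1) ^ P * (η * (Nat.card D : ℝ)) < (Nat.card D : ℝ) := by
    calc ((P : ℝ) + 1) * ((M : ℝ) + 1) ^ P * (η * (Nat.card D : ℝ)) =
        (((P : ℝ) + 1) * ((M : ℝ) + 1) ^ P * η) * (Nat.card D : ℝ) := by ring
      _ < 1 * (Nat.card D : ℝ) := mul_lt_mul_of_pos_right hfin hDpos
      _ = _ := one_mul _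
  linarith

end Pool.Agent.Lib.MP_b4f117_lc.AT
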