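import Pool.Agent.Lib.MP_b4f117_lc.AT.Stm

/-!
# Piece neut: rows without an entry of noise `0`
-/

set_option autoImplicit false

open Finset

namespace Pool.Agent.Lib.MP_b4f117_lc.AT

open Pool.Agent.Lib.MP_b4f117_lc.AC

private theorem neut_card {E I : Type} [Fintype E] [DecidableEq E] [Fintype I] (φ : I → E)
    (hφ : Function.Injective φ) (Q : ℕ) [NeZero Q] :
    (univ.filter fun z : E → Fin Q => ∀ i, z (φ i) ≠ 0).card * Q ^ Fintype.card I =
      (Q - 1) ^ Fintype.card I * Q ^ Fintype.card E := by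
  classical
  have h1 : (univ.filter fun z : E → Fin Q => ∀ i, z (φ i) ≠ 0) =
      Fintype.piFinset (fun e : E => if e ∈ univ.image φ then (univ.erase (0 : Fin Q))
        else univ) := by
    ext z
    rw [mem_filter, Fintype.mem_piFinset]
    constructor
    · rintro ⟨-, h⟩ e
      split_ifs with he
      · rw [mem_image] at he
        obtain ⟨i, -, rfl⟩ := he
        exact mem_erase.2 ⟨h i, mem_univ _⟩
      · exact mem_univ _
    · intro h
      refine ⟨mem_univ _, fun i => ?_⟩
      have h2 := h (φ i)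
      rw [if_pos (mem_image_of_mem φ (mem_univ i))] at h2
      exact (mem_erase.1 h2).1
  have h3 : (univ.image φ).card = Fintype.card I := by
    rw [card_image_of_injective _ hφ, card_univ]
  have h4 : ∀ e : E, (if e ∈ univ.image φ then (univ.erase (0 : Fin Q)) else univ).card =
      if e ∈ univ.image φ then Q - 1 else Q := by
    intro e
    split_ifs
    · rw [card_erase_of_mem (mem_univ _), card_univ, Fintype.card_fin]
    · rw [card_univ, Fintype.card_fin]
  rw [h1, Fintype.card_piFinset]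
  simp only [h4]
  rw [prod_ite, prod_const, prod_const, filter_mem_eq_inter, univ_inter, h3]
  have h5 : (univ.filter fun e => e ∉ univ.image φ).card + Fintype.card I = Fintype.card E := by
    have h6 := card_filter_add_card_filter_not (s := (univ : Finset E))
      (fun e => e ∈ univ.image φ)
    rw [filter_mem_eq_inter, univ_inter, h3, card_univ] at h6
    omega
  rw [mul_assoc, ← pow_add, h5]

theorem p_neut : S_neut := by
  classical
  intro m d q Q A _ _ _ hQ s₀
  set E := En (Fin m ⊕ Fin d) q A with hE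
  have hQ0 : 0 < Q := Nat.pos_of_ne_zero (NeZero.ne Q)
  let I := (Fin m → Fin q) × (Fin m → A)
  let ψ : I → (Fin d → Fin q) → E := fun p a => mnE p.1 p.2 a (fun g => s₀ g (a g))
  have hψ : ∀ p, Function.Injective (ψ p) := by
    intro p a a' h
    funext g
    have h1 := congrFun h (Sum.inr g)
    have h2 : some (a g, s₀ g (a g)) = some (a' g, s₀ g (a' g)) := h1
    exact (Prod.mk.inj (Option.some.inj h2)).1
  have hcard : Nat.card {z : E → Fin Q // ∃ (κ : Fin m → Fin q) (c : Fin m → A),
      ∀ a : Fin d → Fin q, z (mnE κ c a (fun g => s₀ g (a g))) ≠ 0} =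
      (univ.filter fun z : E → Fin Q => ∃ p : I, ∀ a, z (ψ p a) ≠ 0).card := by
    rw [Nat.card_eq_fintype_card, Fintype.card_subtype]
    congr 1
    ext z
    rw [mem_filter, mem_filter]
    refine and_congr_right fun _ => ?_
    constructor
    · rintro ⟨κ, c, h⟩
      exact ⟨(κ, c), h⟩
    · rintro ⟨⟨κ, c⟩, h⟩
      exact ⟨κ, c, h⟩
  have hunion : (univ.filter fun z : E → Fin Q => ∃ p : I, ∀ a, z (ψ p a) ≠ 0).card ≤
      ∑ p : I, (univ.filter fun z : E → Fin Q => ∀ a, z (ψ p a) ≠ 0).card := by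
    refine (card_le_card ?_).trans card_biUnion_le
    intro z hz
    rw [mem_filter] at hz
    obtain ⟨-, p, hp⟩ := hz
    rw [mem_biUnion]
    exact ⟨p, mem_univ _, mem_filter.2 ⟨mem_univ _, hp⟩⟩
  have hI : Fintype.card I = (q * Fintype.card A) ^ m := by
    simp only [I, Fintype.card_prod, Fintype.card_fun, Fintype.card_fin]
    rw [mul_pow]
  have hsum : (∑ p : I, (univ.filter fun z : E → Fin Q => ∀ a, z (ψ p a) ≠ 0).card) *
      Q ^ (q ^ d) = (q * Fintype.card A) ^ m * ((Q - 1) ^ (q ^ d) * Q ^ Fintype.card E) := by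
    have h1 : ∀ p : I, (univ.filter fun z : E → Fin Q => ∀ a, z (ψ p a) ≠ 0).card *
        Q ^ (q ^ d) = (Q - 1) ^ (q ^ d) * Q ^ Fintype.card E := by
      intro p
      have h2 := neut_card (ψ p) (hψ p) Q
      rwa [Fintype.card_fun, Fintype.card_fin, Fintype.card_fin] at h2
    rw [sum_mul]
    simp only [h1]
    rw [sum_const, card_univ, hI, smul_eq_mul]
  rw [hcard, Nat.card_eq_fintype_card, Fintype.card_fun, Fintype.card_fin]
  have hpos : 0 < Q ^ (q ^ d) := pow_pos hQ0 _
  refine Nat.le_of_mul_le_mul_right ?_ hpos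
  calc 4 * (univ.filter fun z : E → Fin Q => ∃ p : I, ∀ a, z (ψ p a) ≠ 0).card * Q ^ (q ^ d)
      ≤ 4 * (∑ p : I, (univ.filter fun z : E → Fin Q => ∀ a, z (ψ p a) ≠ 0).card) *
        Q ^ (q ^ d) := by
        exact Nat.mul_le_mul_right _ (Nat.mul_le_mul_left _ hunion)
    _ = (4 * (q * Fintype.card A) ^ m * (Q - 1) ^ (q ^ d)) * Q ^ Fintype.card E := by
        rw [mul_assoc, hsum]
        ring
    _ ≤ Q ^ (q ^ d) * Q ^ Fintype.card E := Nat.mul_le_mul_right _ hQ
    _ = Q ^ Fintype.card E * Q ^ (q ^ d) := mul_comm _ _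

end Pool.Agent.Lib.MP_b4f117_lc.AT
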