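import Pool.Agent.Lib.MP_b4f117_lc.AT.Stm

/-!
# One level of a nested NOR collapses
-/

set_option autoImplicit false

open Finset

namespace Pool.Agent.Lib.MP_b4f117_lc.AT

open Pool.Agent.Lib.MP_b4f117_lc.AC

/-- union bound for subtypes -/
theorem nt_union {P : Type} [Fintype P] (N : ℕ) (a : P → Prop) (b : Fin N → P → Prop)
    (h : ∀ p, a p → ∃ i, b i p) :
    Nat.card {p : P // a p} ≤ ∑ i, Nat.card {p : P // b i p} := by
  classical
  have h1 : ∀ c : P → Prop, Nat.card {p : P // c p} = (univ.filter c).card := by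
    intro c
    rw [Nat.card_eq_fintype_card, Fintype.card_subtype]
  simp only [h1]
  refine le_trans (Finset.card_le_card (t := univ.biUnion fun i => univ.filter (b i)) ?_)
    Finset.card_biUnion_le
  intro p hp
  rw [Finset.mem_filter] at hp
  obtain ⟨i, hi⟩ := h p hp.2
  rw [Finset.mem_biUnion]
  exact ⟨i, Finset.mem_univ i, Finset.mem_filter.2 ⟨Finset.mem_univ p, hi⟩⟩

theorem p_nt (h1 : S_sw2) : S_nt := by
  intro O K E _ _ _ _ _ _ s s' N n F hs hsE hK
  induction n generalizing F with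
  | zero =>
    rintro ⟨f, hf, hF⟩
    have hC : C1 s (fun x => ¬ F x) := by
      intro x hx
      rw [hF] at hx
      push Not at hx
      obtain ⟨i, hi⟩ := hx
      obtain ⟨S, hS, hS'⟩ := hf i x hi
      refine ⟨S, hS, fun x' hx' hFx => ?_⟩
      exact (hF x').1 hFx i (hS' x' hx')
    have h2 := h1 s s' (fun x => ¬ F x) hs hsE hK hC
    simp only [not_not] at h2
    rw [pow_zero, one_mul]
    exact h2
  | succ n ih =>
    rintro ⟨f, hf, hF⟩
    have h2 : ∀ p : (O → K) × (O × K → E), ¬ NT s' N (n + 1) (fun y => F (Hot p.1 p.2 y)) →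
        ∃ i, ¬ NT s' N n (fun y => f i (Hot p.1 p.2 y)) := by
      intro p hp
      by_contra hcon
      push Not at hcon
      exact hp ⟨fun i y => f i (Hot p.1 p.2 y), hcon, fun y => hF _⟩
    have h3 := nt_union N _ _ h2
    calc Nat.card {p : (O → K) × (O × K → E) //
          ¬ NT s' N (n + 1) (fun y => F (Hot p.1 p.2 y))} * 2 ^ s'
        ≤ (∑ i, Nat.card {p : (O → K) × (O × K → E) //
          ¬ NT s' N n (fun y => f i (Hot p.1 p.2 y))}) * 2 ^ s' := Nat.mul_le_mul_right _ h3
      _ = ∑ i, Nat.card {p : (O → K) × (O × K → E) //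
          ¬ NT s' N n (fun y => f i (Hot p.1 p.2 y))} * 2 ^ s' := Finset.sum_mul _ _ _
      _ ≤ ∑ _i : Fin N, N ^ n * Nat.card ((O → K) × (O × K → E)) :=
        Finset.sum_le_sum fun i _ => ih (f i) (hf i)
      _ = N ^ (n + 1) * Nat.card ((O → K) × (O × K → E)) := by
        rw [Finset.sum_const, Finset.card_univ, Fintype.card_fin, smul_eq_mul, pow_succ]
        ring

end Pool.Agent.Lib.MP_b4f117_lc.AT
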