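import Pool.Agent.Lib.MP_b4f117_lc.AT.Stm

/-!
# The choice of the numbers
-/

set_option autoImplicit false

open Finset

namespace Pool.Agent.Lib.MP_b4f117_lc.AT

open Pool.Agent.Lib.MP_b4f117_lc.AC

private theorem num_ev (A k : ℕ) : ∀ᶠ q : ℕ in Filter.atTop, A * q ^ k < 2 ^ q := by
  have h1 := tendsto_pow_const_div_const_pow_of_one_lt k (r := (2 : ℝ)) (by norm_num)
  have h2 : ∀ᶠ q : ℕ in Filter.atTop, (q : ℝ) ^ k / 2 ^ q < 1 / ((A : ℝ) + 1) :=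
    h1.eventually (gt_mem_nhds (by positivity))
  filter_upwards [h2] with q hq
  rw [div_lt_div_iff₀ (by positivity) (by positivity)] at hq
  have h3 : ((A * q ^ k : ℕ) : ℝ) < ((2 ^ q : ℕ) : ℝ) := by
    push_cast
    have h4 : (0 : ℝ) ≤ (q : ℝ) ^ k := by positivity
    nlinarith
  exact_mod_cast h3

private theorem num_gates (r d' P M L s E F : ℕ) (hE : 1 ≤ E) (hF : 1 ≤ F) (hP : P + 1 ≤ F)
    (hM : M ≤ E) (hL : L ≤ E) (hs : s ≤ E) :
    gatesT r d' P M L s ≤ 9 * 18 ^ d' * (F * E ^ (2 * r + 3 * d' + 2)) := by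
  unfold gatesT
  have q1 : ∀ j, 1 ≤ E ^ j := fun j => Nat.one_le_iff_ne_zero.2 (by positivity)
  have q2 : ∀ {i j : ℕ}, i ≤ j → E ^ i ≤ E ^ j := fun h => Nat.pow_le_pow_right hE h
  have h1 : 1 + M + (M + 1) ^ 2 ≤ 6 * E ^ 2 := by
    have e1 : E ≤ E ^ 2 := Nat.le_self_pow (by norm_num) E
    calc 1 + M + (M + 1) ^ 2 ≤ E ^ 2 + E ^ 2 + (E + E) ^ 2 :=
          Nat.add_le_add (Nat.add_le_add (q1 2) (hM.trans e1))
            (Nat.pow_le_pow_left (Nat.add_le_add hM hE) 2)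
      _ = 6 * E ^ 2 := by ring
  have h2 : 2 * M + 1 ≤ 3 * E := by omega
  have h3 : L ^ r * (1 + M + (M + 1) ^ 2) ^ d' ≤ 6 ^ d' * E ^ (r + 2 * d') := by
    calc L ^ r * (1 + M + (M + 1) ^ 2) ^ d' ≤ E ^ r * (6 * E ^ 2) ^ d' := by gcongr
      _ = 6 ^ d' * E ^ (r + 2 * d') := by rw [mul_pow, ← pow_mul, pow_add]; ring
  have h4 : L ^ r * (2 * M + 1) ^ d' ≤ 3 ^ d' * E ^ (r + d') := by
    calc L ^ r * (2 * M + 1) ^ d' ≤ E ^ r * (3 * E) ^ d' := by gcongr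
      _ = 3 ^ d' * E ^ (r + d') := by rw [mul_pow, pow_add]; ring
  have s6 : 1 ≤ 6 ^ d' := Nat.one_le_iff_ne_zero.2 (by positivity)
  have s3 : 1 ≤ 3 ^ d' := Nat.one_le_iff_ne_zero.2 (by positivity)
  have h5 : (P + 1) + M + L ^ r * (1 + M + (M + 1) ^ 2) ^ d' ≤
      3 * (6 ^ d' * (F * E ^ (r + 2 * d' + 1))) := by
    have a1 : P + 1 ≤ 6 ^ d' * (F * E ^ (r + 2 * d' + 1)) := by
      calc P + 1 ≤ F := hP
        _ = 1 * (F * 1) := by ring
        _ ≤ 6 ^ d' * (F * E ^ (r + 2 * d' + 1)) :=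
          Nat.mul_le_mul s6 (Nat.mul_le_mul le_rfl (q1 _))
    have a2 : M ≤ 6 ^ d' * (F * E ^ (r + 2 * d' + 1)) := by
      calc M ≤ E := hM
        _ = 1 * (1 * E ^ 1) := by ring
        _ ≤ 6 ^ d' * (F * E ^ (r + 2 * d' + 1)) :=
          Nat.mul_le_mul s6 (Nat.mul_le_mul hF (q2 (by omega)))
    have a3 : L ^ r * (1 + M + (M + 1) ^ 2) ^ d' ≤ 6 ^ d' * (F * E ^ (r + 2 * d' + 1)) := by
      calc L ^ r * (1 + M + (M + 1) ^ 2) ^ d' ≤ 6 ^ d' * E ^ (r + 2 * d') := h3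
        _ = 6 ^ d' * (1 * E ^ (r + 2 * d')) := by ring
        _ ≤ 6 ^ d' * (F * E ^ (r + 2 * d' + 1)) :=
          Nat.mul_le_mul le_rfl (Nat.mul_le_mul hF (q2 (by omega)))
    calc (P + 1) + M + L ^ r * (1 + M + (M + 1) ^ 2) ^ d'
        ≤ 6 ^ d' * (F * E ^ (r + 2 * d' + 1)) + 6 ^ d' * (F * E ^ (r + 2 * d' + 1)) +
          6 ^ d' * (F * E ^ (r + 2 * d' + 1)) := Nat.add_le_add (Nat.add_le_add a1 a2) a3
      _ = 3 * (6 ^ d' * (F * E ^ (r + 2 * d' + 1))) := by ring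
  have h6 : 1 + (L ^ r * (2 * M + 1) ^ d' + 1) * s ≤ 3 * (3 ^ d' * E ^ (r + d' + 1)) := by
    have b1 : 1 ≤ 3 ^ d' * E ^ (r + d' + 1) := Nat.mul_le_mul s3 (q1 _)
    have b2 : L ^ r * (2 * M + 1) ^ d' * s ≤ 3 ^ d' * E ^ (r + d' + 1) := by
      calc L ^ r * (2 * M + 1) ^ d' * s ≤ 3 ^ d' * E ^ (r + d') * E := Nat.mul_le_mul h4 hs
        _ = 3 ^ d' * E ^ (r + d' + 1) := by ring
    have b3 : s ≤ 3 ^ d' * E ^ (r + d' + 1) := by
      calc s ≤ E := hs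
        _ = 1 * E ^ 1 := by ring
        _ ≤ 3 ^ d' * E ^ (r + d' + 1) := Nat.mul_le_mul s3 (q2 (by omega))
    calc 1 + (L ^ r * (2 * M + 1) ^ d' + 1) * s
        = 1 + L ^ r * (2 * M + 1) ^ d' * s + s := by ring
      _ ≤ 3 ^ d' * E ^ (r + d' + 1) + 3 ^ d' * E ^ (r + d' + 1) + 3 ^ d' * E ^ (r + d' + 1) :=
        Nat.add_le_add (Nat.add_le_add b1 b2) b3
      _ = 3 * (3 ^ d' * E ^ (r + d' + 1)) := by ring
  calc ((P + 1) + M + L ^ r * (1 + M + (M + 1) ^ 2) ^ d') *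
        (1 + (L ^ r * (2 * M + 1) ^ d' + 1) * s)
      ≤ (3 * (6 ^ d' * (F * E ^ (r + 2 * d' + 1)))) * (3 * (3 ^ d' * E ^ (r + d' + 1))) :=
        Nat.mul_le_mul h5 h6
    _ = 9 * (6 ^ d' * 3 ^ d') * (F * (E ^ (r + 2 * d' + 1) * E ^ (r + d' + 1))) := by ring
    _ = 9 * 18 ^ d' * (F * E ^ (2 * r + 3 * d' + 2)) := by
      rw [← mul_pow, ← pow_add]
      have e : r + 2 * d' + 1 + (r + d' + 1) = 2 * r + 3 * d' + 2 := by ring
      rw [e]
      norm_num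

private theorem num_Q (Q T N : ℕ) (hQ : 2 ≤ Q) (hT : Q * T ≤ N) :
    2 ^ T * (Q - 1) ^ N ≤ Q ^ N := by
  have h1 : 2 * (Q - 1) ^ Q ≤ Q ^ Q := by
    obtain ⟨m, rfl⟩ : ∃ m, Q = m + 1 := ⟨Q - 1, by omega⟩
    simp only [Nat.add_sub_cancel]
    have hm : (0 : ℝ) < (m : ℝ) := by
      have : 1 ≤ m := by omega
      exact_mod_cast this
    have h3 : 1 + ((m + 1 : ℕ) : ℝ) * (1 / (m : ℝ)) ≤ (1 + 1 / (m : ℝ)) ^ (m + 1) :=
      one_add_mul_le_pow (by have := one_div_pos.2 hm; linarith) (m + 1)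
    have h4 : (2 : ℝ) ≤ (1 + 1 / (m : ℝ)) ^ (m + 1) := by
      refine le_trans ?_ h3
      rw [mul_one_div]
      have : (1 : ℝ) ≤ ((m + 1 : ℕ) : ℝ) / m := by
        rw [le_div_iff₀ hm]
        push_cast
        linarith
      linarith
    have h5 : (2 : ℝ) * (m : ℝ) ^ (m + 1) ≤ ((m : ℝ) + 1) ^ (m + 1) := by
      calc (2 : ℝ) * (m : ℝ) ^ (m + 1) ≤ (1 + 1 / (m : ℝ)) ^ (m + 1) * (m : ℝ) ^ (m + 1) := by
            gcongr
        _ = ((m : ℝ) + 1) ^ (m + 1) := by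
            rw [← mul_pow]
            congr 1
            field_simp
    exact_mod_cast h5
  obtain ⟨r, rfl⟩ : ∃ r, N = Q * T + r := ⟨N - Q * T, by omega⟩
  calc 2 ^ T * (Q - 1) ^ (Q * T + r) = (2 * (Q - 1) ^ Q) ^ T * (Q - 1) ^ r := by
        rw [pow_add, pow_mul, mul_pow]
        ring
    _ ≤ (Q ^ Q) ^ T * Q ^ r := Nat.mul_le_mul (Nat.pow_le_pow_left h1 T)
        (Nat.pow_le_pow_left (Nat.sub_le _ _) r)
    _ = Q ^ (Q * T + r) := by rw [pow_add, pow_mul]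

private theorem num_real (g : ℝ) (d d' w : ℕ) (C : ℝ) (_ : 0 ≤ C) (hg : g * (d' : ℝ) < (d : ℝ))
    (hg0 : 0 ≤ g) :
    ∀ᶠ q : ℕ in Filter.atTop, ∀ P : ℕ, (P : ℝ) ≤ C * (q : ℝ) ^ g →
      2 * ((2 * P + 2) ^ d' * w) ≤ q ^ d := by
  have h1 : Filter.Tendsto (fun q : ℕ => (q : ℝ) ^ ((d : ℝ) - g * d')) Filter.atTop Filter.atTop :=
    (tendsto_rpow_atTop (by linarith)).comp tendsto_natCast_atTop_atTop
  filter_upwards [h1.eventually_ge_atTop (2 * ((2 * C + 2) ^ d' * (w : ℝ))),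
    Filter.eventually_ge_atTop 1] with q hq hq1 P hP
  have hq0 : (1 : ℝ) ≤ (q : ℝ) := by exact_mod_cast hq1
  have e1 : (1 : ℝ) ≤ (q : ℝ) ^ g := Real.one_le_rpow hq0 hg0
  have e2 : 2 * (P : ℝ) + 2 ≤ (2 * C + 2) * (q : ℝ) ^ g := by nlinarith
  have e3 : (2 * (P : ℝ) + 2) ^ d' ≤ (2 * C + 2) ^ d' * (q : ℝ) ^ (g * d') := by
    calc (2 * (P : ℝ) + 2) ^ d' ≤ ((2 * C + 2) * (q : ℝ) ^ g) ^ d' :=
          pow_le_pow_left₀ (by positivity) e2 d'
      _ = (2 * C + 2) ^ d' * (q : ℝ) ^ (g * d') := by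
          rw [mul_pow, ← Real.rpow_natCast ((q : ℝ) ^ g) d', ← Real.rpow_mul (by linarith)]
  have e4 : 2 * ((2 * (P : ℝ) + 2) ^ d' * (w : ℝ)) ≤ (q : ℝ) ^ d := by
    calc 2 * ((2 * (P : ℝ) + 2) ^ d' * (w : ℝ))
        ≤ 2 * ((2 * C + 2) ^ d' * (q : ℝ) ^ (g * d') * (w : ℝ)) := by gcongr
      _ = 2 * ((2 * C + 2) ^ d' * (w : ℝ)) * (q : ℝ) ^ (g * d') := by ring
      _ ≤ (q : ℝ) ^ ((d : ℝ) - g * d') * (q : ℝ) ^ (g * d') := by gcongr
      _ = (q : ℝ) ^ d := by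
          rw [← Real.rpow_add (by linarith), ← Real.rpow_natCast]
          congr 1
          ring
  exact_mod_cast e4

private theorem num_P (γ g : ℝ) (c C q x : ℕ) (hg : γ ≤ g) (hg0 : 0 ≤ g) (hx : 1 ≤ x)
    (hxq : x ≤ C * q) :
    (c : ℝ) * ((x : ℕ) : ℝ) ^ γ ≤ ((c : ℝ) * (C : ℝ) ^ g) * (q : ℝ) ^ g := by
  have h1 : (1 : ℝ) ≤ (x : ℝ) := by exact_mod_cast hx
  have h2 : (x : ℝ) ≤ (C : ℝ) * (q : ℝ) := by exact_mod_cast hxq
  calc (c : ℝ) * (x : ℝ) ^ γ ≤ (c : ℝ) * (x : ℝ) ^ g := by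
        gcongr
    _ ≤ (c : ℝ) * ((C : ℝ) * (q : ℝ)) ^ g := by gcongr
    _ = ((c : ℝ) * (C : ℝ) ^ g) * (q : ℝ) ^ g := by
        rw [Real.mul_rpow (by positivity) (by positivity)]
        ring

theorem p_num (h1 : S_num1) : S_num := by
  intro n d d' h c γ hd hγ
  obtain ⟨g, hgdef⟩ : ∃ g, g = max γ 0 := ⟨_, rfl⟩
  have hg0 : 0 ≤ g := by rw [hgdef]; exact le_max_right _ _
  have hγg : γ ≤ g := by rw [hgdef]; exact le_max_left _ _
  have hg : g * (d' : ℝ) < (d : ℝ) := by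
    rw [hgdef]
    rcases le_total γ 0 with h0 | h0
    · rw [max_eq_right h0, zero_mul]
      exact_mod_cast (by omega : 0 < d)
    · rwa [max_eq_left h0]
  obtain ⟨gn, hgn⟩ : ∃ gn, gn = ⌈g⌉₊ := ⟨_, rfl⟩
  have hgle : g ≤ (gn : ℝ) := by rw [hgn]; exact Nat.le_ceil g
  obtain ⟨a, ha⟩ : ∃ a, a = gn + 4 + d := ⟨_, rfl⟩
  obtain ⟨b, hb⟩ : ∃ b, b = 2 * d + 2 * a + 4 := ⟨_, rfl⟩
  obtain ⟨C, hC⟩ := h1 n d h a b
  obtain ⟨K, hK⟩ : ∃ K, K = C * c := ⟨_, rfl⟩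
  obtain ⟨e, he⟩ : ∃ e, e = 2 * (n + 1) + 3 * d' + 2 := ⟨_, rfl⟩
  obtain ⟨m, hm⟩ : ∃ m, m = mm n a b := ⟨_, rfl⟩
  obtain ⟨w, hw⟩ : ∃ w, w = m + d + K * e + 1 := ⟨_, rfl⟩
  obtain ⟨Q, hQ⟩ : ∃ Q, Q = (2 ^ (h + 2)) ^ d := ⟨_, rfl⟩
  obtain ⟨Cs, hCs⟩ : ∃ Cs, Cs = CstE (m + d) w Q := ⟨_, rfl⟩
  obtain ⟨C1, hC1⟩ : ∃ C1 : ℝ, C1 = (c : ℝ) * (C : ℝ) ^ g := ⟨_, rfl⟩
  have hC10 : 0 ≤ C1 := by rw [hC1]; positivity
  obtain ⟨A, hA⟩ : ∃ A, A = ⌈C1⌉₊ := ⟨_, rfl⟩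
  have hCA : C1 ≤ (A : ℝ) := by rw [hA]; exact Nat.le_ceil _
  have hQ2 : 2 ≤ Q := by
    rw [hQ, ← pow_mul]
    calc 2 = 2 ^ 1 := by norm_num
      _ ≤ 2 ^ ((h + 2) * d) := Nat.pow_le_pow_right (by norm_num) (by nlinarith)
  obtain ⟨B0, hB0⟩ : ∃ B0, B0 = 4 * ((h + 1) * (2 * (9 * 18 ^ d') * Cs)) := ⟨_, rfl⟩
  obtain ⟨S, hS⟩ : ∃ S, S = (K + 1) * A + 1 + (1 + (K + 2) * n) + 2 + n + 2 := ⟨_, rfl⟩
  have hev := ((((num_ev (8 * d) 1).and (num_ev (A + 1) gn)).and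
    ((num_ev B0 0).and (Filter.eventually_ge_atTop (Q * (2 + (h + 2) * m))))).and
    ((num_real g d d' (w ^ (m + d)) C1 hC10 hg hg0).and (Filter.eventually_ge_atTop S)))
  obtain ⟨q, ⟨⟨hq1, hq2⟩, hq3, hq4⟩, hq5, hq6⟩ := hev.exists
  have hq2' : 2 ≤ q := by omega
  have hq0 : 1 ≤ q := by omega
  obtain ⟨hV1, hV2⟩ := hC q hq0
  have hsq : q ^ 2 ≤ q ^ d := Nat.pow_le_pow_right hq0 hd
  refine ⟨q, a, b, w, hq2', by simpa using hq1.le, by omega, ?_, ?_, ?_⟩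
  · -- 8 q^a q^(a+1) ≤ q^b
    calc 8 * q ^ a * q ^ (a + 1) = 2 ^ 3 * q ^ (2 * a + 1) := by
          rw [show (8 : ℕ) = 2 ^ 3 by norm_num]
          ring
      _ ≤ q ^ 3 * q ^ (2 * a + 1) := Nat.mul_le_mul_right _ (Nat.pow_le_pow_left hq2' 3)
      _ = q ^ (2 * a + 4) := by rw [← pow_add]; congr 1; ring
      _ ≤ q ^ b := Nat.pow_le_pow_right hq0 (by omega)
  · rw [← hm, ← hQ]
    set T := q ^ d / Q with hT
    have t1 : Q * T ≤ q ^ d := Nat.mul_div_le _ _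
    have t2 := num_Q Q T (q ^ d) hQ2 t1
    have t3 : 2 + q * (h + 2) * m ≤ T := by
      rw [hT, Nat.le_div_iff_mul_le (by omega)]
      calc (2 + q * (h + 2) * m) * Q ≤ (2 * q + q * (h + 2) * m) * Q := by
            refine Nat.mul_le_mul_right _ ?_
            omega
        _ = q * (Q * (2 + (h + 2) * m)) := by ring
        _ ≤ q * q := Nat.mul_le_mul_left _ hq4
        _ = q ^ 2 := by ring
        _ ≤ q ^ d := hsq
    calc 4 * (q * (2 ^ q) ^ (h + 1)) ^ m * (Q - 1) ^ (q ^ d)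
        ≤ 2 ^ T * (Q - 1) ^ (q ^ d) := by
          refine Nat.mul_le_mul_right _ ?_
          calc 4 * (q * (2 ^ q) ^ (h + 1)) ^ m ≤ 4 * (2 ^ q * (2 ^ q) ^ (h + 1)) ^ m := by
                gcongr
                exact Nat.lt_two_pow_self.le
            _ = 2 ^ (2 + q * (h + 2) * m) := by
                rw [← pow_succ', ← pow_mul, ← pow_mul, pow_add]
                norm_num
                ring
            _ ≤ 2 ^ T := Nat.pow_le_pow_right (by norm_num) t3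
      _ ≤ Q ^ (q ^ d) := t2
  · intro M L P s hM hL hs hP
    rw [← hm, ← hQ]
    obtain ⟨E, hE⟩ : ∃ E, E = 2 ^ (q * K) := ⟨_, rfl⟩
    have hX : (2 ^ (d * q) * Vn n d h a b q) ^ c ≤ E := by
      calc (2 ^ (d * q) * Vn n d h a b q) ^ c ≤ (2 ^ (C * q)) ^ c := Nat.pow_le_pow_left hV1 c
        _ = E := by
            rw [hE, ← pow_mul, hK]
            congr 1
            ring
    have hE1 : 1 ≤ E := by rw [hE]; exact Nat.one_le_iff_ne_zero.2 (by positivity)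
    have hP0 : (P : ℝ) ≤ C1 * (q : ℝ) ^ g := by
      refine hP.trans ?_
      rw [hC1]
      have hx1 : 1 ≤ d * q + Nat.log 2 (Vn n d h a b q) :=
        (Nat.mul_pos (by omega) hq0).trans_le (Nat.le_add_right _ _)
      exact num_P γ g c C q _ hγg hg0 hx1 hV2
    have hPA : P ≤ A * q ^ gn := by
      have e1 : (P : ℝ) ≤ (A : ℝ) * (q : ℝ) ^ gn := by
        refine hP0.trans ?_
        have e2 : (q : ℝ) ^ g ≤ (q : ℝ) ^ (gn : ℝ) :=
          Real.rpow_le_rpow_of_exponent_le (by exact_mod_cast hq0) hgle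
        rw [Real.rpow_natCast] at e2
        exact mul_le_mul hCA e2 (by positivity) (by positivity)
      exact_mod_cast e1
    have hqg : 1 ≤ q ^ gn := Nat.one_le_iff_ne_zero.2 (by positivity)
    have hP1 : P + 1 ≤ 2 ^ q := by
      calc P + 1 ≤ A * q ^ gn + q ^ gn := Nat.add_le_add hPA hqg
        _ = (A + 1) * q ^ gn := by ring
        _ ≤ 2 ^ q := hq2.le
    have hs0 := hq5 P hP0
    refine ⟨?_, hs0, ?_, ?_⟩
    · have hg1 := num_gates (n + 1) d' P M L s E (2 ^ q) hE1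
        (Nat.one_le_iff_ne_zero.2 (by positivity)) hP1 (hM.trans hX) (hL.trans hX) (hs.trans hX)
      rw [← he] at hg1
      rw [← hCs]
      have e2 : 0 < 2 ^ q * E ^ e := by positivity
      calc 4 * ((h + 1) * (2 * gatesT (n + 1) d' P M L s * Cs))
          ≤ 4 * ((h + 1) * (2 * (9 * 18 ^ d' * (2 ^ q * E ^ e)) * Cs)) := by gcongr
        _ = (2 ^ q * E ^ e) * (B0 * q ^ 0) := by rw [hB0]; ring
        _ < (2 ^ q * E ^ e) * 2 ^ q := Nat.mul_lt_mul_of_pos_left hq3 e2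
        _ = 2 ^ (q * (K * e + 2)) := by
            rw [hE, ← pow_mul, ← pow_add, ← pow_add]
            congr 1
            ring
        _ ≤ 2 ^ (q * (w + 1)) := Nat.pow_le_pow_right (by norm_num)
            (Nat.mul_le_mul_left _ (by omega))
        _ = (2 ^ q) ^ (w + 1) := by rw [pow_mul]
    · calc 8 * ((2 * P + 2) ^ d' * w ^ (m + d)) * q ^ d
          = 4 * (2 * ((2 * P + 2) ^ d' * w ^ (m + d))) * q ^ d := by ring
        _ ≤ 4 * q ^ d * q ^ d := by gcongr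
        _ = 2 ^ 2 * q ^ (2 * d) := by ring
        _ ≤ q ^ 2 * q ^ (2 * d) := Nat.mul_le_mul_right _ (Nat.pow_le_pow_left hq2' 2)
        _ = q ^ (2 + 2 * d) := by rw [← pow_add]
        _ ≤ q ^ b := Nat.pow_le_pow_right hq0 (by omega)
    · -- the last inequality
      have hk1 : q * K + 1 ≤ q * (K + 1) := by rw [Nat.mul_succ]; exact Nat.add_le_add_left hq0 _
      have hk2 : q * (K + 1) + 1 ≤ q * (K + 2) := by
        rw [Nat.mul_succ q (K + 1)]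
        exact Nat.add_le_add_left hq0 _
      have hKE : E + 2 ^ q ≤ 2 ^ (q * (K + 2)) := by
        calc E + 2 ^ q ≤ 2 ^ (q * (K + 1)) + 2 ^ (q * (K + 1)) := by
              rw [hE]
              refine Nat.add_le_add (Nat.pow_le_pow_right (by norm_num)
                (Nat.mul_le_mul_left _ (by omega))) (Nat.pow_le_pow_right (by norm_num) ?_)
              exact Nat.le_mul_of_pos_right _ (by omega)
          _ = 2 ^ (q * (K + 1) + 1) := by rw [pow_succ]; ring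
          _ ≤ 2 ^ (q * (K + 2)) := Nat.pow_le_pow_right (by norm_num) hk2
      have hM1 : M + 1 ≤ 2 ^ (q * (K + 1)) := by
        calc M + 1 ≤ E + E := Nat.add_le_add (hM.trans hX) hE1
          _ = 2 ^ (q * K + 1) := by rw [hE, pow_succ]; ring
          _ ≤ 2 ^ (q * (K + 1)) := Nat.pow_le_pow_right (by norm_num) hk1
      have f1 : (P + 1) * (M + 1) ^ P ≤ 2 ^ (((K + 1) * A + 1) * q ^ (gn + 1)) := by
        calc (P + 1) * (M + 1) ^ P ≤ 2 ^ q * (2 ^ (q * (K + 1))) ^ P :=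
              Nat.mul_le_mul hP1 (Nat.pow_le_pow_left hM1 P)
          _ ≤ 2 ^ q * (2 ^ (q * (K + 1))) ^ (A * q ^ gn) :=
              Nat.mul_le_mul_left _ (Nat.pow_le_pow_right (by positivity) hPA)
          _ = 2 ^ (q * 1 + (K + 1) * A * q ^ (gn + 1)) := by
              rw [← pow_mul, ← pow_add]
              congr 1
              ring
          _ ≤ 2 ^ (((K + 1) * A + 1) * q ^ (gn + 1)) := by
              refine Nat.pow_le_pow_right (by norm_num) ?_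
              have : q * 1 ≤ q * q ^ gn := Nat.mul_le_mul_left _ hqg
              calc q * 1 + (K + 1) * A * q ^ (gn + 1)
                  ≤ q * q ^ gn + (K + 1) * A * q ^ (gn + 1) := Nat.add_le_add_right this _
                _ = ((K + 1) * A + 1) * q ^ (gn + 1) := by ring
      have f2 : n * (L + P + 1) ^ n ≤ 2 ^ ((1 + (K + 2) * n) * q ^ (gn + 1)) := by
        have hn2 : n ≤ 2 ^ q := (by omega : n ≤ q).trans Nat.lt_two_pow_self.le
        have hL2 : L + P + 1 ≤ 2 ^ (q * (K + 2)) := by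
          refine le_trans ?_ hKE
          have := hL.trans hX
          omega
        calc n * (L + P + 1) ^ n ≤ 2 ^ q * (2 ^ (q * (K + 2))) ^ n :=
              Nat.mul_le_mul hn2 (Nat.pow_le_pow_left hL2 n)
          _ = 2 ^ ((1 + (K + 2) * n) * (q * 1)) := by
              rw [← pow_mul, ← pow_add]
              congr 1
              ring
          _ ≤ 2 ^ ((1 + (K + 2) * n) * q ^ (gn + 1)) := by
              refine Nat.pow_le_pow_right (by norm_num) (Nat.mul_le_mul_left _ ?_)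
              rw [pow_succ']
              exact Nat.mul_le_mul_left _ hqg
      have f3 : ((K + 1) * A + 1 + (1 + (K + 2) * n) + 2) * q ^ (gn + 1) ≤ q ^ a := by
        calc ((K + 1) * A + 1 + (1 + (K + 2) * n) + 2) * q ^ (gn + 1)
            ≤ q * q ^ (gn + 1) := Nat.mul_le_mul_right _ (by omega)
          _ = q ^ (gn + 2) := by ring
          _ ≤ q ^ a := Nat.pow_le_pow_right hq0 (by omega)
      have hqg1 : 1 ≤ q ^ (gn + 1) := Nat.one_le_iff_ne_zero.2 (by positivity)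
      have f4 : (P + 1) * (M + 1) ^ P * (n * (L + P + 1) ^ n) * 4 ≤ 2 ^ (q ^ a) := by
        calc (P + 1) * (M + 1) ^ P * (n * (L + P + 1) ^ n) * 4
            ≤ 2 ^ (((K + 1) * A + 1) * q ^ (gn + 1)) *
              2 ^ ((1 + (K + 2) * n) * q ^ (gn + 1)) * 2 ^ (2 * 1) := by
              rw [show (2 : ℕ) ^ (2 * 1) = 4 by norm_num]
              exact Nat.mul_le_mul_right _ (Nat.mul_le_mul f1 f2)
          _ = 2 ^ (((K + 1) * A + 1) * q ^ (gn + 1) + (1 + (K + 2) * n) * q ^ (gn + 1) +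
              2 * 1) := by rw [← pow_add, ← pow_add]
          _ ≤ 2 ^ (q ^ a) := by
              refine Nat.pow_le_pow_right (by norm_num) (le_trans ?_ f3)
              have : 2 * 1 ≤ 2 * q ^ (gn + 1) := Nat.mul_le_mul_left _ hqg1
              calc ((K + 1) * A + 1) * q ^ (gn + 1) + (1 + (K + 2) * n) * q ^ (gn + 1) + 2 * 1
                  ≤ ((K + 1) * A + 1) * q ^ (gn + 1) + (1 + (K + 2) * n) * q ^ (gn + 1) +
                    2 * q ^ (gn + 1) := Nat.add_le_add_left this _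
                _ = _ := by ring
      have f5 : (P + 1) * (M + 1) ^ P * 4 ≤ 2 ^ (q ^ (a + 1)) := by
        calc (P + 1) * (M + 1) ^ P * 4
            ≤ 2 ^ (((K + 1) * A + 1) * q ^ (gn + 1)) * 2 ^ (2 * 1) := by
              rw [show (2 : ℕ) ^ (2 * 1) = 4 by norm_num]
              exact Nat.mul_le_mul_right _ f1
          _ = 2 ^ (((K + 1) * A + 1) * q ^ (gn + 1) + 2 * 1) := by rw [← pow_add]
          _ ≤ 2 ^ (q ^ (a + 1)) := by
              refine Nat.pow_le_pow_right (by norm_num) ?_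
              have : 2 * 1 ≤ 2 * q ^ (gn + 1) := Nat.mul_le_mul_left _ hqg1
              calc ((K + 1) * A + 1) * q ^ (gn + 1) + 2 * 1
                  ≤ ((K + 1) * A + 1) * q ^ (gn + 1) + 2 * q ^ (gn + 1) :=
                    Nat.add_le_add_left this _
                _ ≤ ((K + 1) * A + 1 + (1 + (K + 2) * n) + 2) * q ^ (gn + 1) := by
                    rw [← add_mul]
                    exact Nat.mul_le_mul_right _ (by omega)
                _ ≤ q ^ a := f3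
                _ ≤ q ^ (a + 1) := Nat.pow_le_pow_right hq0 (by omega)
      have g4 : ((P : ℝ) + 1) * ((M : ℝ) + 1) ^ P *
          ((n : ℝ) * ((L + P + 1 : ℕ) : ℝ) ^ n / 2 ^ (q ^ a)) ≤ 1 / 4 := by
        have e0 : (0 : ℝ) < 2 ^ (q ^ a) := by positivity
        rw [← mul_div_assoc, div_le_iff₀ e0]
        have : ((((P + 1) * (M + 1) ^ P * (n * (L + P + 1) ^ n) * 4 : ℕ) : ℝ)) ≤
            ((2 ^ (q ^ a) : ℕ) : ℝ) := by exact_mod_cast f4
        push_cast at this ⊢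
        linarith
      have g5 : ((P : ℝ) + 1) * ((M : ℝ) + 1) ^ P * ((1 / 2) ^ (q ^ (a + 1))) ≤ 1 / 4 := by
        have e0 : (0 : ℝ) < 2 ^ (q ^ (a + 1)) := by positivity
        rw [one_div_pow, mul_one_div, div_le_iff₀ e0]
        have : ((((P + 1) * (M + 1) ^ P * 4 : ℕ) : ℝ)) ≤ ((2 ^ (q ^ (a + 1)) : ℕ) : ℝ) := by
          exact_mod_cast f5
        push_cast at this ⊢
        linarith
      rw [mul_add]
      linarith

end Pool.Agent.Lib.MP_b4f117_lc.AT
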