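import Pool.Agent.Lib.MP_b4f117_lc.AT.Stm

set_option autoImplicit false

namespace Pool.Agent.Lib.MP_b4f117_lc.AT

/-- at most exponential growth -/
private def num1_G (f : ℕ → ℕ) : Prop := ∃ C : ℕ, ∀ q : ℕ, 1 ≤ q → f q ≤ 2 ^ (C * q)

private theorem num1_const (c : ℕ) : num1_G (fun _ => c) := by
  refine ⟨c, fun q hq => ?_⟩
  calc c ≤ 2 ^ c := Nat.lt_two_pow_self.le
    _ ≤ 2 ^ (c * q) := Nat.pow_le_pow_right (by norm_num) (Nat.le_mul_of_pos_right c hq)

private theorem num1_id : num1_G (fun q => q) :=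
  ⟨1, fun q _ => by rw [one_mul]; exact Nat.lt_two_pow_self.le⟩

private theorem num1_two (d : ℕ) : num1_G (fun q => 2 ^ (d * q)) := ⟨d, fun _ _ => le_rfl⟩

private theorem num1_two' : num1_G (fun q => 2 ^ q) := ⟨1, fun q _ => by rw [one_mul]⟩

private theorem num1_mul {f g : ℕ → ℕ} (hf : num1_G f) (hg : num1_G g) :
    num1_G (fun q => f q * g q) := by
  obtain ⟨C, hC⟩ := hf
  obtain ⟨D, hD⟩ := hg
  refine ⟨C + D, fun q hq => ?_⟩
  rw [add_mul, pow_add]
  exact Nat.mul_le_mul (hC q hq) (hD q hq)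

private theorem num1_add {f g : ℕ → ℕ} (hf : num1_G f) (hg : num1_G g) :
    num1_G (fun q => f q + g q) := by
  obtain ⟨C, hC⟩ := hf
  obtain ⟨D, hD⟩ := hg
  refine ⟨C + D + 1, fun q hq => ?_⟩
  have h1 : 2 ^ (C * q) ≤ 2 ^ ((C + D) * q) :=
    Nat.pow_le_pow_right (by norm_num) (Nat.mul_le_mul_right q (by omega))
  have h2 : 2 ^ (D * q) ≤ 2 ^ ((C + D) * q) :=
    Nat.pow_le_pow_right (by norm_num) (Nat.mul_le_mul_right q (by omega))
  calc f q + g q ≤ 2 ^ ((C + D) * q) + 2 ^ ((C + D) * q) :=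
        Nat.add_le_add ((hC q hq).trans h1) ((hD q hq).trans h2)
    _ = 2 ^ ((C + D) * q + 1) := by rw [pow_succ]; ring
    _ ≤ 2 ^ ((C + D + 1) * q) := by
        refine Nat.pow_le_pow_right (by norm_num) ?_
        rw [add_mul (C + D) 1 q, one_mul]
        omega

private theorem num1_pow {f : ℕ → ℕ} (hf : num1_G f) (k : ℕ) :
    num1_G (fun q => f q ^ k) := by
  obtain ⟨C, hC⟩ := hf
  refine ⟨C * k, fun q hq => ?_⟩
  calc f q ^ k ≤ (2 ^ (C * q)) ^ k := Nat.pow_le_pow_left (hC q hq) k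
    _ = 2 ^ (C * k * q) := by rw [← pow_mul]; ring_nf

theorem p_num1 : S_num1 := by
  intro n d h a b
  have hA : num1_G (fun q => (2 ^ q) ^ (h + 1)) := num1_pow num1_two' (h + 1)
  have hV : num1_G (fun q => 2 ^ (d * q) * Vn n d h a b q) := by
    refine num1_mul (num1_two d) ?_
    unfold Vn
    refine num1_add (num1_add (num1_mul (num1_const d) (num1_mul num1_id hA))
      (num1_mul (num1_const 3) ?_)) (num1_const 2)
    refine num1_mul (num1_pow num1_id _) (num1_mul (num1_pow num1_id _)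
      (num1_mul (num1_pow num1_id _) (num1_mul (num1_pow hA _)
        (num1_mul (num1_pow num1_id _) (num1_mul (num1_mul (num1_const d) num1_id) hA)))))
  obtain ⟨C, hC⟩ := hV
  refine ⟨C, fun q hq => ⟨hC q hq, ?_⟩⟩
  have hV0 : Vn n d h a b q ≠ 0 := by
    unfold Vn
    omega
  have h1 : 2 ^ (d * q + Nat.log 2 (Vn n d h a b q)) ≤ 2 ^ (C * q) := by
    rw [pow_add]
    exact (Nat.mul_le_mul_left _ (Nat.pow_log_le_self 2 hV0)).trans (hC q hq)
  exact (Nat.pow_le_pow_iff_right (by norm_num)).1 h1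

end Pool.Agent.Lib.MP_b4f117_lc.AT
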