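import Pool.Agent.Lib.MP_b4f117_lc.AT.Stm

/-!
# MP_b4f117_lc : piece `[EWT projT]`
-/

set_option autoImplicit false

namespace Pool.Agent.Lib.MP_b4f117_lc.AT

open Pool.Agent.Lib.MP_b4f117_lc.AC

theorem projT_inj {d q ν : ℕ} {A : Type} (φ : Fin d × (Fin q × A) ≃ Fin ν) (b : Bool)
    {a a' : Fin d → Fin q} {v v' : Fin d → A} (h : litS φ b a v = litS φ b a' v') :
    a = a' ∧ v = v' := by
  have key : ∀ g, a g = a' g ∧ v g = v' g := by
    intro g
    have h1 : (φ (g, (a g, v g)), b) ∈ litS φ b a v := by
      unfold litS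
      exact Finset.mem_image_of_mem _ (Finset.mem_univ g)
    rw [h] at h1
    unfold litS at h1
    obtain ⟨g', _, hg'⟩ := Finset.mem_image.1 h1
    have h2 := congrArg Prod.fst hg'
    have h3 := φ.injective h2
    have h4 : g' = g := congrArg Prod.fst h3
    subst h4
    have h5 := congrArg Prod.snd h3
    exact ⟨(congrArg Prod.fst h5).symm, (congrArg Prod.snd h5).symm⟩
  exact ⟨funext fun g => (key g).1, funext fun g => (key g).2⟩

theorem p_projT : S_projT := by
  classical
  intro R J K m d q ν μ A n φ ψ ι p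
  by_cases h0 : (ψ.symm (p.1 0)).knd = 0
  · by_cases h1 : ∃ a v, p.2.1 = litS φ (decide (n % 2 = 0)) a v
    · obtain ⟨a, v, hav⟩ := h1
      right
      refine ⟨mnE (ι (rowOf n fun l => ψ.symm (p.1 l))) (ψ.symm (p.1 (Fin.last n))).cop a v, true,
        fun x => ?_⟩
      unfold srcT
      simp only [h0, if_true, decide_eq_true_eq]
      constructor
      · rintro ⟨a', v', h, hx⟩
        obtain ⟨rfl, rfl⟩ := projT_inj φ _ (hav.symm.trans h)
        exact hx
      · intro hx
        exact ⟨a, v, hav, hx⟩
    · left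
      refine ⟨false, fun x => ?_⟩
      unfold srcT
      simp only [h0, if_true, decide_eq_false_iff_not]
      rintro ⟨a', v', h, _⟩
      exact h1 ⟨a', v', h⟩
  · by_cases h0' : (ψ.symm (p.1 0)).knd = 1
    · by_cases h1 : ∃ v, p.2.1 = litS φ (decide (n % 2 = 0)) (ψ.symm (p.1 0)).anc v
      · obtain ⟨v, hav⟩ := h1
        right
        refine ⟨anE m (ψ.symm (p.1 0)).anc v, decide (n % 2 = 0), fun x => ?_⟩
        unfold srcT
        simp only
        rw [if_neg h0, if_pos h0', decide_eq_true_iff]
        constructor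
        · rintro ⟨v', h, hx⟩
          obtain ⟨_, rfl⟩ := projT_inj φ _ (hav.symm.trans h)
          exact hx
        · intro hx
          exact ⟨v, hav, hx⟩
      · left
        refine ⟨false, fun x => ?_⟩
        unfold srcT
        simp only
        rw [if_neg h0, if_pos h0', decide_eq_false_iff_not]
        rintro ⟨v', h, _⟩
        exact h1 ⟨v', h⟩
    · left
      refine ⟨srcT n φ ψ ι (fun _ => true) p, fun x => ?_⟩
      unfold srcT
      simp only
      rw [if_neg h0, if_neg h0', if_neg h0, if_neg h0']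

end Pool.Agent.Lib.MP_b4f117_lc.AT
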