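import Pool.Agent.Lib.MP_b4f117_lc.AT.Stm

/-!
# The truth value as a nested NOR (piece sem)
-/

set_option autoImplicit false

namespace Pool.Agent.Lib.MP_b4f117_lc.AT

open Pool.Agent.Lib.MP_b4f117_lc.AC

theorem sem_xor (c : Bool) (r : ℕ) :
    xor c (decide ((r + 1) % 2 = 1)) = xor (!c) (decide (r % 2 = 1)) := by
  rcases Nat.mod_two_eq_zero_or_one r with h | h
  · have h1 : (r + 1) % 2 = 1 := by omega
    rw [h, h1]
    cases c <;> rfl
  · have h1 : (r + 1) % 2 = 0 := by omega
    rw [h, h1]
    cases c <;> rfl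

theorem p_sem : S_sem := by
  intro d ν μ W r
  induction r with
  | zero =>
    intro c x
    cases c with
    | true =>
      change (∀ T, x (fun i => i.elim0, T) = true → TmSome W T) ↔
        ((¬ ∃ T, x (fun i => i.elim0, T) = true ∧ ¬ TmSome W T) ↔ true = true)
      constructor
      · intro h
        exact ⟨fun _ => rfl, fun _ ⟨T, h1, h2⟩ => h2 (h T h1)⟩
      · intro h T h1
        by_contra h2
        exact (h.2 rfl) ⟨T, h1, h2⟩
    | false =>
      change (∃ T, x (fun i => i.elim0, T) = true ∧ TmHolds W T) ↔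
        ((¬ ∃ T, x (fun i => i.elim0, T) = true ∧ TmHolds W T) ↔ false = true)
      constructor
      · intro h
        exact ⟨fun h1 => absurd h h1, fun h1 => absurd h1 Bool.false_ne_true⟩
      · intro h
        by_contra h1
        exact Bool.false_ne_true (h.1 h1)
  | succ r ih =>
    intro c x
    rw [sem_xor]
    cases c with
    | true =>
      change (∀ j : Fin μ, Sem W r false (fun p => x (Fin.cons j p.1, p.2))) ↔
        ((¬ ∃ j : Fin μ, NS r (fun i => ∃ T, x (Fin.cons j i, T) = true ∧
          Rel W (xor false (decide (r % 2 = 1))) T)) ↔ true = true)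
      constructor
      · intro h
        exact ⟨fun _ => rfl, fun _ ⟨j, hj⟩ => Bool.false_ne_true (((ih false _).1 (h j)).1 hj)⟩
      · intro h j
        exact (ih false _).2 ⟨fun h1 => absurd ⟨j, h1⟩ (h.2 rfl),
          fun h1 => absurd h1 Bool.false_ne_true⟩
    | false =>
      change (∃ j : Fin μ, Sem W r true (fun p => x (Fin.cons j p.1, p.2))) ↔
        ((¬ ∃ j : Fin μ, NS r (fun i => ∃ T, x (Fin.cons j i, T) = true ∧
          Rel W (xor true (decide (r % 2 = 1))) T)) ↔ false = true)
      constructor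
      · rintro ⟨j, hj⟩
        exact ⟨fun h1 => absurd ⟨j, ((ih true _).1 hj).2 rfl⟩ h1,
          fun h1 => absurd h1 Bool.false_ne_true⟩
      · intro h
        by_contra h1
        refine Bool.false_ne_true (h.1 ?_)
        rintro ⟨j, hj⟩
        exact h1 ⟨j, (ih true _).2 ⟨fun _ => rfl, fun _ => hj⟩⟩

end Pool.Agent.Lib.MP_b4f117_lc.AT
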