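import Pool.Agent.Lib.MP_b4f117_lc.AT.Stm

/-!
# Piece srcsatT: the solutions of weight `d q` of the source instances are the transversals
(helper29)
-/

set_option autoImplicit false

open Finset

namespace Pool.Agent.Lib.MP_b4f117_lc.AT

open Pool.Agent.Lib.MP_b4f117_lc.AC

/-- nested NORs and bijections of the index set -/
private theorem srcsatT_NS_equiv {I I' : Type} (e : I ≃ I') : ∀ (r : ℕ)
    (P : (Fin r → I) → Prop),
    NS r (fun i : Fin r → I' => P (fun l => e.symm (i l))) ↔ NS r P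
  | 0, P => by
    have h : (fun l : Fin 0 => e.symm ((fun i : Fin 0 => (i.elim0 : I')) l)) =
        fun i : Fin 0 => (i.elim0 : I) := funext fun i => i.elim0
    show (¬ P (fun l : Fin 0 => e.symm ((fun i : Fin 0 => (i.elim0 : I')) l))) ↔
      ¬ P (fun i : Fin 0 => (i.elim0 : I))
    rw [h]
  | r + 1, P => by
    have h : ∀ (j : I') (i : Fin r → I'),
        (fun l => e.symm ((Fin.cons j i : Fin (r + 1) → I') l)) =
          (Fin.cons (e.symm j) (fun l => e.symm (i l)) : Fin (r + 1) → I) := by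
      intro j i
      funext l
      refine Fin.cases ?_ (fun l => ?_) l
      · rfl
      · rfl
    have h2 : ∀ j : I', NS r (fun i : Fin r → I' =>
        P (fun l => e.symm ((Fin.cons j i : Fin (r + 1) → I') l))) ↔
        NS r (fun i : Fin r → I => P (Fin.cons (e.symm j) i)) := by
      intro j
      have h3 := srcsatT_NS_equiv e r (fun i : Fin r → I => P (Fin.cons (e.symm j) i))
      rw [← h3]
      have h4 : (fun i : Fin r → I' =>
          P (fun l => e.symm ((Fin.cons j i : Fin (r + 1) → I') l))) =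
          fun i : Fin r → I' => P (Fin.cons (e.symm j) (fun l => e.symm (i l))) := by
        funext i
        rw [h]
      rw [h4]
    show (¬ ∃ j : I', NS r (fun i : Fin r → I' =>
        P (fun l => e.symm ((Fin.cons j i : Fin (r + 1) → I') l)))) ↔
      ¬ ∃ j : I, NS r (fun i : Fin r → I => P (Fin.cons j i))
    refine not_congr ⟨?_, ?_⟩
    · rintro ⟨j, hj⟩
      exact ⟨e.symm j, (h2 j).1 hj⟩
    · rintro ⟨j, hj⟩
      refine ⟨e j, (h2 (e j)).2 ?_⟩
      rw [e.symm_apply_apply]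
      exact hj

section

variable {R J K m d q : ℕ} {A : Type}

private theorem srcsatT_rowOf : ∀ (n : ℕ) (i i' : Fin (n + 1) → Dx R J K m d q A),
    (∀ l, (i l).row = (i' l).row ∧ (i l).jj = (i' l).jj ∧ (i l).kk = (i' l).kk) →
    rowOf n i = rowOf n i'
  | 0, _, _, h => (h 0).1
  | n + 1, i, i', h => by
    have h1 := srcsatT_rowOf n (fun l => i l.castSucc) (fun l => i' l.castSucc)
      (fun l => h l.castSucc)
    have h2 := h (Fin.last (n + 1))
    show ((rowOf n (fun l => i l.castSucc), (i (Fin.last (n + 1))).jj),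
      (i (Fin.last (n + 1))).kk) = ((rowOf n (fun l => i' l.castSucc),
      (i' (Fin.last (n + 1))).jj), (i' (Fin.last (n + 1))).kk)
    rw [h1, h2.2.1, h2.2.2]

/-- the conditions of the innermost gates, with `w g c v` for `φ (g, (c, v)) ∈ W` -/
private def srcsatT_Q (n : ℕ) (b : Bool) (ι : Rw R J K n → Fin m → Fin q)
    (x : En (Fin m ⊕ Fin d) q A → Bool) (w : Fin d → Fin q → A → Prop)
    (i : Fin (n + 1) → Dx R J K m d q A) : Prop :=
  if (i 0).knd = 0 then
    ∃ a v, x (mnE (ι (rowOf n i)) (i (Fin.last n)).cop a v) = true ∧ ∀ g, w g (a g) (v g)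
  else if (i 0).knd = 1 then
    ∃ v, x (anE m (i 0).anc v) = b ∧ ∀ g, w g ((i 0).anc g) (v g)
  else if b = true then ∃ v, w (i 0).col.1 (i 0).col.2 v
  else ¬ w (i 0).col.1 (i 0).col.2 (i (Fin.last n)).ver

/-- a set of literals that comes from vertices -/
private theorem srcsatT_litS_card {ν : ℕ} (φ : Fin d × (Fin q × A) ≃ Fin ν) (b : Bool)
    (a : Fin d → Fin q) (v : Fin d → A) : (litS φ b a v).card ≤ d := by
  unfold litS
  refine Finset.card_image_le.trans ?_
  rw [card_univ, Fintype.card_fin]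

private theorem srcsatT_rel {ν : ℕ} (φ : Fin d × (Fin q × A) ≃ Fin ν) (b : Bool)
    (a : Fin d → Fin q) (v : Fin d → A) (W : Finset (Fin ν)) (T : Tm d ν)
    (hT : T.1 = litS φ b a v) : Rel W (!b) T ↔ ∀ g, φ (g, (a g, v g)) ∈ W := by
  cases b
  · have h1 : Rel W (!false) T ↔ ¬ TmSome W T := Iff.rfl
    rw [h1]
    unfold TmSome
    constructor
    · intro h g
      by_contra hg
      apply h
      refine ⟨(φ (g, (a g, v g)), false), ?_, ?_⟩
      · rw [hT]
        exact mem_image_of_mem (fun g => (φ (g, (a g, v g)), false)) (mem_univ g)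
      · simpa using hg
    · rintro h ⟨l, hl, hl2⟩
      rw [hT] at hl
      unfold litS at hl
      rw [mem_image] at hl
      obtain ⟨g, -, rfl⟩ := hl
      have h3 := hl2.1 (h g)
      exact Bool.false_ne_true h3
  · have h1 : Rel W (!true) T ↔ TmHolds W T := Iff.rfl
    rw [h1]
    unfold TmHolds
    constructor
    · intro h g
      refine (h (φ (g, (a g, v g)), true) ?_).2 rfl
      rw [hT]
      exact mem_image_of_mem (fun g => (φ (g, (a g, v g)), true)) (mem_univ g)
    · intro h l hl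
      rw [hT] at hl
      unfold litS at hl
      rw [mem_image] at hl
      obtain ⟨g, -, rfl⟩ := hl
      exact ⟨fun _ => rfl, fun _ => h g⟩

variable {ν μ : ℕ}

private theorem srcsatT_inner (n : ℕ) (φ : Fin d × (Fin q × A) ≃ Fin ν)
    (ψ : Dx R J K m d q A ≃ Fin μ) (ι : Rw R J K n → Fin m → Fin q)
    (x : En (Fin m ⊕ Fin d) q A → Bool) (W : Finset (Fin ν)) (hd : 0 < d)
    (i : Fin (n + 1) → Fin μ) :
    (∃ T, srcT n φ ψ ι x (i, T) = true ∧ Rel W (!decide (n % 2 = 0)) T) ↔
      srcsatT_Q n (decide (n % 2 = 0)) ι x (fun g c v => φ (g, (c, v)) ∈ W)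
        (fun l => ψ.symm (i l)) := by
  by_cases h0 : (ψ.symm (i 0)).knd = 0
  · have h1 : ∀ T, srcT n φ ψ ι x (i, T) = true ↔
        ∃ a v, T.1 = litS φ (decide (n % 2 = 0)) a v ∧
          x (mnE (ι (rowOf n (fun l => ψ.symm (i l)))) (ψ.symm (i (Fin.last n))).cop a v) =
            true := by
      intro T
      unfold srcT
      simp only [h0, if_true, decide_eq_true_eq]
    unfold srcsatT_Q
    rw [if_pos h0]
    constructor
    · rintro ⟨T, hT, hR⟩
      obtain ⟨a, v, h2, h3⟩ := (h1 T).1 hT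
      exact ⟨a, v, h3, (srcsatT_rel φ _ a v W T h2).1 hR⟩
    · rintro ⟨a, v, h3, h4⟩
      refine ⟨⟨litS φ (decide (n % 2 = 0)) a v, srcsatT_litS_card φ _ a v⟩, ?_, ?_⟩
      · exact (h1 _).2 ⟨a, v, rfl, h3⟩
      · exact (srcsatT_rel φ _ a v W _ rfl).2 h4
  by_cases h1 : (ψ.symm (i 0)).knd = 1
  · have h2 : ∀ T, srcT n φ ψ ι x (i, T) = true ↔
        ∃ v, T.1 = litS φ (decide (n % 2 = 0)) (ψ.symm (i 0)).anc v ∧
          x (anE m (ψ.symm (i 0)).anc v) = decide (n % 2 = 0) := by
      intro T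
      unfold srcT
      dsimp only
      rw [if_neg h0, if_pos h1]
      simp only [decide_eq_true_eq]
    unfold srcsatT_Q
    rw [if_neg h0, if_pos h1]
    constructor
    · rintro ⟨T, hT, hR⟩
      obtain ⟨v, h3, h4⟩ := (h2 T).1 hT
      exact ⟨v, h4, (srcsatT_rel φ _ _ v W T h3).1 hR⟩
    · rintro ⟨v, h3, h4⟩
      refine ⟨⟨litS φ (decide (n % 2 = 0)) (ψ.symm (i 0)).anc v, srcsatT_litS_card φ _ _ v⟩,
        ?_, ?_⟩
      · exact (h2 _).2 ⟨v, rfl, h3⟩
      · exact (srcsatT_rel φ _ _ v W _ rfl).2 h4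
  have hc : ∀ u : Fin ν, ({(u, true)} : Finset (Fin ν × Bool)).card ≤ d := by
    intro u
    rw [card_singleton]
    exact hd
  unfold srcsatT_Q
  rw [if_neg h0, if_neg h1]
  by_cases hb : n % 2 = 0
  · have hb' : decide (n % 2 = 0) = true := decide_eq_true hb
    rw [if_pos hb']
    have h2 : ∀ T, srcT n φ ψ ι x (i, T) = true ↔
        ∃ v, T.1 = {(φ ((ψ.symm (i 0)).col.1, ((ψ.symm (i 0)).col.2, v)), true)} := by
      intro T
      unfold srcT
      simp only [h0, h1, hb', if_true, if_false, decide_eq_true_eq]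
    rw [hb']
    constructor
    · rintro ⟨T, hT, hR⟩
      obtain ⟨v, h3⟩ := (h2 T).1 hT
      refine ⟨v, ?_⟩
      have h4 : TmHolds W T := hR
      refine (h4 (φ ((ψ.symm (i 0)).col.1, ((ψ.symm (i 0)).col.2, v)), true) ?_).2 rfl
      rw [h3]
      exact mem_singleton_self _
    · rintro ⟨v, h3⟩
      refine ⟨⟨{(φ ((ψ.symm (i 0)).col.1, ((ψ.symm (i 0)).col.2, v)), true)}, hc _⟩, ?_, ?_⟩
      · exact (h2 _).2 ⟨v, rfl⟩
      · show TmHolds W _
        intro l hl
        have hl2 := mem_singleton.1 hl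
        subst hl2
        exact ⟨fun _ => rfl, fun _ => h3⟩
  · have hb' : decide (n % 2 = 0) = false := decide_eq_false hb
    have hb2 : ¬ decide (n % 2 = 0) = true := by
      rw [hb']
      exact Bool.false_ne_true
    rw [if_neg hb2]
    have h2 : ∀ T, srcT n φ ψ ι x (i, T) = true ↔
        T.1 = {(φ ((ψ.symm (i 0)).col.1, ((ψ.symm (i 0)).col.2,
          (ψ.symm (i (Fin.last n))).ver)), true)} := by
      intro T
      unfold srcT
      dsimp only
      rw [if_neg h0, if_neg h1, if_neg hb2]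
      simp only [decide_eq_true_eq]
    rw [hb']
    constructor
    · rintro ⟨T, hT, hR⟩ h3
      have h4 := (h2 T).1 hT
      have h5 : ¬ TmSome W T := hR
      apply h5
      refine ⟨(φ ((ψ.symm (i 0)).col.1, ((ψ.symm (i 0)).col.2,
          (ψ.symm (i (Fin.last n))).ver)), true), ?_, ?_⟩
      · rw [h4]
        exact mem_singleton_self _
      · exact ⟨fun _ => rfl, fun _ => h3⟩
    · intro h3
      refine ⟨⟨{(φ ((ψ.symm (i 0)).col.1, ((ψ.symm (i 0)).col.2,
          (ψ.symm (i (Fin.last n))).ver)), true)}, hc _⟩, ?_, ?_⟩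
      · exact (h2 _).2 rfl
      · show ¬ TmSome W _
        rintro ⟨l, hl, hl2⟩
        have hl3 := mem_singleton.1 hl
        subst hl3
        exact h3 (hl2.2 rfl)

/-- the condition for the anchors -/
private def srcsatT_Anc (n : ℕ) (x : En (Fin m ⊕ Fin d) q A → Bool)
    (w : Fin d → Fin q → A → Prop) (a : Fin d → Fin q) : Prop :=
  if n % 2 = 0 then ∃ v, x (anE m a v) = true ∧ ∀ g, w g (a g) (v g)
  else ¬ ∃ v, x (anE m a v) = false ∧ ∀ g, w g (a g) (v g)

/-- an index -/
private def srcsatT_mk (hR : 0 < R) (hJ : 0 < J) (hK : 0 < K) (α : A) (k : Fin 3)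
    (a : Fin d → Fin q) (gc : Fin d × Fin q) (v : A) : Dx R J K m d q A :=
  ⟨k, ⟨0, hR⟩, ⟨0, hJ⟩, ⟨0, hK⟩, fun _ => α, a, gc, v⟩

private theorem srcsatT_NSQ (h2 : S_conv) [Nonempty A] (n : ℕ)
    (ι : Rw R J K n → Fin m → Fin q) (x : En (Fin m ⊕ Fin d) q A → Bool)
    (w : Fin d → Fin q → A → Prop) (hR : 0 < R) (hJ : 0 < J) (hK : 0 < K) (hq : 0 < q)
    (hd : 0 < d) :
    NS (n + 1) (srcsatT_Q n (decide (n % 2 = 0)) ι x w) ↔
      (∀ g c, ∃ v, w g c v) ∧ (∀ a, srcsatT_Anc n x w a) ∧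
      MC n (fun (o : Rw R J K n) (c : Fin m → A) =>
        ∃ a v, x (mnE (ι o) c a v) = true ∧ ∀ g, w g (a g) (v g)) := by
  obtain ⟨c1, c2, c3⟩ := h2
  have α : A := Classical.arbitrary A
  have hne : Nonempty (Dx R J K m d q A) :=
    ⟨srcsatT_mk hR hJ hK α 0 (fun _ => ⟨0, hq⟩) (⟨0, hd⟩, ⟨0, hq⟩) α⟩
  have e0 : NS (n + 1) (srcsatT_Q n (decide (n % 2 = 0)) ι x w) ↔
      ∀ j : Dx R J K m d q A, ¬ NS n (fun i =>
        srcsatT_Q n (decide (n % 2 = 0)) ι x w (Fin.cons j i)) := by
    show (¬ ∃ j : Dx R J K m d q A, NS n (fun i =>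
        srcsatT_Q n (decide (n % 2 = 0)) ι x w (Fin.cons j i))) ↔ _
    rw [not_exists]
  -- kind 1
  have k1 : ∀ j : Dx R J K m d q A, j.knd = 1 → ((¬ NS n (fun i =>
      srcsatT_Q n (decide (n % 2 = 0)) ι x w (Fin.cons j i))) ↔ srcsatT_Anc n x w j.anc) := by
    intro j hj
    have hj0 : ¬ j.knd = 0 := by
      rw [hj]
      decide
    have e1 : (fun i : Fin n → Dx R J K m d q A =>
        srcsatT_Q n (decide (n % 2 = 0)) ι x w (Fin.cons j i)) = fun _ =>
        ∃ v, x (anE m j.anc v) = decide (n % 2 = 0) ∧ ∀ g, w g (j.anc g) (v g) := by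
      funext i
      unfold srcsatT_Q
      rw [Fin.cons_zero, if_neg hj0, if_pos hj]
    rw [e1, c1]
    unfold srcsatT_Anc
    by_cases hb : n % 2 = 0
    · rw [if_pos hb, decide_eq_true hb]
      have hb1 : ¬ n % 2 = 1 := by omega
      constructor
      · intro h
        by_contra h'
        exact h ⟨fun h'' => absurd h'' h', fun h'' => absurd h'' hb1⟩
      · intro h h'
        exact hb1 (h'.1 h)
    · rw [if_neg hb, decide_eq_false hb]
      have hb1 : n % 2 = 1 := by omega
      constructor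
      · intro h h'
        exact h ⟨fun _ => hb1, fun _ => h'⟩
      · intro h h'
        exact h (h'.2 hb1)
  -- kind 2
  have k2 : ∀ j : Dx R J K m d q A, ¬ j.knd = 0 → ¬ j.knd = 1 → ((¬ NS n (fun i =>
      srcsatT_Q n (decide (n % 2 = 0)) ι x w (Fin.cons j i))) ↔
        ∃ v, w j.col.1 j.col.2 v) := by
    intro j hj0 hj1
    by_cases hb : n % 2 = 0
    · have e1 : (fun i : Fin n → Dx R J K m d q A =>
          srcsatT_Q n (decide (n % 2 = 0)) ι x w (Fin.cons j i)) = fun _ =>
          ∃ v, w j.col.1 j.col.2 v := by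
        funext i
        unfold srcsatT_Q
        rw [Fin.cons_zero, if_neg hj0, if_neg hj1, if_pos (decide_eq_true hb)]
      rw [e1, c1]
      have hb1 : ¬ n % 2 = 1 := by omega
      constructor
      · intro h
        by_contra h'
        exact h ⟨fun h'' => absurd h'' h', fun h'' => absurd h'' hb1⟩
      · intro h h'
        exact hb1 (h'.1 h)
    · obtain ⟨r, rfl⟩ : ∃ r, n = r + 1 := ⟨n - 1, by omega⟩
      have hb2 : ¬ decide ((r + 1) % 2 = 0) = true := by
        rw [decide_eq_false hb]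
        exact Bool.false_ne_true
      have e1 : (fun i : Fin (r + 1) → Dx R J K m d q A =>
          srcsatT_Q (r + 1) (decide ((r + 1) % 2 = 0)) ι x w (Fin.cons j i)) = fun i =>
          (fun j' : Dx R J K m d q A => ¬ w j.col.1 j.col.2 j'.ver) (i (Fin.last r)) := by
        funext i
        unfold srcsatT_Q
        have e2 : (Fin.cons j i : Fin (r + 1 + 1) → Dx R J K m d q A) (Fin.last (r + 1)) =
            i (Fin.last r) := rfl
        rw [Fin.cons_zero, if_neg hj0, if_neg hj1, if_neg hb2, e2]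
      rw [e1, c2 (Dx R J K m d q A) r (fun j' => ¬ w j.col.1 j.col.2 j'.ver)]
      have hb1 : r % 2 = 0 := by omega
      constructor
      · intro h
        by_contra hno
        apply h
        exact ⟨fun _ => hb1, fun _ j' hw => hno ⟨_, hw⟩⟩
      · rintro ⟨v, hv⟩ h
        have h3 := h.2 hb1 (srcsatT_mk hR hJ hK α 0 (fun _ => ⟨0, hq⟩) (⟨0, hd⟩, ⟨0, hq⟩) v)
        exact h3 hv
  -- kind 0
  have k0 : ∀ j : Dx R J K m d q A, j.knd = 0 → ((¬ NS n (fun i =>
      srcsatT_Q n (decide (n % 2 = 0)) ι x w (Fin.cons j i))) ↔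
        ¬ NS n (fun i : Fin n → Dx R J K m d q A =>
          (fun (o : Rw R J K n) (c : Fin m → A) =>
            ∃ a v, x (mnE (ι o) c a v) = true ∧ ∀ g, w g (a g) (v g))
          (rowOf n (Fin.cons j i)) ((Fin.cons j i : Fin (n + 1) → _) (Fin.last n)).cop)) := by
    intro j hj
    have e1 : (fun i : Fin n → Dx R J K m d q A =>
        srcsatT_Q n (decide (n % 2 = 0)) ι x w (Fin.cons j i)) = fun i =>
          (fun (o : Rw R J K n) (c : Fin m → A) =>
            ∃ a v, x (mnE (ι o) c a v) = true ∧ ∀ g, w g (a g) (v g))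
          (rowOf n (Fin.cons j i)) ((Fin.cons j i : Fin (n + 1) → _) (Fin.last n)).cop := by
      funext i
      unfold srcsatT_Q
      rw [Fin.cons_zero, if_pos hj]
    rw [e1]
  -- the main part does not depend on the kind
  have kk : ∀ j j' : Dx R J K m d q A, j.row = j'.row → j.jj = j'.jj → j.kk = j'.kk →
      j.cop = j'.cop → (fun i : Fin n → Dx R J K m d q A =>
          (fun (o : Rw R J K n) (c : Fin m → A) =>
            ∃ a v, x (mnE (ι o) c a v) = true ∧ ∀ g, w g (a g) (v g))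
          (rowOf n (Fin.cons j i)) ((Fin.cons j i : Fin (n + 1) → _) (Fin.last n)).cop) =
        (fun i : Fin n → Dx R J K m d q A =>
          (fun (o : Rw R J K n) (c : Fin m → A) =>
            ∃ a v, x (mnE (ι o) c a v) = true ∧ ∀ g, w g (a g) (v g))
          (rowOf n (Fin.cons j' i)) ((Fin.cons j' i : Fin (n + 1) → _) (Fin.last n)).cop) := by
    intro j j' h1 h2 h3 h4
    funext i
    have e1 : rowOf n (Fin.cons j i) = rowOf n (Fin.cons j' i) := by
      refine srcsatT_rowOf n _ _ fun l => ?_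
      refine Fin.cases ?_ (fun l => ?_) l
      · exact ⟨h1, h2, h3⟩
      · exact ⟨rfl, rfl, rfl⟩
    have e2 : ((Fin.cons j i : Fin (n + 1) → Dx R J K m d q A) (Fin.last n)).cop =
        ((Fin.cons j' i : Fin (n + 1) → Dx R J K m d q A) (Fin.last n)).cop := by
      refine Fin.cases (motive := fun l =>
        ((Fin.cons j i : Fin (n + 1) → Dx R J K m d q A) l).cop =
          ((Fin.cons j' i : Fin (n + 1) → Dx R J K m d q A) l).cop) ?_ (fun l => ?_)
          (Fin.last n)
      · exact h4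
      · rfl
    rw [e1, e2]
  have hMC := c3 R J K m d q A n (fun (o : Rw R J K n) (c : Fin m → A) =>
    ∃ a v, x (mnE (ι o) c a v) = true ∧ ∀ g, w g (a g) (v g)) hR hJ hK hq hd
  have hMC2 : MC n (fun (o : Rw R J K n) (c : Fin m → A) =>
      ∃ a v, x (mnE (ι o) c a v) = true ∧ ∀ g, w g (a g) (v g)) ↔
      ∀ j : Dx R J K m d q A, ¬ NS n (fun i : Fin n → Dx R J K m d q A =>
          (fun (o : Rw R J K n) (c : Fin m → A) =>
            ∃ a v, x (mnE (ι o) c a v) = true ∧ ∀ g, w g (a g) (v g))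
          (rowOf n (Fin.cons j i)) ((Fin.cons j i : Fin (n + 1) → _) (Fin.last n)).cop) := by
    rw [← hMC]
    show (¬ ∃ j : Dx R J K m d q A, NS n (fun i : Fin n → Dx R J K m d q A =>
          (fun (o : Rw R J K n) (c : Fin m → A) =>
            ∃ a v, x (mnE (ι o) c a v) = true ∧ ∀ g, w g (a g) (v g))
          (rowOf n (Fin.cons j i)) ((Fin.cons j i : Fin (n + 1) → _) (Fin.last n)).cop)) ↔ _
    rw [not_exists]
  rw [e0, hMC2]
  constructor
  · intro h
    refine ⟨fun g c => ?_, fun a => ?_, fun j => ?_⟩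
    · exact (k2 (srcsatT_mk hR hJ hK α 2 (fun _ => ⟨0, hq⟩) (g, c) α)
        (by show ¬ ((2 : Fin 3) = 0); decide) (by show ¬ ((2 : Fin 3) = 1); decide)).1 (h _)
    · exact (k1 (srcsatT_mk hR hJ hK α 1 a (⟨0, hd⟩, ⟨0, hq⟩) α) rfl).1 (h _)
    · rw [kk j ⟨0, j.row, j.jj, j.kk, j.cop, j.anc, j.col, j.ver⟩ rfl rfl rfl rfl]
      exact (k0 ⟨0, j.row, j.jj, j.kk, j.cop, j.anc, j.col, j.ver⟩ rfl).1 (h _)
  · rintro ⟨h3, h4, h5⟩ j
    by_cases hj0 : j.knd = 0
    · exact (k0 j hj0).2 (h5 j)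
    by_cases hj1 : j.knd = 1
    · exact (k1 j hj1).2 (h4 _)
    · exact (k2 j hj0 hj1).2 (h3 _ _)

/-- the set of the vertices of a transversal -/
private def srcsatT_W (φ : Fin d × (Fin q × A) ≃ Fin ν) (s : Fin d → Fin q → A) :
    Finset (Fin ν) := Finset.univ.image fun gc : Fin d × Fin q => φ (gc.1, (gc.2, s gc.1 gc.2))

private theorem srcsatT_mem (φ : Fin d × (Fin q × A) ≃ Fin ν) (s : Fin d → Fin q → A)
    (g : Fin d) (c : Fin q) (v : A) : φ (g, (c, v)) ∈ srcsatT_W φ s ↔ v = s g c := by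
  unfold srcsatT_W
  simp only [mem_image, mem_univ, true_and]
  constructor
  · rintro ⟨⟨g', c'⟩, h⟩
    have := φ.injective h
    simp only [Prod.mk.injEq] at this
    obtain ⟨h1, h2, h3⟩ := this
    subst h1 h2
    exact h3.symm
  · rintro rfl
    exact ⟨(g, c), rfl⟩

private theorem srcsatT_card (φ : Fin d × (Fin q × A) ≃ Fin ν) (s : Fin d → Fin q → A) :
    (srcsatT_W φ s).card = d * q := by
  unfold srcsatT_W
  rw [Finset.card_image_of_injective]
  · simp only [card_univ, Fintype.card_prod, Fintype.card_fin]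
  · rintro ⟨g, c⟩ ⟨g', c'⟩ h
    have := φ.injective h
    simp only [Prod.mk.injEq] at this
    obtain ⟨h1, h2, -⟩ := this
    subst h1 h2
    rfl

/-- for a transversal the conditions are those of `SolT` -/
private theorem srcsatT_sol (n : ℕ) (ι : Rw R J K n → Fin m → Fin q)
    (x : En (Fin m ⊕ Fin d) q A → Bool) (s : Fin d → Fin q → A)
    (w : Fin d → Fin q → A → Prop) (hw : ∀ g c v, w g c v ↔ v = s g c) :
    ((∀ a, srcsatT_Anc n x w a) ∧ MC n (fun (o : Rw R J K n) (c : Fin m → A) =>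
        ∃ a v, x (mnE (ι o) c a v) = true ∧ ∀ g, w g (a g) (v g))) ↔ SolT ι x s := by
  unfold SolT
  have e1 : (fun (o : Rw R J K n) (c : Fin m → A) =>
      ∃ a v, x (mnE (ι o) c a v) = true ∧ ∀ g, w g (a g) (v g)) =
      fun (o : Rw R J K n) (c : Fin m → A) =>
        ∃ a : Fin d → Fin q, x (mnE (ι o) c a (fun g => s g (a g))) = true := by
    funext o c
    apply propext
    constructor
    · rintro ⟨a, v, h1, h2⟩
      have h3 : v = fun g => s g (a g) := funext fun g => (hw _ _ _).1 (h2 g)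
      rw [h3] at h1
      exact ⟨a, h1⟩
    · rintro ⟨a, h1⟩
      exact ⟨a, _, h1, fun g => (hw _ _ _).2 rfl⟩
  have e2 : ∀ a, srcsatT_Anc n x w a ↔ x (anE m a (fun g => s g (a g))) = true := by
    intro a
    unfold srcsatT_Anc
    by_cases hb : n % 2 = 0
    · rw [if_pos hb]
      constructor
      · rintro ⟨v, h1, h2⟩
        have h3 : v = fun g => s g (a g) := funext fun g => (hw _ _ _).1 (h2 g)
        rw [h3] at h1
        exact h1
      · intro h1
        exact ⟨_, h1, fun g => (hw _ _ _).2 rfl⟩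
    · rw [if_neg hb]
      constructor
      · intro h1
        by_contra h2
        apply h1
        exact ⟨fun g => s g (a g), by simpa using h2, fun g => (hw _ _ _).2 rfl⟩
      · rintro h1 ⟨v, h2, h3⟩
        have h4 : v = fun g => s g (a g) := funext fun g => (hw _ _ _).1 (h3 g)
        rw [h4, h1] at h2
        exact Bool.false_ne_true h2.symm
  rw [e1]
  constructor
  · rintro ⟨h1, h2⟩
    exact ⟨fun a => (e2 a).1 (h1 a), h2⟩
  · rintro ⟨h1, h2⟩
    exact ⟨fun a => (e2 a).2 (h1 a), h2⟩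

end

theorem p_srcsatT (h1 : S_sem) (h2 : S_conv) : S_srcsatT := by
  intro R J K m d q ν μ A _ _ _ n φ ψ ι x hR hJ hK hq hd
  have α : A := Classical.arbitrary A
  -- the truth value
  have hsem : ∀ W : Finset (Fin ν), Sem W (n + 1) true (srcT n φ ψ ι x) ↔
      (∀ g c, ∃ v, φ (g, (c, v)) ∈ W) ∧
      (∀ a, srcsatT_Anc n x (fun g c v => φ (g, (c, v)) ∈ W) a) ∧
      MC n (fun (o : Rw R J K n) (c : Fin m → A) =>
        ∃ a v, x (mnE (ι o) c a v) = true ∧ ∀ g, φ (g, (a g, v g)) ∈ W) := by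
    intro W
    rw [h1 W (n + 1) true (srcT n φ ψ ι x)]
    have hx : xor true (decide ((n + 1) % 2 = 1)) = !decide (n % 2 = 0) := by
      rw [Bool.true_xor]
      congr 1
      by_cases hb : n % 2 = 0
      · rw [decide_eq_true hb, decide_eq_true (show (n + 1) % 2 = 1 by omega)]
      · rw [decide_eq_false hb, decide_eq_false (show ¬ (n + 1) % 2 = 1 by omega)]
    rw [hx]
    have e1 : (fun i : Fin (n + 1) → Fin μ => ∃ T, srcT n φ ψ ι x (i, T) = true ∧
        Rel W (!decide (n % 2 = 0)) T) = fun i : Fin (n + 1) → Fin μ =>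
        srcsatT_Q n (decide (n % 2 = 0)) ι x (fun g c v => φ (g, (c, v)) ∈ W)
          (fun l => ψ.symm (i l)) := by
      funext i
      exact propext (srcsatT_inner n φ ψ ι x W hd i)
    rw [e1, srcsatT_NS_equiv ψ (n + 1) (srcsatT_Q n (decide (n % 2 = 0)) ι x
      (fun g c v => φ (g, (c, v)) ∈ W)), srcsatT_NSQ h2 n ι x _ hR hJ hK hq hd]
    exact ⟨fun h => h.2 rfl, fun h => ⟨fun _ => rfl, fun _ => h⟩⟩
  constructor
  · rintro ⟨W, -, hcard, hW⟩
    obtain ⟨hv, hrest⟩ := (hsem W).1 hW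
    choose s hs using hv
    have hsub : srcsatT_W φ s ⊆ W := by
      intro u hu
      unfold srcsatT_W at hu
      simp only [mem_image, mem_univ, true_and] at hu
      obtain ⟨⟨g, c⟩, rfl⟩ := hu
      exact hs g c
    have hWe : srcsatT_W φ s = W :=
      Finset.eq_of_subset_of_card_le hsub (by rw [hcard, srcsatT_card])
    refine ⟨s, (srcsatT_sol n ι x s (fun g c v => φ (g, (c, v)) ∈ W) ?_).1 hrest⟩
    intro g c v
    show φ (g, (c, v)) ∈ W ↔ _
    rw [← hWe, srcsatT_mem]
  · rintro ⟨s, hs⟩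
    refine ⟨srcsatT_W φ s, ?_, srcsatT_card φ s, (hsem _).2 ⟨?_, ?_⟩⟩
    · intro u hu
      unfold srcsatT_W at hu
      simp only [mem_image, mem_univ, true_and] at hu
      obtain ⟨⟨g, c⟩, rfl⟩ := hu
      have hc : ({(φ (g, (c, s g c)), true)} : Finset (Fin ν × Bool)).card ≤ d := by
        rw [card_singleton]
        exact hd
      refine ⟨fun _ => ψ (srcsatT_mk hR hJ hK α 2 (fun _ => ⟨0, hq⟩) (g, c) (s g c)),
        ⟨{(φ (g, (c, s g c)), true)}, hc⟩, ?_, true, mem_singleton_self _⟩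
      have k0 : ¬ (srcsatT_mk hR hJ hK α 2 (fun _ : Fin d => (⟨0, hq⟩ : Fin q)) (g, c) (s g c) :
          Dx R J K m d q A).knd = 0 := by
        show ¬ ((2 : Fin 3) = 0)
        decide
      have k1 : ¬ (srcsatT_mk hR hJ hK α 2 (fun _ : Fin d => (⟨0, hq⟩ : Fin q)) (g, c) (s g c) :
          Dx R J K m d q A).knd = 1 := by
        show ¬ ((2 : Fin 3) = 1)
        decide
      unfold srcT
      dsimp only
      rw [Equiv.symm_apply_apply, if_neg k0, if_neg k1]
      by_cases hb : n % 2 = 0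
      · rw [if_pos (decide_eq_true hb)]
        simp only [decide_eq_true_eq]
        exact ⟨s g c, rfl⟩
      · have hb2 : ¬ decide (n % 2 = 0) = true := by
          rw [decide_eq_false hb]
          exact Bool.false_ne_true
        rw [if_neg hb2]
        simp only [decide_eq_true_eq]
        rfl
    · intro g c
      exact ⟨s g c, (srcsatT_mem φ s g c _).2 rfl⟩
    · exact (srcsatT_sol n ι x s (fun g c v => φ (g, (c, v)) ∈ srcsatT_W φ s)
        (fun g c v => srcsatT_mem φ s g c v)).2 hs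

end Pool.Agent.Lib.MP_b4f117_lc.AT
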