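import Pool.Agent.Lib.MP_b4f117_lc.AT.Stm

/-!
# AC⁰ reductions between the problems `p-WSAT(Γ_{t,d})`: all stages, partial entries
-/

set_option autoImplicit false

open Finset

namespace Pool.Agent.Lib.MP_b4f117_lc.AT

open Pool.Agent.Lib.MP_b4f117_lc.AC

private theorem stagesE_card {α : Type} [Fintype α] (P : α → Prop) [DecidablePred P] :
    Nat.card {x // P x} = ∑ x, (if P x then 1 else 0) := by
  rw [Nat.card_eq_fintype_card, Fintype.card_subtype, Finset.card_filter]

private theorem stagesE_step {Bt Bj Z' Z : Type} [Fintype Bt] [Fintype Bj] [Fintype Z']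
    [Fintype Z] [Nonempty Z] (Bad : Bt → Bj → Z' → Prop) (Bad1 : Bt → Z' → Prop)
    (D : Bt → Bj → Z' → Z → Prop) (e : Bt → (Z' × Z ≃ Z' × Z)) (K N j : ℕ)
    (hbad : ∀ b1 b2 z, Bad b1 b2 z →
      Bad1 b1 z ∨ ∀ z', D b1 b2 (e b1 (z, z')).1 (e b1 (z, z')).2)
    (h1 : Nat.card {p : Bt × Z' // Bad1 p.1 p.2} * K ≤ N * Nat.card (Bt × Z'))
    (h2 : ∀ b1 z, Nat.card {p : Bj × Z // D b1 p.1 z p.2} * K ≤ j * N * Nat.card (Bj × Z)) :
    Nat.card {p : (Bt × Bj) × Z' // Bad p.1.1 p.1.2 p.2} * K ≤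
      (j + 1) * N * Nat.card ((Bt × Bj) × Z') := by
  classical
  simp only [stagesE_card, Fintype.sum_prod_type] at h1 h2 ⊢
  simp only [Nat.card_eq_fintype_card, Fintype.card_prod] at h1 h2 ⊢
  set S1 : ℕ := ∑ b1 : Bt, ∑ z : Z', (if Bad1 b1 z then 1 else 0) with hS1
  set S2 : ℕ := ∑ b1 : Bt, ∑ b2 : Bj, ∑ z : Z',
    (if (∀ z', D b1 b2 (e b1 (z, z')).1 (e b1 (z, z')).2) then 1 else 0) with hS2
  have a1 : ∑ b1 : Bt, ∑ b2 : Bj, ∑ z : Z', (if Bad b1 b2 z then 1 else 0) ≤
      Fintype.card Bj * S1 + S2 := by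
    have e1 : Fintype.card Bj * S1 =
        ∑ b1 : Bt, ∑ _b2 : Bj, ∑ z : Z', (if Bad1 b1 z then 1 else 0) := by
      rw [hS1, Finset.mul_sum]
      refine Finset.sum_congr rfl fun b1 _ => ?_
      rw [Finset.sum_const, Finset.card_univ, smul_eq_mul]
    rw [e1, hS2]
    simp only [← Finset.sum_add_distrib]
    refine Finset.sum_le_sum fun b1 _ => Finset.sum_le_sum fun b2 _ =>
      Finset.sum_le_sum fun z _ => ?_
    by_cases h : Bad b1 b2 z
    · rcases hbad b1 b2 z h with h' | h'
      · rw [if_pos h, if_pos h']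
        omega
      · rw [if_pos h, if_pos h']
        omega
    · rw [if_neg h]
      omega
  have a2 : S2 * Fintype.card Z ≤
      ∑ b1 : Bt, ∑ z : Z', ∑ b2 : Bj, ∑ z' : Z, (if D b1 b2 z z' then 1 else 0) := by
    have e1 : S2 * Fintype.card Z = ∑ b1 : Bt, ∑ b2 : Bj, ∑ z : Z', ∑ _z' : Z,
        (if (∀ z', D b1 b2 (e b1 (z, z')).1 (e b1 (z, z')).2) then 1 else 0) := by
      rw [hS2, Finset.sum_mul]
      refine Finset.sum_congr rfl fun b1 _ => ?_
      rw [Finset.sum_mul]
      refine Finset.sum_congr rfl fun b2 _ => ?_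
      rw [Finset.sum_mul]
      refine Finset.sum_congr rfl fun z _ => ?_
      rw [Finset.sum_const, Finset.card_univ, smul_eq_mul, mul_comm]
    rw [e1]
    refine Finset.sum_le_sum fun b1 _ => ?_
    rw [Finset.sum_comm (s := (Finset.univ : Finset Z'))]
    refine Finset.sum_le_sum fun b2 _ => ?_
    rw [← Fintype.sum_prod_type' (fun (z : Z') (z' : Z) => if D b1 b2 z z' then 1 else 0),
      ← Fintype.sum_prod_type' (fun (z : Z') (_ : Z) =>
        if (∀ z', D b1 b2 (e b1 (z, z')).1 (e b1 (z, z')).2) then 1 else 0),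
      ← Equiv.sum_comp (e b1) (fun p : Z' × Z => if D b1 b2 p.1 p.2 then 1 else 0)]
    refine Finset.sum_le_sum fun p _ => ?_
    by_cases h : ∀ z', D b1 b2 (e b1 (p.1, z')).1 (e b1 (p.1, z')).2
    · rw [if_pos h, if_pos (h p.2)]
    · rw [if_neg h]
      exact Nat.zero_le _
  have a3 : S2 * Fintype.card Z * K ≤
      Fintype.card Bt * (Fintype.card Z' * (j * N * (Fintype.card Bj * Fintype.card Z))) := by
    refine (Nat.mul_le_mul_right K a2).trans ?_
    rw [Finset.sum_mul]
    have e1 : ∀ b1 ∈ (Finset.univ : Finset Bt),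
        (∑ z : Z', ∑ b2 : Bj, ∑ z' : Z, (if D b1 b2 z z' then 1 else 0)) * K ≤
        Fintype.card Z' * (j * N * (Fintype.card Bj * Fintype.card Z)) := by
      intro b1 _
      rw [Finset.sum_mul]
      refine (Finset.sum_le_card_nsmul _ _ _ fun z _ => h2 b1 z).trans ?_
      rw [Finset.card_univ, smul_eq_mul]
    refine (Finset.sum_le_card_nsmul _ _ _ e1).trans ?_
    rw [Finset.card_univ, smul_eq_mul]
  have hZ : 0 < Fintype.card Z := Fintype.card_pos
  have a4 : S2 * K ≤ Fintype.card Bt * (Fintype.card Z' * (j * N * Fintype.card Bj)) := by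
    refine le_of_mul_le_mul_right (a := Fintype.card Z) ?_ hZ
    calc S2 * K * Fintype.card Z = S2 * Fintype.card Z * K := by ring
      _ ≤ _ := a3
      _ = _ := by ring
  calc (∑ b1 : Bt, ∑ b2 : Bj, ∑ z : Z', (if Bad b1 b2 z then 1 else 0)) * K
      ≤ (Fintype.card Bj * S1 + S2) * K := Nat.mul_le_mul_right K a1
    _ = Fintype.card Bj * (S1 * K) + S2 * K := by ring
    _ ≤ Fintype.card Bj * (N * (Fintype.card Bt * Fintype.card Z')) +
        Fintype.card Bt * (Fintype.card Z' * (j * N * Fintype.card Bj)) :=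
        add_le_add (Nat.mul_le_mul_left _ h1) a4
    _ = _ := by ring

section

variable {G : Type} {q B Q : ℕ} {A : Type}

private theorem stagesE_prj_kap (β : Vx G q A → Fin B) (e : En G q A) : prjE (kapE β e) = e := by
  funext g
  unfold prjE kapE
  cases e g <;> rfl

open Classical in
/-- replace the values at the continued entries -/
private noncomputable def stagesE_rep (β : Vx G q A → Fin B)
    (p : (En G q (A × Fin B) → Fin Q) × (En G q A → Fin Q)) :
    (En G q (A × Fin B) → Fin Q) × (En G q A → Fin Q) :=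
  (fun e => if e = kapE β (prjE e) then p.2 (prjE e) else p.1 e, fun e => p.1 (kapE β e))

private theorem stagesE_inv (β : Vx G q A → Fin B) :
    Function.Involutive (stagesE_rep (Q := Q) β) := by
  intro p
  obtain ⟨z, z'⟩ := p
  unfold stagesE_rep
  refine Prod.ext ?_ ?_
  · funext e
    dsimp only
    by_cases h : e = kapE β (prjE e)
    · rw [if_pos h, ← h]
    · rw [if_neg h, if_neg h]
  · funext e
    dsimp only
    rw [stagesE_prj_kap, if_pos rfl]

private theorem stagesE_fill [NeZero Q] (β : Vx G q A → Fin B)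
    (p : (En G q (A × Fin B) → Fin Q) × (En G q A → Fin Q)) (y : En G q A → Bool) :
    FillE β (stagesE_rep β p).1 y = FillE β p.1 y := by
  funext e
  unfold FillE stagesE_rep
  dsimp only
  by_cases h : e = kapE β (prjE e)
  · rw [if_pos h, if_pos h]
  · simp only [if_neg h]

end

theorem p_stagesE (hone : S_oneE) : S_stagesE := by
  intro G _ _ q B Q _ w j
  induction j with
  | zero =>
    intro d ι _ δ ev hQ hS hL
    have h0 : Nat.card {p : Be G q B 0 × (En G q (Lv B 0) → Fin Q) //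
      ¬ LayE w (d + 0) δ (fun i y => ev i (EmbE 0 p.1 p.2 y))} = 0 := by
      rw [Nat.card_eq_zero]
      left
      exact ⟨fun p => p.2 hL⟩
    rw [h0]
    simp
  | succ j ih =>
    intro d ι _ δ ev hQ hS hL
    change Nat.card {p : ((Vx G q (Lv B j) → Fin B) × Be G q B j) ×
        (En G q (Lv B j × Fin B) → Fin Q) //
        ¬ LayE w (d + (j + 1)) δ (fun i y => ev i (FillE (A := Lv B j) p.1.1 p.2
          (EmbE j p.1.2 (fun e => p.2 (kapE p.1.1 e)) y)))} * B ^ (w + 1) ≤
      (j + 1) * (2 * Fintype.card ι * CstE (Fintype.card G) w Q) *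
        Nat.card (((Vx G q (Lv B j) → Fin B) × Be G q B j) × (En G q (Lv B j × Fin B) → Fin Q))
    refine stagesE_step
      (fun b1 b2 z => ¬ LayE w (d + (j + 1)) δ (fun i y => ev i (FillE (A := Lv B j) b1 z
          (EmbE j b2 (fun e => z (kapE b1 e)) y))))
      (fun b1 z => ¬ LayE w (d + 1) δ (fun i y => ev i (FillE (A := Lv B j) b1 z y)))
      (fun b1 b2 z z' => LayE w (d + 1) δ (fun i y => ev i (FillE (A := Lv B j) b1 z y)) ∧
        ¬ LayE w (d + 1 + j) δ (fun i y => ev i (FillE (A := Lv B j) b1 z (EmbE j b2 z' y))))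
      (fun b1 => (stagesE_inv b1).toPerm _) (B ^ (w + 1))
      (2 * Fintype.card ι * CstE (Fintype.card G) w Q) j ?_ ?_ ?_
    · intro b1 b2 z hbad
      by_cases h : LayE w (d + 1) δ (fun i y => ev i (FillE (A := Lv B j) b1 z y))
      · right
        intro z'
        have e1 : ∀ y, FillE b1 (((stagesE_inv b1).toPerm _) (z, z')).1 y = FillE b1 z y :=
          fun y => stagesE_fill b1 (z, z') y
        simp only [e1]
        refine ⟨h, ?_⟩
        have e2 : d + (j + 1) = d + 1 + j := by omega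
        rw [e2] at hbad
        exact hbad
      · exact Or.inl h
    · exact hone w d ι δ ev hQ hS hL
    · intro b1 z
      by_cases h : LayE w (d + 1) δ (fun i y => ev i (FillE (A := Lv B j) b1 z y))
      · simp only [h, true_and]
        refine ih (d + 1) ι δ (fun i y => ev i (FillE (A := Lv B j) b1 z y)) hQ ?_ h
        intro i d' hd
        rcases hS i d' hd with ⟨S, hS1, hS2⟩ | ⟨S, hS1, hS2⟩
        · exact Or.inl ⟨S, hS1, fun x => hS2 _⟩
        · exact Or.inr ⟨S, hS1, fun x => hS2 _⟩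
      · have h0 : Nat.card {p : Be G q B j × (En G q (Lv B j) → Fin Q) //
            LayE w (d + 1) δ (fun i y => ev i (FillE (A := Lv B j) b1 z y)) ∧
            ¬ LayE w (d + 1 + j) δ (fun i y => ev i (FillE (A := Lv B j) b1 z
              (EmbE j p.1 p.2 y)))} = 0 := by
          rw [Nat.card_eq_zero]
          left
          exact ⟨fun p => h p.2.1⟩
        rw [h0]
        simp

end Pool.Agent.Lib.MP_b4f117_lc.AT
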