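import Pool.Agent.Lib.MP_b4f117_lc.AT.Stm

/-!
# piece [EWT top]: the depth hierarchy
-/

set_option autoImplicit false

namespace Pool.Agent.Lib.MP_b4f117_lc.AT

open Pool.Agent.Lib.MP_b4f117_lc.AC

/-- counting with an exceptional set -/
theorem top_count {P D : Type} [Fintype P] [Fintype D] (Q : P × D → Prop) (bad : P → Prop)
    (c : ℝ) (hc : 0 ≤ c)
    (h : ∀ p, ¬ bad p → (Nat.card {δ : D // Q (p, δ)} : ℝ) ≤ c * (Nat.card D : ℝ)) :
    (Nat.card {δ : P × D // Q δ} : ℝ) ≤
      (Nat.card {p : P // bad p} : ℝ) * (Nat.card D : ℝ) +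
        c * ((Nat.card P : ℝ) * (Nat.card D : ℝ)) := by
  classical
  have e1 : Nat.card {δ : P × D // Q δ} = ∑ p : P, Nat.card {δ : D // Q (p, δ)} := by
    rw [← Nat.card_sigma]
    exact Nat.card_congr (Equiv.subtypeProdEquivSigmaSubtype (fun p δ => Q (p, δ)))
  have e2 : (Nat.card {p : P // bad p} : ℝ) = ∑ p : P, (if bad p then (1 : ℝ) else 0) := by
    rw [Nat.card_eq_fintype_card, Fintype.card_subtype, Finset.sum_boole]
  have e3 : (Nat.card P : ℝ) = ∑ _p : P, (1 : ℝ) := by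
    rw [Nat.card_eq_fintype_card, Finset.sum_const, Finset.card_univ]
    simp
  rw [e1, e2, e3, Nat.cast_sum, Finset.sum_mul, Finset.sum_mul, Finset.mul_sum,
    ← Finset.sum_add_distrib]
  refine Finset.sum_le_sum (fun p _ => ?_)
  have hD : (0 : ℝ) ≤ (Nat.card D : ℝ) := Nat.cast_nonneg _
  by_cases hb : bad p
  · have h1 : (Nat.card {δ : D // Q (p, δ)} : ℝ) ≤ (Nat.card D : ℝ) := by
      have := Finite.card_subtype_le (fun δ : D => Q (p, δ))
      exact_mod_cast this
    rw [if_pos hb, one_mul]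
    nlinarith [mul_nonneg hc hD]
  · rw [if_neg hb, zero_mul, zero_add, one_mul]
    exact h p hb

/-- the case of depth `0` -/
theorem top_zero (h3 : AC.S_tree) (R J K N s' s : ℕ) (E : Type) [Fintype E] [DecidableEq E]
    (hs : 1 ≤ s) (hE : 2 * s ≤ Fintype.card E) :
    ∃ (D : Type) (_ : Fintype D) (_ : Nonempty D) (hd : D → Rw R J K 0 × E → Bool),
    (∀ δ, fS 0 (hd δ)) ∧
    ∀ F : (Rw R J K 0 × E → Bool) → Prop, NT s N (0 + 1) F → (∀ x, F x → fS 0 x) →
      (Nat.card {δ : D // F (hd δ)} : ℝ) ≤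
        (((0 : ℕ) : ℝ) * (N : ℝ) ^ 0 / 2 ^ s' + (1 / 2) ^ R) * (Nat.card D : ℝ) := by
  have hne : Nonempty E := Fintype.card_pos_iff.mp (by omega)
  refine ⟨Fin R → E, inferInstance, inferInstance, fun δ p => decide (δ p.1 = p.2), ?_, ?_⟩
  · intro δ o h
    have := h (δ o)
    simp at this
  · intro F hF hS
    obtain ⟨f, hf, hFf⟩ := hF
    have ht := h3 (Fin R) E (fun _ _ => True) F s
      (fun y hy => by
        have : ∃ i, f i y := by
          by_contra hcon
          push Not at hcon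
          exact hy ((hFf y).mpr hcon)
        obtain ⟨i, hi⟩ := this
        obtain ⟨T, hT, hT'⟩ := hf i y hi
        exact ⟨T, hT, fun y' hy' hF' => (hFf y').mp hF' i (hT' y' hy')⟩)
      (fun y hy hFy => by
        obtain ⟨o, ho⟩ := hy
        exact hS y hFy o (fun e => ho e trivial))
    have hcard : Nat.card {δ : Fin R → E // F (fun p : Rw R J K 0 × E => decide (δ p.1 = p.2))} ≤
        s ^ R := by
      rw [Fintype.card_fin] at ht
      refine le_trans (le_of_eq ?_) ht
      refine Nat.card_congr (Equiv.subtypeEquivRight (fun δ => ?_))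
      exact ⟨fun h => ⟨fun _ => trivial, h⟩, fun h => h.2⟩
    have hD : (Nat.card (Fin R → E) : ℝ) = (Fintype.card E : ℝ) ^ R := by
      rw [Nat.card_eq_fintype_card, Fintype.card_fun, Fintype.card_fin]
      push_cast
      rfl
    rw [hD]
    have h2 : ((2 : ℝ) * s) ≤ (Fintype.card E : ℝ) := by exact_mod_cast hE
    have h4 : (s : ℝ) ^ R ≤ (1 / 2) ^ R * (Fintype.card E : ℝ) ^ R := by
      rw [← mul_pow]
      exact pow_le_pow_left₀ (Nat.cast_nonneg s) (by linarith) R
    have h5 : (Nat.card {δ : Fin R → E //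
        F (fun p : Rw R J K 0 × E => decide (δ p.1 = p.2))} : ℝ) ≤ (s : ℝ) ^ R := by
      exact_mod_cast hcard
    refine h5.trans (h4.trans (le_of_eq ?_))
    simp

theorem p_top (h1 : S_nt) (h2 : S_hot) (h3 : AC.S_tree) : S_top := by
  intro R J K N s' n
  induction n with
  | zero =>
    intro s E _ _ _ hs _ hE _ _ _
    exact top_zero h3 R J K N s' s E hs hE
  | succ n ih =>
    intro s E _ _ hN hs hs' hE hK hJ hK'
    obtain ⟨D', i1, i2, hd', hfS, hIH⟩ := ih s' (Fin J) hN hs' hs' (by simpa using hJ)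
      (by simpa using hK') hJ hK'
    have hneE : Nonempty E := Fintype.card_pos_iff.mp (by omega)
    have hneK : Nonempty (Fin K) := by
      refine ⟨⟨0, ?_⟩⟩
      have : 0 < 8 * s * Fintype.card E := by
        have : 0 < Fintype.card E := Fintype.card_pos
        positivity
      omega
    refine ⟨((Rw R J K n × Fin J → Fin K) × ((Rw R J K n × Fin J) × Fin K → E)) × D',
      inferInstance, inferInstance, fun δ => Hot δ.1.1 δ.1.2 (hd' δ.2), ?_, ?_⟩
    · intro δ
      exact (h2 δ.1.1 δ.1.2 (hd' δ.2)).mpr (hfS δ.2)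
    · intro F hF hFS
      have hnt := h1 (O := Rw R J K n × Fin J) (K := Fin K) (E := E) s s' N (n + 1) F hs
        (by omega) (by simpa using hK) hF
      set P := (Rw R J K n × Fin J → Fin K) × ((Rw R J K n × Fin J) × Fin K → E) with hP
      have hc0 : (0 : ℝ) ≤ (n : ℝ) * (N : ℝ) ^ n / 2 ^ s' + (1 / 2) ^ R := by positivity
      have hcount := top_count (P := P) (D := D')
        (fun δ => F (Hot δ.1.1 δ.1.2 (hd' δ.2)))
        (fun p => ¬ NT s' N (n + 1) (fun y => F (Hot p.1 p.2 y))) _ hc0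
        (fun p hp => by
          have hp' : NT s' N (n + 1) (fun y => F (Hot p.1 p.2 y)) := not_not.mp hp
          exact hIH (fun y => F (Hot p.1 p.2 y)) hp'
            (fun y hy => (h2 p.1 p.2 y).mp (hFS _ hy)))
      refine hcount.trans ?_
      have hnt' : (Nat.card {p : P // ¬ NT s' N (n + 1) (fun y => F (Hot p.1 p.2 y))} : ℝ) ≤
          (N : ℝ) ^ (n + 1) / 2 ^ s' * (Nat.card P : ℝ) := by
        have h2s : (0 : ℝ) < 2 ^ s' := by positivity
        rw [div_mul_eq_mul_div, le_div_iff₀ h2s]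
        exact_mod_cast hnt
      have hcP : (Nat.card (P × D') : ℝ) = (Nat.card P : ℝ) * (Nat.card D' : ℝ) := by
        rw [Nat.card_prod]
        push_cast
        rfl
      rw [hcP]
      have hPn : (0 : ℝ) ≤ (Nat.card P : ℝ) := Nat.cast_nonneg _
      have hDn : (0 : ℝ) ≤ (Nat.card D' : ℝ) := Nat.cast_nonneg _
      have hNn : (N : ℝ) ^ n ≤ (N : ℝ) ^ (n + 1) :=
        pow_le_pow_right₀ (by exact_mod_cast hN) (Nat.le_succ n)
      have h2s : (0 : ℝ) < 2 ^ s' := by positivity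
      have hle : (n : ℝ) * (N : ℝ) ^ n / 2 ^ s' ≤ (n : ℝ) * (N : ℝ) ^ (n + 1) / 2 ^ s' := by
        gcongr
      have hPD : (0 : ℝ) ≤ (Nat.card P : ℝ) * (Nat.card D' : ℝ) := mul_nonneg hPn hDn
      calc (Nat.card {p : P // ¬ NT s' N (n + 1) (fun y => F (Hot p.1 p.2 y))} : ℝ) *
            (Nat.card D' : ℝ) + ((n : ℝ) * (N : ℝ) ^ n / 2 ^ s' + (1 / 2) ^ R) *
              ((Nat.card P : ℝ) * (Nat.card D' : ℝ))
          ≤ ((N : ℝ) ^ (n + 1) / 2 ^ s' * (Nat.card P : ℝ)) * (Nat.card D' : ℝ) +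
            ((n : ℝ) * (N : ℝ) ^ (n + 1) / 2 ^ s' + (1 / 2) ^ R) *
              ((Nat.card P : ℝ) * (Nat.card D' : ℝ)) := by
            gcongr
        _ = (((n + 1 : ℕ) : ℝ) * (N : ℝ) ^ (n + 1) / 2 ^ s' + (1 / 2) ^ R) *
            ((Nat.card P : ℝ) * (Nat.card D' : ℝ)) := by
            push_cast
            ring

end Pool.Agent.Lib.MP_b4f117_lc.AT
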