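import Pool.Agent.Lib.MP_b4f117_lc.AT.Stm

/-!
# Piece outNT: the output conditions are nested NORs (helper29)
-/

set_option autoImplicit false

open Finset

namespace Pool.Agent.Lib.MP_b4f117_lc.AT

open Pool.Agent.Lib.MP_b4f117_lc.AC

section

variable {X : Type}

private theorem outNT_C1_mono {s t : ℕ} (h : s ≤ t) {f : (X → Bool) → Prop} (hf : C1 s f) :
    C1 t f := by
  intro x hx
  obtain ⟨S, hS, hS2⟩ := hf x hx
  exact ⟨S, hS.trans h, hS2⟩

private theorem outNT_C1_congr {s : ℕ} {f g : (X → Bool) → Prop} (h : ∀ x, f x ↔ g x)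
    (hf : C1 s f) : C1 s g := by
  intro x hx
  obtain ⟨S, hS, hS2⟩ := hf x ((h x).2 hx)
  exact ⟨S, hS, fun x' hx' => (h x').1 (hS2 x' hx')⟩

private theorem outNT_NT_congr {s N : ℕ} : ∀ (r : ℕ) {f g : (X → Bool) → Prop},
    (∀ x, f x ↔ g x) → NT s N r f → NT s N r g
  | 0, _, _, h, hf => outNT_C1_congr h hf
  | _ + 1, _, _, h, hf => by
    obtain ⟨k, hk, hk2⟩ := hf
    exact ⟨k, hk, fun x => (h x).symm.trans (hk2 x)⟩

private theorem outNT_const {s N : ℕ} (hN : 1 ≤ N) : ∀ r : ℕ,
    NT s N r (fun _ : X → Bool => False) ∧ NT s N r (fun _ : X → Bool => True)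
  | 0 => ⟨fun _ h => h.elim, fun _ _ => ⟨∅, by simp, fun _ _ => trivial⟩⟩
  | r + 1 => by
    obtain ⟨h1, h2⟩ := outNT_const hN r
    refine ⟨⟨fun _ _ => True, fun _ => h2, fun x => ?_⟩, ⟨fun _ _ => False, fun _ => h1,
      fun x => ?_⟩⟩
    · exact ⟨fun h => h.elim, fun h => h ⟨0, by omega⟩ trivial⟩
    · exact ⟨fun _ _ h => h, fun _ => trivial⟩

/-- a NOR of at most `N` functions -/
private theorem outNT_nor {s N r : ℕ} (hN : 1 ≤ N) {ι : Type} [Fintype ι]
    (hι : Fintype.card ι ≤ N) (g : ι → (X → Bool) → Prop) (hg : ∀ a, NT s N r (g a))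
    (F : (X → Bool) → Prop) (hF : ∀ x, F x ↔ ∀ a, ¬ g a x) : NT s N (r + 1) F := by
  classical
  have e : ι ≃ Fin (Fintype.card ι) := Fintype.equivFin ι
  refine ⟨fun i => if h : (i : ℕ) < Fintype.card ι then g (e.symm ⟨i, h⟩) else fun _ => False,
    fun i => ?_, fun x => ?_⟩
  · by_cases h : (i : ℕ) < Fintype.card ι
    · simp only [h, dif_pos]
      exact hg _
    · simp only [h, dif_neg, not_false_eq_true]
      exact (outNT_const hN r).1
  · rw [hF]
    constructor
    · intro h i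
      by_cases hi : (i : ℕ) < Fintype.card ι
      · simp only [hi, dif_pos]
        exact h _
      · simp only [hi, dif_neg, not_false_eq_true]
    · intro h a
      have h1 := h ⟨(e a : ℕ), lt_of_lt_of_le (e a).2 hι⟩
      have h2 : ((e a : Fin (Fintype.card ι)) : ℕ) < Fintype.card ι := (e a).2
      simp only [h2, dif_pos] at h1
      have h3 : e.symm ⟨(e a : ℕ), h2⟩ = a := e.symm_apply_apply a
      rw [h3] at h1
      exact h1

/-- functions with certificates for both values -/
private theorem outNT_both {s N : ℕ} (hN : 1 ≤ N) : ∀ (r : ℕ) (g : (X → Bool) → Prop),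
    C1 s g → C1 s (fun x => ¬ g x) → NT s N r g
  | 0, _, h1, _ => h1
  | r + 1, g, h1, h2 => by
    have h3 : C1 s (fun x => ¬ ¬ g x) := outNT_C1_congr (fun x => not_not.symm) h1
    have h4 := outNT_both hN r (fun x => ¬ g x) h2 h3
    refine ⟨fun _ x => ¬ g x, fun _ => h4, fun x => ?_⟩
    constructor
    · intro h _ h'
      exact h' h
    · intro h
      exact not_not.1 (h ⟨0, by omega⟩)

/-- nested NORs -/
private theorem outNT_NS {s N L : ℕ} (hN : 1 ≤ N) (hL : L ≤ N) : ∀ (r : ℕ)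
    (P : (Fin r → Fin L) → (X → Bool) → Prop), (∀ i, C1 s (fun x => ¬ P i x)) →
    NT s N r (fun x => NS r (fun i => P i x))
  | 0, _, h => h _
  | r + 1, P, h => by
    refine outNT_nor hN (ι := Fin L) (by rw [Fintype.card_fin]; exact hL)
      (fun j x => NS r (fun i => P (Fin.cons j i) x)) (fun j => ?_) _ (fun x => ?_)
    · exact outNT_NS hN hL r (fun i x => P (Fin.cons j i) x) (fun i => h _)
    · show (¬ ∃ j : Fin L, NS r (fun i => P (Fin.cons j i) x)) ↔ _
      rw [not_exists]

/-- conjunctions of functions with certificates -/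
private theorem outNT_conj {I : Type} {s : ℕ} (Φ : (X → Bool) → I → Bool) :
    ∀ S : List (Circ I), (∀ c ∈ S, C1 s (fun x : X → Bool => ¬ c.eval (Φ x) = true)) →
    C1 (S.length * s) (fun x : X → Bool => ¬ ∃ c ∈ S, c.eval (Φ x) = true)
  | [], _ => fun x _ => ⟨∅, by simp, fun x' _ => by simp⟩
  | c :: S, h => by
    classical
    intro x hx
    have h1 := outNT_conj Φ S (fun c' hc' => h c' (List.mem_cons_of_mem _ hc')) x (by
      rintro ⟨c', hc', h2⟩
      exact hx ⟨c', List.mem_cons_of_mem _ hc', h2⟩)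
    have h2 := h c (List.mem_cons_self) x (fun h3 => hx ⟨c, List.mem_cons_self, h3⟩)
    obtain ⟨T, hT, hT2⟩ := h1
    obtain ⟨T', hT', hT2'⟩ := h2
    refine ⟨T ∪ T', ?_, ?_⟩
    · refine (Finset.card_union_le T T').trans ?_
      rw [List.length_cons, Nat.add_mul, Nat.one_mul]
      exact Nat.add_le_add hT hT'
    · rintro x' hx' ⟨c', hc', h3⟩
      rcases List.mem_cons.1 hc' with rfl | hc'
      · exact hT2' x' (fun e he => hx' e (mem_union_right _ he)) h3
      · exact hT2 x' (fun e he => hx' e (mem_union_left _ he)) ⟨c', hc', h3⟩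

end

theorem p_outNT (h1 : S_sem) : S_outNT := by
  intro I X n d' M L P N s₁ out par fam Φ hfam hpar hocc hS hN κ hκ W hW
  classical
  have hN1 : 1 ≤ N := by omega
  have hLN : L ≤ N := by omega
  have hpos : 1 ≤ (2 * P + 2) ^ d' := Nat.one_le_pow _ _ (by omega)
  have hs : s₁ ≤ (2 * P + 2) ^ d' * s₁ := Nat.le_mul_of_pos_left _ hpos
  choose S hS1 hS2 hS3 using hS W (by omega)
  -- the innermost values
  have hin : ∀ i : Fin (n + 1) → Fin L, C1 ((2 * P + 2) ^ d' * s₁) (fun x : X → Bool =>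
      ¬ ∃ T, (out (i, T)).eval (Φ x) = true ∧
        Rel W (xor true (decide ((n + 1) % 2 = 1))) T) := by
    intro i
    have h2 := outNT_conj Φ (S i) (fun c hc => (hfam c (hS2 i c hc)).2)
    have h3 := outNT_C1_mono (Nat.mul_le_mul_right s₁ (hS1 i)) h2
    exact outNT_C1_congr (fun x => not_congr (hS3 i (Φ x)).symm) h3
  -- the NOR
  let ι : Type := Fin L ⊕ Option {u // u ∈ W}
  let g : ι → (X → Bool) → Prop := fun a x => match a with
    | Sum.inl j => NS n (fun i => ∃ T, (out ((Fin.cons j i : Fin (n + 1) → Fin L), T)).eval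
        (Φ x) = true ∧ Rel W (xor true (decide ((n + 1) % 2 = 1))) T)
    | Sum.inr none => ¬ (par κ).eval (Φ x) = true
    | Sum.inr (some u) => ¬ OccF (fun j => (out j).eval (Φ x) : Form (n + 1) d' M L) u.1
  refine outNT_nor hN1 (ι := ι) ?_ g ?_ _ ?_
  · show Fintype.card (Fin L ⊕ Option {u // u ∈ W}) ≤ N
    rw [Fintype.card_sum, Fintype.card_fin, Fintype.card_option, Fintype.card_coe, hW]
    omega
  · rintro (j | _ | u)
    · exact outNT_NS hN1 hLN n (fun i x => ∃ T, (out ((Fin.cons j i : Fin (n + 1) → Fin L),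
        T)).eval (Φ x) = true ∧ Rel W (xor true (decide ((n + 1) % 2 = 1))) T)
        (fun i => hin (Fin.cons j i))
    · have h2 := hfam _ (hpar κ hκ)
      refine outNT_both hN1 n _ (outNT_C1_mono hs h2.2) ?_
      exact outNT_C1_congr (fun x => not_not.symm) (outNT_C1_mono hs h2.1)
    · obtain ⟨c, hc, hc2⟩ := hocc u.1
      have h2 := hfam c hc
      refine outNT_both hN1 n _ ?_ ?_
      · exact outNT_C1_congr (fun x => not_congr (hc2 (Φ x))) (outNT_C1_mono hs h2.2)
      · exact outNT_C1_congr (fun x => (hc2 (Φ x)).trans not_not.symm)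
          (outNT_C1_mono hs h2.1)
  · intro x
    have hsem := h1 W (n + 1) true (fun j => (out j).eval (Φ x) : Form (n + 1) d' M L)
    have hsem2 : Sem W (n + 1) true (fun j => (out j).eval (Φ x) : Form (n + 1) d' M L) ↔
        ∀ j : Fin L, ¬ NS n (fun i => ∃ T, (out ((Fin.cons j i : Fin (n + 1) → Fin L),
          T)).eval (Φ x) = true ∧ Rel W (xor true (decide ((n + 1) % 2 = 1))) T) := by
      rw [hsem]
      constructor
      · intro h j hj
        exact (h.2 rfl) ⟨j, hj⟩
      · intro h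
        refine ⟨fun _ => rfl, fun _ => ?_⟩
        rintro ⟨j, hj⟩
        exact h j hj
    rw [hsem2]
    constructor
    · rintro ⟨h2, h3, h4⟩ (j | _ | u)
      · exact h4 j
      · exact fun h5 => h5 h2
      · exact fun h5 => h5 (h3 u.1 u.2)
    · intro h
      refine ⟨not_not.1 (h (Sum.inr none)), fun u hu => not_not.1 (h (Sum.inr (some ⟨u, hu⟩))),
        fun j => h (Sum.inl j)⟩

end Pool.Agent.Lib.MP_b4f117_lc.AT
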