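import Pool.Agent.Lib.MP_b4f117_lc.AT.Stm

/-!
# The switching lemma for block restrictions with one-hot noise (piece sw2)

Razborov's method. The blocks of a term are added one after the other; after every block it is
decided whether the same term is used again or the first term is computed anew, so that a state
with `a` blocks is reached by one of at most `(4 s card E) ^ a` sequences of choices.
-/

set_option autoImplicit false

open Finset

namespace Pool.Agent.Lib.MP_b4f117_lc.AT

open Classical

/-! ### Terms -/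

section terms

variable {X : Type}

/-- `x` satisfies the term `t` -/
private def sw2_sat (x : X → Bool) (t : Finset X × (X → Bool)) : Prop := ∀ e ∈ t.1, x e = t.2 e

/-- valid terms -/
private def sw2_valid (s : ℕ) (f : (X → Bool) → Prop) (t : Finset X × (X → Bool)) : Prop :=
  t.1.card ≤ s ∧ ∀ x, sw2_sat x t → f x

/-- `t` is the first valid term which is satisfied by `x` -/
private def sw2_first (s : ℕ) (f : (X → Bool) → Prop) (rank : Finset X × (X → Bool) → ℕ)
    (x : X → Bool) (t : Finset X × (X → Bool)) : Prop :=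
  sw2_valid s f t ∧ sw2_sat x t ∧ ∀ t', sw2_valid s f t' → sw2_sat x t' → rank t ≤ rank t'

/-- the set of the first term -/
private noncomputable def sw2_tau (s : ℕ) (f : (X → Bool) → Prop)
    (rank : Finset X × (X → Bool) → ℕ) (x : X → Bool) : Finset X :=
  if h : ∃ t, sw2_first s f rank x t then (Classical.choose h).1 else ∅

private lemma sw2_tau_card (s : ℕ) (f : (X → Bool) → Prop) (rank : Finset X × (X → Bool) → ℕ)
    (x : X → Bool) : (sw2_tau s f rank x).card ≤ s := by
  unfold sw2_tau
  split_ifs with h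
  · exact (Classical.choose_spec h).1.1
  · simp

private lemma sw2_tau_eq (s : ℕ) (f : (X → Bool) → Prop) (rank : Finset X × (X → Bool) → ℕ)
    (hr : Function.Injective rank) (x : X → Bool) (t : Finset X × (X → Bool))
    (ht : sw2_first s f rank x t) : sw2_tau s f rank x = t.1 := by
  have h : ∃ t, sw2_first s f rank x t := ⟨t, ht⟩
  unfold sw2_tau
  rw [dif_pos h]
  have hc := Classical.choose_spec h
  have : Classical.choose h = t := by
    refine hr (le_antisymm ?_ ?_)
    · exact hc.2.2 t ht.1 ht.2.1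
    · exact ht.2.2 _ hc.1 hc.2.1
  rw [this]

end terms

/-! ### States -/

section states

variable {O K E : Type} [DecidableEq O]

/-- the states -/
private abbrev sw2_St (O K E : Type) : Type := O → Option (K × (E × Bool))

/-- the input given by a state and the noise -/
private noncomputable def sw2_ov (τ : sw2_St O K E) (z' : O × K → E) : (O × K) × E → Bool :=
  fun p => if ∃ d, τ p.1.1 = some (p.1.2, d) then decide (τ p.1.1 = some (p.1.2, (p.2, false)))
    else decide (p.2 = z' p.1)

/-- the reachable states -/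
private noncomputable def sw2_R [Fintype E] (g : ((O × K) × E → Bool) → Finset ((O × K) × E))
    (z' : O × K → E) : ℕ → sw2_St O K E → Finset ((O × K) × E) → Finset (sw2_St O K E)
  | 0, τ, _ => {τ}
  | a + 1, τ, T =>
    (T.image Prod.fst).biUnion fun bl => (univ : Finset (E × Bool)).biUnion fun η =>
      sw2_R g z' a (Function.update τ bl.1 (some (bl.2, η))) T ∪
        sw2_R g z' a (Function.update τ bl.1 (some (bl.2, η)))
          (g (sw2_ov (Function.update τ bl.1 (some (bl.2, η))) z'))

private lemma sw2_card_R [Fintype E] (g : ((O × K) × E → Bool) → Finset ((O × K) × E)) (s : ℕ)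
    (hg : ∀ x, (g x).card ≤ s) (z' : O × K → E) (a : ℕ) :
    ∀ (τ : sw2_St O K E) (T : Finset ((O × K) × E)), T.card ≤ s →
      (sw2_R g z' a τ T).card ≤ (4 * s * Fintype.card E) ^ a := by
  induction a with
  | zero => intro τ T _; simp [sw2_R]
  | succ a ih =>
    intro τ T hT
    rw [sw2_R]
    have h1 : ∀ bl ∈ T.image Prod.fst, ((univ : Finset (E × Bool)).biUnion fun η =>
        sw2_R g z' a (Function.update τ bl.1 (some (bl.2, η))) T ∪
        sw2_R g z' a (Function.update τ bl.1 (some (bl.2, η)))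
          (g (sw2_ov (Function.update τ bl.1 (some (bl.2, η))) z'))).card ≤
        (2 * Fintype.card E) * (2 * (4 * s * Fintype.card E) ^ a) := by
      intro bl _
      refine (Finset.card_biUnion_le_card_mul _ _ (2 * (4 * s * Fintype.card E) ^ a)
        fun η _ => ?_).trans ?_
      · refine (Finset.card_union_le _ _).trans ?_
        have a1 := ih (Function.update τ bl.1 (some (bl.2, η))) T hT
        have a2 := ih (Function.update τ bl.1 (some (bl.2, η)))
          (g (sw2_ov (Function.update τ bl.1 (some (bl.2, η))) z')) (hg _)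
        omega
      · refine Nat.mul_le_mul_right _ ?_
        rw [Finset.card_univ, Fintype.card_prod, Fintype.card_bool]
        omega
    refine (Finset.card_biUnion_le_card_mul _ _ _ h1).trans ?_
    have h2 : (T.image Prod.fst).card ≤ s := Finset.card_image_le.trans hT
    calc _ ≤ s * ((2 * Fintype.card E) * (2 * (4 * s * Fintype.card E) ^ a)) :=
          Nat.mul_le_mul_right _ h2
      _ = _ := by rw [pow_succ]; ring

omit [DecidableEq O] in
private lemma sw2_ov_some (τ : sw2_St O K E) (z' : O × K → E) (o : O) (κ : K) (e : E)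
    (d : E × Bool) (h : τ o = some (κ, d)) :
    sw2_ov τ z' ((o, κ), e) = true ↔ d = (e, false) := by
  have h1 : sw2_ov τ z' ((o, κ), e) = decide (τ o = some (κ, (e, false))) := if_pos ⟨d, h⟩
  rw [h1, decide_eq_true_eq, h]
  constructor
  · intro h2
    exact (Prod.mk.inj (Option.some.inj h2)).2
  · intro h2
    rw [h2]

omit [DecidableEq O] in
private lemma sw2_ov_none (τ : sw2_St O K E) (z' : O × K → E) (o : O) (κ : K) (e : E)
    (h : ¬ ∃ d, τ o = some (κ, d)) :
    sw2_ov τ z' ((o, κ), e) = true ↔ e = z' (o, κ) := by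
  have h1 : sw2_ov τ z' ((o, κ), e) = decide (e = z' (o, κ)) := if_neg h
  rw [h1, decide_eq_true_eq]

/-- the state with the blocks `(o, β o)`, `o ∈ U` -/
private noncomputable def sw2_t (β : O → K) (d : O → E × Bool) (U : Finset O) : sw2_St O K E :=
  fun o => if o ∈ U then some (β o, d o) else none

private lemma sw2_t_mem (β : O → K) (d : O → E × Bool) {U : Finset O} {o : O} (h : o ∈ U) :
    sw2_t β d U o = some (β o, d o) := if_pos h

private lemma sw2_t_not (β : O → K) (d : O → E × Bool) {U : Finset O} {o : O} (h : o ∉ U) :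
    sw2_t β d U o = none := if_neg h

private lemma sw2_update (β : O → K) (d : O → E × Bool) (U : Finset O) (o : O) :
    Function.update (sw2_t β d U) o (some (β o, d o)) = sw2_t β d (insert o U) := by
  funext o'
  unfold sw2_t
  by_cases h : o' = o
  · subst h
    rw [Function.update_self, if_pos (Finset.mem_insert_self _ _)]
  · rw [Function.update_of_ne h]
    by_cases h2 : o' ∈ U
    · rw [if_pos h2, if_pos (Finset.mem_insert_of_mem h2)]
    · rw [if_neg h2, if_neg]
      intro h3
      rcases Finset.mem_insert.1 h3 with h4 | h4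
      · exact h h4
      · exact h2 h4

private lemma sw2_add [Fintype E] (g : ((O × K) × E → Bool) → Finset ((O × K) × E))
    (z' : O × K → E) (β : O → K) (d : O → E × Bool) (T : Finset ((O × K) × E))
    (σ : sw2_St O K E) (j : ℕ) :
    ∀ (n : ℕ) (U N : Finset O), N.card = n + 1 → (∀ o ∈ N, ∃ e, ((o, β o), e) ∈ T) →
      σ ∈ sw2_R g z' j (sw2_t β d (U ∪ N)) (g (sw2_ov (sw2_t β d (U ∪ N)) z')) →
      σ ∈ sw2_R g z' (n + 1 + j) (sw2_t β d U) T := by
  intro n
  induction n with
  | zero =>
    intro U N hN hT hσ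
    obtain ⟨o, rfl⟩ := Finset.card_eq_one.1 hN
    have e1 : 0 + 1 + j = j + 1 := by omega
    rw [e1, sw2_R, Finset.mem_biUnion]
    obtain ⟨e, he⟩ := hT o (Finset.mem_singleton_self _)
    refine ⟨(o, β o), Finset.mem_image.2 ⟨_, he, rfl⟩, ?_⟩
    rw [Finset.mem_biUnion]
    refine ⟨d o, Finset.mem_univ _, ?_⟩
    rw [Finset.mem_union]
    right
    have e2 : U ∪ {o} = insert o U := by
      rw [Finset.union_comm]
      rfl
    rw [e2] at hσ
    rw [sw2_update]
    exact hσ
  | succ n ih =>
    intro U N hN hT hσ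
    obtain ⟨o, ho⟩ : N.Nonempty := Finset.card_pos.1 (by omega)
    have h1 : (N.erase o).card = n + 1 := by
      rw [Finset.card_erase_of_mem ho]
      omega
    have h2 : insert o U ∪ N.erase o = U ∪ N := by
      ext o'
      simp only [Finset.mem_union, Finset.mem_insert, Finset.mem_erase]
      by_cases h : o' = o
      · subst h
        simp [ho]
      · simp [h]
    have h3 := ih (insert o U) (N.erase o) h1 (fun o' ho' => hT o' (Finset.mem_of_mem_erase ho'))
      (by rw [h2]; exact hσ)
    have e1 : n + 1 + 1 + j = (n + 1 + j) + 1 := by omega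
    rw [e1, sw2_R, Finset.mem_biUnion]
    obtain ⟨e, he⟩ := hT o ho
    refine ⟨(o, β o), Finset.mem_image.2 ⟨_, he, rfl⟩, ?_⟩
    rw [Finset.mem_biUnion]
    refine ⟨d o, Finset.mem_univ _, ?_⟩
    rw [Finset.mem_union]
    left
    rw [sw2_update]
    exact h3

end states

/-! ### The claim -/

section claim

variable {O K E : Type} [Fintype O] [DecidableEq O] [Fintype K] [DecidableEq K]
  [Fintype E] [DecidableEq E]

/-- The inputs whose block `(o, κ)`, `κ ≠ β o`, has exactly the true entry `z (o, κ)`, whose block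
`(o, β o)`, `o ∈ U`, is that of `Hot β z y`, and whose block `(o, β o)`, `o ∉ U`, is given
by `a o`. -/
private noncomputable def sw2_X (β : O → K) (z : O × K → E) (y : O → Bool) (U : Finset O)
    (a : O → Option E) : (O × K) × E → Bool := fun p =>
  if p.1.2 = β p.1.1 then
    (if p.1.1 ∈ U then decide (p.2 = z p.1 ∧ y p.1.1 = false) else decide (a p.1.1 = some p.2))
  else decide (p.2 = z p.1)

omit [Fintype O] [Fintype K] [Fintype E] in
private lemma sw2_X1 (β : O → K) (z : O × K → E) (y : O → Bool) {U : Finset O}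
    (a : O → Option E) {o : O} (h : o ∈ U) (e : E) :
    sw2_X β z y U a ((o, β o), e) = true ↔ e = z (o, β o) ∧ y o = false := by
  unfold sw2_X
  rw [if_pos rfl, if_pos h, decide_eq_true_eq]

omit [Fintype O] [Fintype K] [Fintype E] in
private lemma sw2_X2 (β : O → K) (z : O × K → E) (y : O → Bool) {U : Finset O}
    (a : O → Option E) {o : O} (h : o ∉ U) (e : E) :
    sw2_X β z y U a ((o, β o), e) = true ↔ a o = some e := by
  unfold sw2_X
  rw [if_pos rfl, if_neg h, decide_eq_true_eq]

omit [Fintype O] [Fintype K] [Fintype E] in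
private lemma sw2_X3 (β : O → K) (z : O × K → E) (y : O → Bool) (U : Finset O)
    (a : O → Option E) {o : O} {κ : K} (h : κ ≠ β o) (e : E) :
    sw2_X β z y U a ((o, κ), e) = true ↔ e = z (o, κ) := by
  unfold sw2_X
  rw [if_neg h, decide_eq_true_eq]

omit [Fintype O] [DecidableEq O] [Fintype K] [Fintype E] in
private lemma sw2_hotv (β : O → K) (z : O × K → E) (y : O → Bool) (o : O) (κ : K) (e : E) :
    Hot β z y ((o, κ), e) = true ↔ e = z (o, κ) ∧ (κ = β o → y o = false) := by
  unfold Hot
  rw [decide_eq_true_eq]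

omit [Fintype O] [Fintype K] [Fintype E] in
private lemma sw2_hot (β : O → K) (z : O × K → E) (y y' : O → Bool) (U : Finset O)
    (h : ∀ o ∈ U, y' o = y o) :
    Hot β z y' = sw2_X β z y U (fun o => if y' o = false then some (z (o, β o)) else none) := by
  funext p
  obtain ⟨⟨o, κ⟩, e⟩ := p
  rw [Bool.eq_iff_iff, sw2_hotv]
  by_cases h1 : κ = β o
  · subst h1
    by_cases h2 : o ∈ U
    · rw [sw2_X1 β z y _ h2, h o h2]
      exact ⟨fun h3 => ⟨h3.1, h3.2 rfl⟩, fun h3 => ⟨h3.1, fun _ => h3.2⟩⟩
    · rw [sw2_X2 β z y _ h2]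
      by_cases h3 : y' o = false
      · rw [if_pos h3]
        constructor
        · rintro ⟨h4, -⟩
          rw [h4]
        · intro h4
          exact ⟨(Option.some.inj h4).symm, fun _ => h3⟩
      · rw [if_neg h3]
        constructor
        · rintro ⟨-, h4⟩
          exact absurd (h4 rfl) h3
        · intro h4
          exact absurd h4 (by simp)
  · rw [sw2_X3 β z y U _ h1]
    constructor
    · exact fun h4 => h4.1
    · exact fun h4 => ⟨h4, fun h5 => absurd h5 h1⟩

omit [Fintype O] [Fintype K] [Fintype E] in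
private lemma sw2_ov_eq (β : O → K) (z z'' : O × K → E) (y : O → Bool) (U : Finset O)
    (h : ∀ o κ, κ ≠ β o → z'' (o, κ) = z (o, κ)) :
    sw2_ov (sw2_t β (fun o => (z (o, β o), y o)) U) z'' =
      sw2_X β z y U (fun o => some (z'' (o, β o))) := by
  funext p
  obtain ⟨⟨o, κ⟩, e⟩ := p
  rw [Bool.eq_iff_iff]
  by_cases h1 : κ = β o
  · subst h1
    by_cases h2 : o ∈ U
    · rw [sw2_X1 β z y _ h2, sw2_ov_some _ _ _ _ _ _ (sw2_t_mem β _ h2), Prod.mk.injEq]
      exact ⟨fun h4 => ⟨h4.1.symm, h4.2⟩, fun h4 => ⟨h4.1.symm, h4.2⟩⟩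
    · rw [sw2_X2 β z y _ h2, sw2_ov_none, Option.some.injEq]
      · exact eq_comm
      · rintro ⟨d, hd⟩
        rw [sw2_t_not β _ h2] at hd
        exact absurd hd (by simp)
  · rw [sw2_X3 β z y U _ h1, sw2_ov_none, h o κ h1]
    rintro ⟨d, hd⟩
    by_cases h2 : o ∈ U
    · rw [sw2_t_mem β _ h2] at hd
      exact h1 (Prod.mk.inj (Option.some.inj hd)).1.symm
    · rw [sw2_t_not β _ h2] at hd
      exact absurd hd (by simp)

private lemma sw2_claim (s s' : ℕ) (f : ((O × K) × E → Bool) → Prop)
    (hs : s < Fintype.card E) (hf : C1 s f)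
    (rank : Finset ((O × K) × E) × ((O × K) × E → Bool) → ℕ) (hr : Function.Injective rank)
    (β : O → K) (z : O × K → E) (y : O → Bool)
    (hbad : ∀ U : Finset O, U.card ≤ s' → ∃ y' : O → Bool, (∀ o ∈ U, y' o = y o) ∧
      f (Hot β z y'))
    (hnf : ¬ f (Hot β z y)) (n : ℕ) :
    ∀ U : Finset O, U.card ≤ s' → s' + 1 - U.card ≤ n →
      ∃ (U' : Finset O) (θ : O → E), U ⊆ U' ∧ s' < U'.card ∧
        ∀ z'' : O × K → E, (∀ o κ, (o ∉ U' ∨ κ ≠ β o) → z'' (o, κ) = z (o, κ)) →
          (∀ o ∈ U', o ∉ U → z'' (o, β o) = θ o) →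
          sw2_t β (fun o => (z (o, β o), y o)) U' ∈
            sw2_R (sw2_tau s f rank) z'' (U'.card - U.card)
              (sw2_t β (fun o => (z (o, β o), y o)) U)
              (sw2_tau s f rank (sw2_ov (sw2_t β (fun o => (z (o, β o), y o)) U) z'')) := by
  induction n with
  | zero => intro U h1 h2; omega
  | succ n ih =>
    intro U hU hn
    -- the first term
    obtain ⟨t, ⟨htv, a, hsat⟩, hmin⟩ : ∃ t ∈ {t : Finset ((O × K) × E) × ((O × K) × E → Bool) |
        sw2_valid s f t ∧ ∃ a : O → Option E, sw2_sat (sw2_X β z y U a) t},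
        ∀ t' ∈ {t : Finset ((O × K) × E) × ((O × K) × E → Bool) |
        sw2_valid s f t ∧ ∃ a : O → Option E, sw2_sat (sw2_X β z y U a) t},
        rank t ≤ rank t' := by
      refine Set.exists_min_image _ rank (Set.toFinite _) ?_
      obtain ⟨y', hy', hfy'⟩ := hbad U hU
      obtain ⟨T, hT, hTf⟩ := hf _ hfy'
      refine ⟨(T, Hot β z y'), ⟨hT, fun x hx => hTf x hx⟩,
        (fun o => if y' o = false then some (z (o, β o)) else none), ?_⟩
      rw [← sw2_hot β z y y' U hy']
      exact fun e _ => rfl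
    obtain ⟨N, hN⟩ : ∃ N : Finset O, ∀ o, o ∈ N ↔ (o ∉ U ∧ ∃ e, ((o, β o), e) ∈ t.1) :=
      ⟨univ.filter (fun o => o ∉ U ∧ ∃ e, ((o, β o), e) ∈ t.1), fun o => by
        rw [Finset.mem_filter]
        exact ⟨fun h => h.2, fun h => ⟨Finset.mem_univ _, h⟩⟩⟩
    -- `N` is not empty
    have hne : N.Nonempty := by
      by_contra hN0
      rw [Finset.not_nonempty_iff_eq_empty] at hN0
      refine hnf (htv.2 _ ?_)
      rintro ⟨⟨o, κ⟩, e⟩ hp
      rw [← hsat _ hp, Bool.eq_iff_iff, sw2_hotv]
      by_cases h1 : κ = β o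
      · subst h1
        have h2 : o ∈ U := by
          by_contra h2
          have h3 := (hN o).2 ⟨h2, e, hp⟩
          rw [hN0] at h3
          exact absurd h3 (Finset.notMem_empty _)
        rw [sw2_X1 β z y _ h2]
        exact ⟨fun h3 => ⟨h3.1, h3.2 rfl⟩, fun h3 => ⟨h3.1, fun _ => h3.2⟩⟩
      · rw [sw2_X3 β z y U _ h1]
        exact ⟨fun h4 => h4.1, fun h4 => ⟨h4, fun h5 => absurd h5 h1⟩⟩
    have hNc : 0 < N.card := Finset.card_pos.2 hne
    have hdisj : Disjoint U N := by
      rw [Finset.disjoint_left]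
      intro o h1 h2
      exact ((hN o).1 h2).1 h1
    have hcard : (U ∪ N).card = U.card + N.card := Finset.card_union_of_disjoint hdisj
    -- the entries of the planted blocks
    obtain ⟨θ₀, hθ₀⟩ : ∃ θ₀ : O → E, ∀ o ∈ N, (a o = some (θ₀ o)) ∨
        (a o = none ∧ ((o, β o), θ₀ o) ∉ t.1) := by
      have h1 : ∀ o, ∃ e : E, (a o = some e) ∨ (a o = none ∧ ((o, β o), e) ∉ t.1) := by
        intro o
        rcases h2 : a o with _ | e
        · by_contra h3
          push Not at h3
          have h4 : ∀ e : E, ((o, β o), e) ∈ t.1 := fun e => (h3 e).2 rfl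
          have h5 : Fintype.card E ≤ t.1.card := by
            rw [← Finset.card_univ]
            refine Finset.card_le_card_of_injOn (fun e => ((o, β o), e)) ?_ ?_
            · intro e _
              exact Finset.mem_coe.2 (h4 e)
            · intro e _ e' _ h
              exact (Prod.mk.inj h).2
          have h6 := htv.1
          omega
        · exact ⟨e, Or.inl rfl⟩
      choose θ₀ h using h1
      exact ⟨θ₀, fun o _ => h o⟩
    -- the set `U'`
    obtain ⟨U', θ', hUU', hw1, hrest⟩ : ∃ (U' : Finset O) (θ' : O → E),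
        U ∪ N ⊆ U' ∧ s' < U'.card ∧
        ∀ z'' : O × K → E, (∀ o κ, (o ∉ U' ∨ κ ≠ β o) → z'' (o, κ) = z (o, κ)) →
          (∀ o ∈ U', o ∉ U ∪ N → z'' (o, β o) = θ' o) →
          sw2_t β (fun o => (z (o, β o), y o)) U' ∈
            sw2_R (sw2_tau s f rank) z'' (U'.card - (U ∪ N).card)
              (sw2_t β (fun o => (z (o, β o), y o)) (U ∪ N))
              (sw2_tau s f rank (sw2_ov (sw2_t β (fun o => (z (o, β o), y o)) (U ∪ N)) z'')) := by
      by_cases hc : (U ∪ N).card ≤ s'
      · exact ih (U ∪ N) hc (by omega)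
      · refine ⟨U ∪ N, θ₀, subset_rfl, by omega, ?_⟩
        intro z'' _ _
        rw [Nat.sub_self, sw2_R]
        exact Finset.mem_singleton_self _
    have hUsub : U ⊆ U' := Finset.subset_union_left.trans hUU'
    have hNsub : N ⊆ U' := Finset.subset_union_right.trans hUU'
    refine ⟨U', fun o => if o ∈ N then θ₀ o else θ' o, hUsub, hw1, ?_⟩
    intro z'' hz1 hz2
    have hmem := hrest z'' hz1 (by
      intro o ho1 ho2
      have h0 := hz2 o ho1 (fun h => ho2 (Finset.mem_union_left _ h))
      beta_reduce at h0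
      rw [h0, if_neg (fun h => ho2 (Finset.mem_union_right _ h))])
    -- the overwritten input
    have hx := sw2_ov_eq β z z'' y U (fun o κ h => hz1 o κ (Or.inr h))
    have hfirst : sw2_first s f rank
        (sw2_ov (sw2_t β (fun o => (z (o, β o), y o)) U) z'') t := by
      rw [hx]
      refine ⟨htv, ?_, fun t' ht'v ht's => hmin t' ⟨ht'v, _, ht's⟩⟩
      rintro ⟨⟨o, κ⟩, e⟩ hp
      rw [← hsat _ hp, Bool.eq_iff_iff]
      by_cases h1 : κ = β o
      · subst h1
        by_cases h2 : o ∈ U
        · rw [sw2_X1 β z y _ h2, sw2_X1 β z y _ h2]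
        · have h3 : o ∈ N := (hN o).2 ⟨h2, e, hp⟩
          have h4 := hz2 o (hNsub h3) h2
          beta_reduce at h4
          rw [if_pos h3] at h4
          rw [sw2_X2 β z y _ h2, sw2_X2 β z y _ h2, h4]
          rcases hθ₀ o h3 with h5 | ⟨h5, h6⟩
          · rw [h5]
          · rw [h5]
            constructor
            · intro h7
              rw [Option.some.inj h7] at h6
              exact absurd hp h6
            · intro h7
              exact absurd h7 (by simp)
      · rw [sw2_X3 β z y U _ h1, sw2_X3 β z y U _ h1]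
    have htau := sw2_tau_eq s f rank hr _ t hfirst
    rw [htau]
    obtain ⟨m, hm⟩ : ∃ m, N.card = m + 1 := ⟨N.card - 1, by omega⟩
    have hle : (U ∪ N).card ≤ U'.card := Finset.card_le_card hUU'
    have e1 : U'.card - U.card = m + 1 + (U'.card - (U ∪ N).card) := by omega
    rw [e1]
    exact sw2_add (sw2_tau s f rank) z'' β _ t.1 _ _ m U N hm (fun o ho => ((hN o).1 ho).2) hmem

private lemma sw2_data (s s' : ℕ) (f : ((O × K) × E → Bool) → Prop)
    (hs : s < Fintype.card E) (hf : C1 s f)
    (rank : Finset ((O × K) × E) × ((O × K) × E → Bool) → ℕ) (hr : Function.Injective rank)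
    (β : O → K) (z : O × K → E) (hbad : ¬ C1 s' (fun y => ¬ f (Hot β z y))) :
    ∃ (U' : Finset O) (z' : O × K → E) (y : O → Bool), s' < U'.card ∧
      (∀ o κ, (o ∉ U' ∨ κ ≠ β o) → z' (o, κ) = z (o, κ)) ∧
      sw2_t β (fun o => (z (o, β o), y o)) U' ∈
        sw2_R (sw2_tau s f rank) z' U'.card (fun _ => none)
          (sw2_tau s f rank (sw2_ov (fun _ => none) z')) := by
  unfold C1 at hbad
  push Not at hbad
  obtain ⟨y, hnf, hb⟩ := hbad
  obtain ⟨U', θ, -, hw1, hz⟩ := sw2_claim s s' f hs hf rank hr β z y hb hnf (s' + 1) ∅ (by simp)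
    (by simp)
  have hmem := hz (fun p => if p.1 ∈ U' ∧ p.2 = β p.1 then θ p.1 else z p)
    (fun o κ h => if_neg (fun h' => by
      rcases h with h | h
      · exact h h'.1
      · exact h h'.2))
    (fun o ho _ => if_pos ⟨ho, rfl⟩)
  have he : sw2_t β (fun o => (z (o, β o), y o)) (∅ : Finset O) = fun _ => none := by
    funext o
    exact sw2_t_not β _ (Finset.notMem_empty _)
  rw [he, Finset.card_empty, Nat.sub_zero] at hmem
  exact ⟨U', _, y, hw1, fun o κ h => if_neg (fun h' => by
      rcases h with h | h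
      · exact h h'.1
      · exact h h'.2), hmem⟩

end claim

/-! ### Counting -/

private lemma sw2_card_fun {α κ : Type} [Fintype α] [DecidableEq α] [Fintype κ] (U : Finset α)
    (β : α → κ) (S : Finset (α → κ)) (hS : ∀ β', β' ∈ S ↔ ∀ u, u ∉ U → β' u = β u) :
    S.card = (Fintype.card κ) ^ U.card := by
  have h : S = Fintype.piFinset (fun u => if u ∈ U then (univ : Finset κ) else {β u}) := by
    ext β'
    rw [hS, Fintype.mem_piFinset]
    refine forall_congr' fun u => ?_
    by_cases hu : u ∈ U
    · simp [hu]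
    · simp [hu]
  rw [h, Fintype.card_piFinset]
  have h2 : ∀ u, (if u ∈ U then (univ : Finset κ) else {β u}).card =
      if u ∈ U then Fintype.card κ else 1 := by
    intro u
    split_ifs
    · simp
    · simp
  simp only [h2]
  rw [Finset.prod_ite]
  simp

private lemma sw2_geom (m : ℕ) : ∀ n : ℕ, m ≤ n →
    ∑ a ∈ Finset.Ioc m n, ((1 : ℝ) / 2) ^ a = (1 / 2) ^ m - (1 / 2) ^ n := by
  intro n hn
  induction n, hn using Nat.le_induction with
  | base => simp
  | succ n hn ih =>
    have e : Finset.Ioc m (n + 1) = insert (n + 1) (Finset.Ioc m n) := by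
      ext k
      simp only [Finset.mem_Ioc, Finset.mem_insert]
      omega
    rw [e, Finset.sum_insert (by simp), ih, pow_succ]
    ring

theorem p_sw2 : S_sw2 := by
  intro O K E _ _ _ _ _ _ s s' f hs1 hs hK hf
  obtain ⟨rank, hr⟩ := Countable.exists_injective_nat
    (Finset ((O × K) × E) × ((O × K) × E → Bool))
  have hE : 0 < Fintype.card E := by omega
  have hEn : Nonempty E := Fintype.card_pos_iff.1 hE
  have hdata : ∀ p : (O → K) × (O × K → E), ¬ C1 s' (fun y => ¬ f (Hot p.1 p.2 y)) →
      ∃ (U' : Finset O) (z' : O × K → E) (y : O → Bool), s' < U'.card ∧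
      (∀ o κ, (o ∉ U' ∨ κ ≠ p.1 o) → z' (o, κ) = p.2 (o, κ)) ∧
      sw2_t p.1 (fun o => (p.2 (o, p.1 o), y o)) U' ∈
        sw2_R (sw2_tau s f rank) z' U'.card (fun _ => none)
          (sw2_tau s f rank (sw2_ov (fun _ => none) z')) :=
    fun p hp => sw2_data s s' f hs hf rank hr p.1 p.2 hp
  choose! U' z' y hU hz hR using hdata
  obtain ⟨bad, hbad⟩ : ∃ bad : Finset ((O → K) × (O × K → E)),
      ∀ p, p ∈ bad ↔ ¬ C1 s' (fun y => ¬ f (Hot p.1 p.2 y)) :=
    ⟨univ.filter (fun p => ¬ C1 s' (fun y => ¬ f (Hot p.1 p.2 y))), fun p => by simp⟩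
  have hcb : Nat.card {p : (O → K) × (O × K → E) // ¬ C1 s' (fun y => ¬ f (Hot p.1 p.2 y))} =
      bad.card := by
    rw [Nat.card_eq_fintype_card, Fintype.card_subtype]
    congr 1
    ext p
    rw [Finset.mem_filter, hbad]
    exact ⟨fun h => h.2, fun h => ⟨Finset.mem_univ _, h⟩⟩
  rw [hcb, Nat.card_eq_fintype_card]
  have hD : 0 < 4 * s * Fintype.card E := by positivity
  have hmain : ∀ a : ℕ, (bad.filter (fun p => (U' p).card = a)).card * 2 ^ a ≤
      Fintype.card ((O → K) × (O × K → E)) := by
    intro a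
    -- source and target
    obtain ⟨Src, hSrc⟩ : ∃ Src : Finset (Σ _ : (O → K) × (O × K → E), (O → K)),
        Src = (bad.filter (fun p => (U' p).card = a)).sigma
          (fun p => univ.filter (fun β' => ∀ u, u ∉ U' p → β' u = p.1 u)) := ⟨_, rfl⟩
    obtain ⟨Tgt, hTgt⟩ : ∃ Tgt : Finset (Σ _ : (O → K) × (O × K → E), sw2_St O K E),
        Tgt = univ.sigma (fun p => sw2_R (sw2_tau s f rank) p.2 a (fun _ => none)
          (sw2_tau s f rank (sw2_ov (fun _ => none) p.2))) := ⟨_, rfl⟩
    have hsrc : Src.card =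
        (bad.filter (fun p => (U' p).card = a)).card * Fintype.card K ^ a := by
      rw [hSrc, Finset.card_sigma, ← smul_eq_mul]
      refine Finset.sum_const_nat fun p hp => ?_
      rw [sw2_card_fun (U' p) p.1 _ (fun β' => by simp), (Finset.mem_filter.1 hp).2]
    have htgt : Tgt.card ≤ Fintype.card ((O → K) × (O × K → E)) *
        (4 * s * Fintype.card E) ^ a := by
      rw [hTgt, Finset.card_sigma, ← Finset.card_univ, ← smul_eq_mul]
      exact Finset.sum_le_card_nsmul _ _ _ fun p _ =>
        sw2_card_R _ s (sw2_tau_card s f rank) _ a _ _ (sw2_tau_card s f rank _)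
    have hinj : Src.card ≤ Tgt.card := by
      refine Finset.card_le_card_of_injOn
        (fun σ => ⟨(σ.2, z' σ.1),
          sw2_t σ.1.1 (fun o => (σ.1.2 (o, σ.1.1 o), y σ.1 o)) (U' σ.1)⟩) ?_ ?_
      · rintro ⟨p, β'⟩ hσ
        rw [hSrc] at hσ
        have h1 := Finset.mem_sigma.1 (Finset.mem_coe.1 hσ)
        have h2 := Finset.mem_filter.1 h1.1
        have h3 := hR p ((hbad p).1 h2.1)
        rw [h2.2] at h3
        rw [hTgt]
        exact Finset.mem_coe.2 (Finset.mem_sigma.2 ⟨Finset.mem_univ _, h3⟩)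
      · rintro ⟨⟨β, z⟩, β'⟩ hσ ⟨⟨β₂, z₂⟩, β₂'⟩ hσ₂ heq
        rw [hSrc] at hσ hσ₂
        have h1 := Finset.mem_sigma.1 (Finset.mem_coe.1 hσ)
        have h2 := Finset.mem_sigma.1 (Finset.mem_coe.1 hσ₂)
        have hb1 := (hbad _).1 (Finset.mem_filter.1 h1.1).1
        have hb2 := (hbad _).1 (Finset.mem_filter.1 h2.1).1
        have ho1 := (Finset.mem_filter.1 h1.2).2
        have ho2 := (Finset.mem_filter.1 h2.2).2
        simp only [Sigma.mk.injEq, Prod.mk.injEq, heq_eq_eq] at heq
        obtain ⟨⟨e1, e2⟩, e3⟩ := heq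
        subst e1
        have hUU : ∀ o, o ∈ U' (β, z) ↔ o ∈ U' (β₂, z₂) := by
          intro o
          have h3 := congrFun e3 o
          constructor
          · intro h4
            by_contra h5
            rw [sw2_t_mem _ _ h4, sw2_t_not _ _ h5] at h3
            exact absurd h3 (by simp)
          · intro h4
            by_contra h5
            rw [sw2_t_mem _ _ h4, sw2_t_not _ _ h5] at h3
            exact absurd h3 (by simp)
        have hβ : β = β₂ := by
          funext o
          by_cases ho : o ∈ U' (β, z)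
          · have h3 := congrFun e3 o
            rw [sw2_t_mem _ _ ho, sw2_t_mem _ _ ((hUU o).1 ho)] at h3
            exact (Prod.mk.inj (Option.some.inj h3)).1
          · exact (ho1 o ho).symm.trans (ho2 o (fun h => ho ((hUU o).2 h)))
        subst hβ
        have hzz : z = z₂ := by
          funext p
          obtain ⟨o, κ⟩ := p
          by_cases ho : o ∈ U' (β, z) ∧ κ = β o
          · obtain ⟨ho, rfl⟩ := ho
            have h3 := congrFun e3 o
            rw [sw2_t_mem _ _ ho, sw2_t_mem _ _ ((hUU o).1 ho)] at h3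
            exact (Prod.mk.inj (Prod.mk.inj (Option.some.inj h3)).2).1
          · have h3 : o ∉ U' (β, z) ∨ κ ≠ β o := by
              by_contra h4
              push Not at h4
              exact ho h4
            have h4 : o ∉ U' (β, z₂) ∨ κ ≠ β o := by
              rcases h3 with h3 | h3
              · exact Or.inl (fun h => h3 ((hUU o).2 h))
              · exact Or.inr h3
            have a1 := hz (β, z) hb1 o κ h3
            have a2 := hz (β, z₂) hb2 o κ h4
            exact a1.symm.trans ((congrFun e2 (o, κ)).trans a2)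
        subst hzz
        rfl
    have h1 : (bad.filter (fun p => (U' p).card = a)).card * (2 * (4 * s * Fintype.card E)) ^ a ≤
        Fintype.card ((O → K) × (O × K → E)) * (4 * s * Fintype.card E) ^ a := by
      refine le_trans ?_ (hinj.trans htgt)
      rw [hsrc]
      refine Nat.mul_le_mul_left _ (Nat.pow_le_pow_left ?_ _)
      refine le_trans (le_of_eq ?_) hK
      ring
    rw [mul_pow, ← mul_assoc] at h1
    exact Nat.le_of_mul_le_mul_right h1 (pow_pos hD a)
  -- the sum
  have hsum : bad.card = ∑ a ∈ Finset.Ioc s' (Fintype.card O + s'),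
      (bad.filter (fun p => (U' p).card = a)).card := by
    refine Finset.card_eq_sum_card_fiberwise (f := fun p => (U' p).card) ?_
    intro p hp
    have h1 := hU p ((hbad p).1 (Finset.mem_coe.1 hp))
    have h2 := Finset.card_le_univ (U' p)
    exact Finset.mem_coe.2 (Finset.mem_Ioc.2 ⟨h1, h2.trans (Nat.le_add_right _ _)⟩)
  have hreal : ((bad.card : ℕ) : ℝ) ≤
      (Fintype.card ((O → K) × (O × K → E)) : ℝ) * (1 / 2) ^ s' := by
    rw [hsum, Nat.cast_sum]
    have h1 : ∀ a ∈ Finset.Ioc s' (Fintype.card O + s'),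
        (((bad.filter (fun p => (U' p).card = a)).card : ℕ) : ℝ) ≤
          (Fintype.card ((O → K) × (O × K → E)) : ℝ) * (1 / 2) ^ a := by
      intro a _
      have h2 : (((bad.filter (fun p => (U' p).card = a)).card : ℕ) : ℝ) * 2 ^ a ≤
          (Fintype.card ((O → K) × (O × K → E)) : ℝ) := by exact_mod_cast hmain a
      have h3 : (0 : ℝ) < 2 ^ a := by positivity
      rw [one_div, inv_pow, ← div_eq_mul_inv, le_div_iff₀ h3]
      exact h2
    refine (Finset.sum_le_sum h1).trans ?_
    rw [← Finset.mul_sum, sw2_geom s' (Fintype.card O + s') (by omega)]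
    refine mul_le_mul_of_nonneg_left ?_ (by positivity)
    have h4 : (0 : ℝ) ≤ (1 / 2) ^ (Fintype.card O + s') := by positivity
    linarith
  have h3 : (0 : ℝ) < 2 ^ s' := by positivity
  rw [one_div, inv_pow, ← div_eq_mul_inv, le_div_iff₀ h3] at hreal
  exact_mod_cast hreal

end Pool.Agent.Lib.MP_b4f117_lc.AT
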