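import Pool.Agent.Lib.MP_b4f117_lc.AT.Stm

/-!
# The switching lemma
-/

set_option autoImplicit false

open Finset

namespace Pool.Agent.Lib.MP_b4f117_lc.AT

open Pool.Agent.Lib.MP_b4f117_lc.AC

open Classical

/-! ### Counting -/

private lemma swE_card_fun {α κ : Type} [Fintype α] [DecidableEq α] [Fintype κ] (P : α → Prop) (β : α → κ) :
    (univ.filter (fun β' : α → κ => ∀ u, ¬ P u → β' u = β u)).card =
      (Fintype.card κ) ^ (univ.filter P).card := by
  have h : univ.filter (fun β' : α → κ => ∀ u, ¬ P u → β' u = β u) =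
      Fintype.piFinset (fun u => if P u then (univ : Finset κ) else {β u}) := by
    ext β'
    simp only [mem_filter, mem_univ, true_and, Fintype.mem_piFinset]
    refine forall_congr' fun u => ?_
    by_cases hu : P u
    · simp [hu]
    · simp [hu]
  rw [h, Fintype.card_piFinset]
  have h2 : ∀ u, (if P u then (univ : Finset κ) else {β u}).card = if P u then Fintype.card κ else 1 := by
    intro u
    split_ifs
    · simp
    · simp
  simp only [h2]
  rw [Finset.prod_ite]
  simp

private lemma swE_inst {α β : Type} {s : Finset α} {t : Finset β} {P : α → Prop} {R : β → Prop}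
    {i1 i1' : DecidablePred P} {i2 i2' : DecidablePred R} {n : ℕ}
    (h : (@Finset.filter α P i1 s).card = n ^ (@Finset.filter β R i2 t).card) :
    (@Finset.filter α P i1' s).card = n ^ (@Finset.filter β R i2' t).card := by
  have e1 : i1 = i1' := Subsingleton.elim _ _
  have e2 : i2 = i2' := Subsingleton.elim _ _
  subst e1
  subst e2
  exact h

section general

variable {G : Type} [Fintype G] [DecidableEq G] {q : ℕ} {A : Type} [Fintype A] [DecidableEq A]

private lemma swE_entries (S : Finset (Vx G q A)) (k : ℕ) (hS : S.card ≤ k) :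
    (univ.filter (fun e : En G q A => WiE e S)).card ≤ (k + 1) ^ Fintype.card G := by
  have h : univ.filter (fun e : En G q A => WiE e S) =
      Fintype.piFinset (fun g => univ.filter
        (fun o : Option (Fin q × A) => ∀ u, o = some u → (g, u) ∈ S)) := by
    ext e
    simp only [mem_filter, mem_univ, true_and, Fintype.mem_piFinset]
    rfl
  rw [h, Fintype.card_piFinset]
  refine (Finset.prod_le_pow_card _ _ (k + 1) fun g _ => ?_).trans (by rw [Finset.card_univ])
  have h1 : univ.filter (fun o : Option (Fin q × A) => ∀ u, o = some u → (g, u) ∈ S) ⊆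
      insert none ((univ.filter (fun x : Fin q × A => (g, x) ∈ S)).image some) := by
    intro o ho
    have ho' := (Finset.mem_filter.1 ho).2
    rcases o with _ | u
    · exact Finset.mem_insert_self _ _
    · exact Finset.mem_insert_of_mem (Finset.mem_image.2
        ⟨u, Finset.mem_filter.2 ⟨Finset.mem_univ _, ho' u rfl⟩, rfl⟩)
  refine (Finset.card_le_card h1).trans ((Finset.card_insert_le _ _).trans ?_)
  refine Nat.add_le_add_right (Finset.card_image_le.trans (le_trans ?_ hS)) 1
  refine Finset.card_le_card_of_injOn (fun x => (g, x)) ?_ ?_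
  · intro x hx
    simpa using hx
  · intro x _ x' _ h
    exact (Prod.mk.inj h).2

/-- the overwritten input -/
private noncomputable def swE_ov {Q : ℕ} [NeZero Q] (S : Finset (Vx G q A)) (η : En G q A → Bool)
    (z : En G q A → Fin Q) : En G q A → Bool := fun e =>
  if WiE e S then η e else decide (z e = 0)

/-- the reachable states -/
private noncomputable def swE_R {Q : ℕ} [NeZero Q] (w : ℕ) (τ : (En G q A → Bool) → Finset (Vx G q A))
    (z : En G q A → Fin Q) :
    ℕ → Finset (Vx G q A) → (En G q A → Bool) → Finset (Finset (Vx G q A) × (En G q A → Bool))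
  | 0, S, η => {(S, η)}
  | j + 1, S, η =>
    ((τ (swE_ov S η z)).powerset.filter (fun S₁ => (S ∪ S₁).card ≤ 2 * w)).biUnion fun S₁ =>
      (univ.filter (fun η' : En G q A → Bool => ∀ e, ¬ WiE e (S ∪ S₁) → η' e = false)).biUnion fun η' =>
        swE_R w τ z j (S ∪ S₁) η'

private lemma swE_card_R {Q : ℕ} [NeZero Q] (w : ℕ) (τ : (En G q A → Bool) → Finset (Vx G q A))
    (hτ : ∀ x, (τ x).card ≤ w) (z : En G q A → Fin Q) (j : ℕ) :
    ∀ (S : Finset (Vx G q A)) (η : En G q A → Bool),
      (swE_R w τ z j S η).card ≤ (2 ^ w * 2 ^ ((2 * w + 1) ^ Fintype.card G)) ^ j := by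
  induction j with
  | zero => intro S η; simp [swE_R]
  | succ j ih =>
    intro S η
    rw [swE_R]
    have h1 : ∀ S₁ ∈ (τ (swE_ov S η z)).powerset.filter (fun S₁ => (S ∪ S₁).card ≤ 2 * w),
        ((univ.filter (fun η' : En G q A → Bool => ∀ e, ¬ WiE e (S ∪ S₁) → η' e = false)).biUnion fun η' =>
          swE_R w τ z j (S ∪ S₁) η').card ≤
          2 ^ ((2 * w + 1) ^ Fintype.card G) * (2 ^ w * 2 ^ ((2 * w + 1) ^ Fintype.card G)) ^ j := by
      intro S₁ hS₁
      refine (Finset.card_biUnion_le_card_mul _ _ _ fun η' _ => ih _ _).trans ?_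
      refine Nat.mul_le_mul_right _ ?_
      have h2 := swE_card_fun (fun e : En G q A => WiE e (S ∪ S₁)) (fun _ => false)
      rw [Fintype.card_bool] at h2
      have h4 := swE_entries _ _ (Finset.mem_filter.1 hS₁).2
      refine le_trans (le_of_eq ?_) (Nat.pow_le_pow_right (by norm_num : 0 < 2) h4)
      exact swE_inst h2
    refine (Finset.card_biUnion_le_card_mul _ _ _ h1).trans ?_
    have h3 : ((τ (swE_ov S η z)).powerset.filter (fun S₁ => (S ∪ S₁).card ≤ 2 * w)).card ≤ 2 ^ w := by
      refine (Finset.card_filter_le _ _).trans ?_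
      rw [Finset.card_powerset]
      exact Nat.pow_le_pow_right (by norm_num) (hτ _)
    calc _ ≤ 2 ^ w * (2 ^ ((2 * w + 1) ^ Fintype.card G) * (2 ^ w * 2 ^ ((2 * w + 1) ^ Fintype.card G)) ^ j) :=
          Nat.mul_le_mul_right _ h3
      _ = _ := by rw [pow_succ]; ring

private lemma swE_mem_R {Q : ℕ} [NeZero Q] (w : ℕ) (τ : (En G q A → Bool) → Finset (Vx G q A))
    (z : En G q A → Fin Q) (j : ℕ) (S S₁ : Finset (Vx G q A)) (η η' : En G q A → Bool)
    (p : Finset (Vx G q A) × (En G q A → Bool)) (h1 : S₁ ⊆ τ (swE_ov S η z)) (h2 : (S ∪ S₁).card ≤ 2 * w)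
    (h3 : ∀ e, ¬ WiE e (S ∪ S₁) → η' e = false) (h4 : p ∈ swE_R w τ z j (S ∪ S₁) η') :
    p ∈ swE_R w τ z (j + 1) S η := by
  rw [swE_R, Finset.mem_biUnion]
  refine ⟨S₁, Finset.mem_filter.2 ⟨Finset.mem_powerset.2 h1, h2⟩, ?_⟩
  rw [Finset.mem_biUnion]
  exact ⟨η', Finset.mem_filter.2 ⟨Finset.mem_univ _, h3⟩, h4⟩

/-! ### Terms -/

/-- `x` satisfies the term `t` -/
private def swE_sat (x : En G q A → Bool) (t : Finset (Vx G q A) × (En G q A → Bool)) : Prop :=
  ∀ e, WiE e t.1 → x e = t.2 e

/-- valid terms -/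
private def swE_valid (w : ℕ) (f : (En G q A → Bool) → Prop)
    (t : Finset (Vx G q A) × (En G q A → Bool)) : Prop :=
  t.1.card ≤ w ∧ ∀ x, swE_sat x t → f x

/-- `t` is the first valid term which is satisfied by `x` -/
private def swE_first (w : ℕ) (f : (En G q A → Bool) → Prop)
    (rank : Finset (Vx G q A) × (En G q A → Bool) → ℕ) (x : En G q A → Bool)
    (t : Finset (Vx G q A) × (En G q A → Bool)) : Prop :=
  swE_valid w f t ∧ swE_sat x t ∧ ∀ t', swE_valid w f t' → swE_sat x t' → rank t ≤ rank t'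

/-- the vertices of the first term -/
private noncomputable def swE_tau (w : ℕ) (f : (En G q A → Bool) → Prop)
    (rank : Finset (Vx G q A) × (En G q A → Bool) → ℕ) (x : En G q A → Bool) :
    Finset (Vx G q A) :=
  if h : ∃ t, swE_first w f rank x t then (Classical.choose h).1 else ∅

private lemma swE_tau_card (w : ℕ) (f : (En G q A → Bool) → Prop)
    (rank : Finset (Vx G q A) × (En G q A → Bool) → ℕ) (x : En G q A → Bool) :
    (swE_tau w f rank x).card ≤ w := by
  unfold swE_tau
  split_ifs with h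
  · exact (Classical.choose_spec h).1.1
  · simp

private lemma swE_tau_eq (w : ℕ) (f : (En G q A → Bool) → Prop)
    (rank : Finset (Vx G q A) × (En G q A → Bool) → ℕ) (hr : Function.Injective rank)
    (x : En G q A → Bool) (t : Finset (Vx G q A) × (En G q A → Bool))
    (ht : swE_first w f rank x t) : swE_tau w f rank x = t.1 := by
  have h : ∃ t, swE_first w f rank x t := ⟨t, ht⟩
  unfold swE_tau
  rw [dif_pos h]
  have hc := Classical.choose_spec h
  have : Classical.choose h = t := by
    refine hr (le_antisymm ?_ ?_)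
    · exact hc.2.2 t ht.1 ht.2.1
    · exact ht.2.2 _ hc.1 hc.2.1
  rw [this]

end general

/-! ### Continued vertices -/

section main

variable {G : Type} [Fintype G] [DecidableEq G] {q B Q : ℕ} [NeZero Q] {A : Type}
  [Fintype A] [DecidableEq A]

private lemma swE_up_inj (β : Vx G q A → Fin B) : Function.Injective (up β) := by
  rintro ⟨g, c, a⟩ ⟨g', c', a'⟩ h
  simp only [up, Prod.mk.injEq] at h
  obtain ⟨h1, h2, h3, -⟩ := h
  subst h1 h2 h3
  rfl

/-- the continued vertices of `U` -/
private noncomputable def swE_em (β : Vx G q A → Fin B) (U : Finset (Vx G q A)) :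
    Finset (Vx G q (A × Fin B)) := U.image (up β)

private lemma swE_up_mem (β : Vx G q A → Fin B) (U : Finset (Vx G q A)) (u : Vx G q A) :
    up β u ∈ swE_em β U ↔ u ∈ U := by
  unfold swE_em
  rw [Finset.mem_image]
  constructor
  · rintro ⟨u', h1, h2⟩
    rwa [← swE_up_inj β h2]
  · intro h
    exact ⟨u, h, rfl⟩

private lemma swE_wi_kap (β : Vx G q A → Fin B) (U : Finset (Vx G q A)) (e : En G q A) :
    WiE (kapE β e) (swE_em β U) ↔ WiE e U := by
  constructor
  · intro h g u hu
    refine (swE_up_mem β U (g, u)).1 (h g (u.1, (u.2, β (g, u))) ?_)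
    simp only [kapE, hu, Option.map_some]
  · intro h g u hu
    cases hg : e g with
    | none => simp [kapE, hg] at hu
    | some v =>
      simp only [kapE, hg, Option.map_some, Option.some.injEq] at hu
      rw [← hu]
      exact (swE_up_mem β U (g, v)).2 (h g v hg)

private lemma swE_wi_em (β : Vx G q A → Fin B) (U : Finset (Vx G q A)) (e : En G q (A × Fin B))
    (h : WiE e (swE_em β U)) : e = kapE β (prjE e) := by
  funext g
  cases hg : e g with
  | none => simp [kapE, prjE, hg]
  | some v =>
    have hm := h g v hg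
    unfold swE_em at hm
    rw [Finset.mem_image] at hm
    obtain ⟨⟨g', c, a⟩, -, h2⟩ := hm
    simp only [up, Prod.mk.injEq] at h2
    obtain ⟨rfl, h3⟩ := h2
    simp only [kapE, prjE, hg, Option.map_some, ← h3]

private lemma swE_wi_iff (β : Vx G q A → Fin B) (U : Finset (Vx G q A)) (e : En G q (A × Fin B)) :
    WiE e (swE_em β U) ↔ e = kapE β (prjE e) ∧ WiE (prjE e) U := by
  constructor
  · intro h
    have h1 := swE_wi_em β U e h
    refine ⟨h1, ?_⟩
    rw [h1] at h
    exact (swE_wi_kap β U _).1 h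
  · rintro ⟨h1, h2⟩
    rw [h1]
    exact (swE_wi_kap β U _).2 h2

private lemma swE_em_mono (β : Vx G q A → Fin B) {U U' : Finset (Vx G q A)} (h : U ⊆ U') :
    swE_em β U ⊆ swE_em β U' := Finset.image_subset_image h

private lemma swE_wi_mono {A : Type} {e : En G q A} {U U' : Finset (Vx G q A)} (h : U ⊆ U')
    (he : WiE e U) : WiE e U' := fun g u hu => h (he g u hu)

/-- the values within `U` -/
private noncomputable def swE_eta (β : Vx G q A → Fin B) (y : En G q A → Bool) (U : Finset (Vx G q A)) :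
    En G q (A × Fin B) → Bool := fun e => if WiE e (swE_em β U) then y (prjE e) else false

private lemma swE_claim (w : ℕ) (f : (En G q (A × Fin B) → Bool) → Prop) (hQ : 2 ≤ Q) (hf : CertE w f)
    (rank : Finset (Vx G q (A × Fin B)) × (En G q (A × Fin B) → Bool) → ℕ) (hr : Function.Injective rank)
    (β : Vx G q A → Fin B) (z : En G q (A × Fin B) → Fin Q) (y : En G q A → Bool)
    (hbad : ∀ U : Finset (Vx G q A), U.card ≤ w → ∃ y' : En G q A → Bool,
      (∀ e, WiE e U → y' e = y e) ∧ f (FillE β z y'))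
    (hnf : ¬ f (FillE β z y)) (n : ℕ) :
    ∀ U : Finset (Vx G q A), U.card ≤ w → w + 1 - U.card ≤ n →
      ∃ (U' : Finset (Vx G q A)) (θ : En G q (A × Fin B) → Fin Q), U ⊆ U' ∧ w < U'.card ∧ U'.card ≤ 2 * w ∧
        ∀ z'' : En G q (A × Fin B) → Fin Q, (∀ e, ¬ WiE e (swE_em β U') → z'' e = z e) →
          (∀ e, WiE e (swE_em β U') → ¬ WiE e (swE_em β U) → z'' e = θ e) →
          ∃ j ≤ w + 1 - U.card, (swE_em β U', swE_eta β y U') ∈
            swE_R w (swE_tau w f rank) z'' j (swE_em β U) (swE_eta β y U) := by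
  induction n with
  | zero => intro U h1 h2; omega
  | succ n ih =>
    intro U hU hn
    -- the first term
    obtain ⟨t, ⟨htv, y', hy', hsat⟩, hmin⟩ : ∃ t ∈ {t : Finset (Vx G q (A × Fin B)) × (En G q (A × Fin B) → Bool) |
        swE_valid w f t ∧ ∃ y' : En G q A → Bool, (∀ e, WiE e U → y' e = y e) ∧ swE_sat (FillE β z y') t},
        ∀ t' ∈ {t : Finset (Vx G q (A × Fin B)) × (En G q (A × Fin B) → Bool) |
        swE_valid w f t ∧ ∃ y' : En G q A → Bool, (∀ e, WiE e U → y' e = y e) ∧ swE_sat (FillE β z y') t},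
        rank t ≤ rank t' := by
      refine Set.exists_min_image _ rank (Set.toFinite _) ?_
      obtain ⟨y', hy', hfy'⟩ := hbad U hU
      obtain ⟨T, hT, hTf⟩ := hf _ hfy'
      exact ⟨(T, FillE β z y'), ⟨hT, fun x hx => hTf x hx⟩, y', hy', fun e _ => rfl⟩
    set U₁ : Finset (Vx G q A) := univ.filter (fun u => up β u ∈ t.1) with hU₁
    have hmemU₁ : ∀ u, u ∈ U₁ ↔ up β u ∈ t.1 := by intro u; simp [hU₁]
    have hemU₁ : swE_em β U₁ ⊆ t.1 := by
      intro v hv
      unfold swE_em at hv
      obtain ⟨u, hu, rfl⟩ := Finset.mem_image.1 hv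
      exact (hmemU₁ u).1 hu
    have hU₁c : U₁.card ≤ w := by
      have h1 : (swE_em β U₁).card = U₁.card := Finset.card_image_of_injective _ (swE_up_inj β)
      rw [← h1]
      exact (Finset.card_le_card hemU₁).trans htv.1
    have hwiT : ∀ e : En G q A, WiE (kapE β e) t.1 → WiE e U₁ := by
      intro e he g v hv
      refine (hmemU₁ _).2 (he g (v.1, (v.2, β (g, v))) ?_)
      simp only [kapE, hv, Option.map_some]
    -- `U ∪ U₁ ≠ U`
    have hne : ¬ U₁ ⊆ U := by
      intro hsub
      refine hnf (htv.2 _ ?_)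
      intro e he
      rw [← hsat e he]
      unfold FillE
      by_cases hk : e = kapE β (prjE e)
      · rw [if_pos hk, if_pos hk]
        have he' : WiE (kapE β (prjE e)) t.1 := by rw [← hk]; exact he
        exact (hy' _ (swE_wi_mono hsub (hwiT _ he'))).symm
      · rw [if_neg hk, if_neg hk]
    have hcard : U.card + 1 ≤ (U ∪ U₁).card := by
      have : U ⊂ U ∪ U₁ := by
        refine Finset.ssubset_iff_subset_ne.2 ⟨Finset.subset_union_left, fun h => hne ?_⟩
        rw [h]
        exact Finset.subset_union_right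
      exact Finset.card_lt_card this
    have hcard2 : (U ∪ U₁).card ≤ 2 * w := by
      have := Finset.card_union_le U U₁
      omega
    -- the set `U'` and the function on `U'` outside of `U ∪ U₁`
    obtain ⟨U', θ', hUU', hw1, hw2, hrest⟩ : ∃ (U' : Finset (Vx G q A)) (θ' : En G q (A × Fin B) → Fin Q),
        U ∪ U₁ ⊆ U' ∧ w < U'.card ∧ U'.card ≤ 2 * w ∧
        ∀ z'' : En G q (A × Fin B) → Fin Q, (∀ e, ¬ WiE e (swE_em β U') → z'' e = z e) →
          (∀ e, WiE e (swE_em β U') → ¬ WiE e (swE_em β (U ∪ U₁)) → z'' e = θ' e) →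
          ∃ j, j + 1 ≤ w + 1 - U.card ∧ (swE_em β U', swE_eta β y U') ∈
            swE_R w (swE_tau w f rank) z'' j (swE_em β (U ∪ U₁)) (swE_eta β y (U ∪ U₁)) := by
      by_cases hc : (U ∪ U₁).card ≤ w
      · obtain ⟨U', θ', a1, a2, a3, a4⟩ := ih (U ∪ U₁) hc (by omega)
        refine ⟨U', θ', a1, a2, a3, ?_⟩
        intro z'' b1 b2
        obtain ⟨j, hj, hmem⟩ := a4 z'' b1 b2
        exact ⟨j, by omega, hmem⟩
      · refine ⟨U ∪ U₁, z, subset_rfl, by omega, hcard2, ?_⟩
        intro z'' _ _
        refine ⟨0, by omega, ?_⟩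
        rw [swE_R]
        exact Finset.mem_singleton_self _
    have hUsub : U ⊆ U' := Finset.subset_union_left.trans hUU'
    refine ⟨U', fun e => if WiE e (swE_em β (U ∪ U₁)) then (if y' (prjE e) = true then 0 else ⟨1, by omega⟩) else θ' e,
      hUsub, hw1, hw2, ?_⟩
    intro z'' hz1 hz2
    obtain ⟨j, hj, hmem⟩ := hrest z'' hz1 (by
      intro e he1 he2
      have h0 := hz2 e he1 (fun h => he2 (swE_wi_mono (swE_em_mono β Finset.subset_union_left) h))
      beta_reduce at h0
      rw [h0, if_neg he2])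
    refine ⟨j + 1, hj, ?_⟩
    -- the overwritten input
    have hx : swE_ov (swE_em β U) (swE_eta β y U) z'' =
        FillE β z (fun e => if WiE e U then y e else decide (z'' (kapE β e) = 0)) := by
      funext e
      unfold swE_ov FillE swE_eta
      beta_reduce
      by_cases hk : e = kapE β (prjE e)
      · rw [if_pos hk]
        by_cases hw : WiE (prjE e) U
        · have : WiE e (swE_em β U) := (swE_wi_iff β U e).2 ⟨hk, hw⟩
          rw [if_pos this, if_pos this, if_pos hw]
        · have : ¬ WiE e (swE_em β U) := fun h => hw ((swE_wi_iff β U e).1 h).2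
          rw [if_neg this, if_neg hw, ← hk]
      · have h1 : ¬ WiE e (swE_em β U) := fun h => hk ((swE_wi_iff β U e).1 h).1
        have h2 : ¬ WiE e (swE_em β U') := fun h => hk ((swE_wi_iff β U' e).1 h).1
        rw [if_neg hk, if_neg h1, hz1 e h2]
    have hfirst : swE_first w f rank (swE_ov (swE_em β U) (swE_eta β y U) z'') t := by
      rw [hx]
      refine ⟨htv, ?_, ?_⟩
      · intro e he
        rw [← hsat e he]
        unfold FillE
        by_cases hk : e = kapE β (prjE e)
        · rw [if_pos hk, if_pos hk]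
          beta_reduce
          have he' : WiE (kapE β (prjE e)) t.1 := by rw [← hk]; exact he
          have heU₁ := hwiT _ he'
          by_cases hw : WiE (prjE e) U
          · rw [if_pos hw, hy' _ hw]
          · rw [if_neg hw, ← hk]
            have heUp : WiE (prjE e) (U ∪ U₁) := swE_wi_mono Finset.subset_union_right heU₁
            have h1 : WiE e (swE_em β (U ∪ U₁)) := (swE_wi_iff β _ e).2 ⟨hk, heUp⟩
            have h2 : WiE e (swE_em β U') := swE_wi_mono (swE_em_mono β hUU') h1
            have h3 : ¬ WiE e (swE_em β U) := fun h => hw ((swE_wi_iff β U e).1 h).2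
            have h0 := hz2 e h2 h3
            beta_reduce at h0
            rw [h0, if_pos h1]
            by_cases hyy : y' (prjE e) = true
            · rw [if_pos hyy, hyy]; simp
            · rw [if_neg hyy]
              rw [Bool.not_eq_true] at hyy
              rw [hyy]
              have : (⟨1, by omega⟩ : Fin Q) ≠ 0 := by
                intro h
                have := congrArg Fin.val h
                simp at this
              simp [this]
        · rw [if_neg hk, if_neg hk]
      · intro t' ht'v ht's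
        refine hmin t' ⟨ht'v, _, ?_, ht's⟩
        intro e he
        simp only [if_pos he]
    have htau := swE_tau_eq w f rank hr _ t hfirst
    have hunion : swE_em β U ∪ swE_em β U₁ = swE_em β (U ∪ U₁) := by
      unfold swE_em; rw [Finset.image_union]
    refine swE_mem_R w _ z'' j _ (swE_em β U₁) _ (swE_eta β y (U ∪ U₁)) _ ?_ ?_ ?_ ?_
    · rw [htau]; exact hemU₁
    · rw [hunion]
      have : (swE_em β (U ∪ U₁)).card = (U ∪ U₁).card := Finset.card_image_of_injective _ (swE_up_inj β)
      rw [this]; exact hcard2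
    · rw [hunion]
      intro e he
      unfold swE_eta
      rw [if_neg he]
    · rw [hunion]; exact hmem

/-- the initial states -/
private noncomputable def swE_ini {A : Type} (c : Bool) : En G q A → Bool := fun e =>
  if e = (fun _ => none) then c else false

/-- the possible sets -/
private noncomputable def swE_W (w : ℕ) (τ : (En G q A → Bool) → Finset (Vx G q A))
    (z : En G q A → Fin Q) : Finset (Finset (Vx G q A)) :=
  (((univ : Finset Bool) ×ˢ range (w + 2)).biUnion fun j =>
    (swE_R w τ z j.2 ∅ (swE_ini j.1)).image Prod.fst).filter (fun W => W.card ≤ 2 * w)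

private lemma swE_card_W (w : ℕ) (τ : (En G q A → Bool) → Finset (Vx G q A))
    (hτ : ∀ x, (τ x).card ≤ w) (z : En G q A → Fin Q) :
    (swE_W w τ z).card ≤ (2 * (w + 2)) * (2 ^ w * 2 ^ ((2 * w + 1) ^ Fintype.card G)) ^ (w + 1) := by
  unfold swE_W
  refine (Finset.card_filter_le _ _).trans ?_
  have h := Finset.card_biUnion_le_card_mul ((univ : Finset Bool) ×ˢ range (w + 2))
    (fun j => (swE_R w τ z j.2 ∅ (swE_ini j.1)).image Prod.fst)
    ((2 ^ w * 2 ^ ((2 * w + 1) ^ Fintype.card G)) ^ (w + 1)) ?_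
  · rwa [Finset.card_product, Finset.card_univ, Fintype.card_bool, Finset.card_range] at h
  · intro j hj
    refine Finset.card_image_le.trans ((swE_card_R w τ hτ z j.2 _ _).trans ?_)
    have : j.2 < w + 2 := Finset.mem_range.1 (Finset.mem_product.1 hj).2
    exact Nat.pow_le_pow_right (by positivity) (by omega)

private lemma swE_data (w : ℕ) (f : (En G q (A × Fin B) → Bool) → Prop) (hQ : 2 ≤ Q) (hf : CertE w f)
    (rank : Finset (Vx G q (A × Fin B)) × (En G q (A × Fin B) → Bool) → ℕ) (hr : Function.Injective rank)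
    (β : Vx G q A → Fin B) (z : En G q (A × Fin B) → Fin Q)
    (hbad : ¬ CertE w (fun y => ¬ f (FillE β z y))) :
    ∃ (U' : Finset (Vx G q A)) (z' : En G q (A × Fin B) → Fin Q), w < U'.card ∧
      (∀ e, ¬ WiE e (swE_em β U') → z' e = z e) ∧ swE_em β U' ∈ swE_W w (swE_tau w f rank) z' := by
  unfold CertE at hbad
  push Not at hbad
  obtain ⟨y, hnf, hb⟩ := hbad
  obtain ⟨U', θ, -, hw1, hw2, hz⟩ := swE_claim w f hQ hf rank hr β z y hb hnf (w + 1) ∅ (by simp) (by simp)
  obtain ⟨j, hj, hmem⟩ := hz (fun e => if WiE e (swE_em β U') then θ e else z e)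
    (fun e he => by beta_reduce; rw [if_neg he]) (fun e he _ => by beta_reduce; rw [if_pos he])
  obtain ⟨u, hu⟩ : U'.Nonempty := Finset.card_pos.1 (by omega)
  have he0 : swE_em β (∅ : Finset (Vx G q A)) = ∅ := by unfold swE_em; exact Finset.image_empty _
  have he1 : swE_eta β y (∅ : Finset (Vx G q A)) = swE_ini (y (fun _ => none)) := by
    funext e
    unfold swE_eta swE_ini
    rw [he0]
    by_cases h : e = fun _ => none
    · rw [if_pos h, if_pos, h]
      · congr 1
      · rw [h]
        intro g v hv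
        exact absurd hv (by simp)
    · rw [if_neg h, if_neg]
      intro h2
      refine h (funext fun g => ?_)
      cases hg : e g with
      | none => rfl
      | some v => exact absurd (h2 g v hg) (Finset.notMem_empty _)
  rw [he0, he1] at hmem
  refine ⟨U', fun e => if WiE e (swE_em β U') then θ e else z e, hw1,
    fun e he => by beta_reduce; rw [if_neg he], ?_⟩
  unfold swE_W
  rw [Finset.mem_filter, Finset.mem_biUnion]
  refine ⟨⟨(y (fun _ => none), j), Finset.mem_product.2 ⟨Finset.mem_univ _, Finset.mem_range.2 ?_⟩,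
    Finset.mem_image.2 ⟨_, hmem, rfl⟩⟩, ?_⟩
  · have : (∅ : Finset (Vx G q A)).card = 0 := Finset.card_empty
    omega
  · have : (swE_em β U').card = U'.card := Finset.card_image_of_injective _ (swE_up_inj β)
    rw [this]; exact hw2

private lemma swE_em_inj (β β' : Vx G q A → Fin B) (U U' : Finset (Vx G q A))
    (h : swE_em β U ⊆ swE_em β' U') : ∀ u ∈ U, u ∈ U' ∧ β u = β' u := by
  intro u hu
  have h1 := h ((swE_up_mem β U u).2 hu)
  unfold swE_em at h1
  obtain ⟨u', hu', he⟩ := Finset.mem_image.1 h1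
  obtain ⟨g, c, a⟩ := u
  obtain ⟨g', c', a'⟩ := u'
  simp only [up, Prod.mk.injEq] at he
  obtain ⟨rfl, rfl, rfl, h4⟩ := he
  exact ⟨hu', h4.symm⟩

end main

theorem p_swE : S_swE := by
  intro G _ _ q B Q _ A _ _ w f hQ hf
  obtain ⟨rank, hr⟩ := Countable.exists_injective_nat
    (Finset (Vx G q (A × Fin B)) × (En G q (A × Fin B) → Bool))
  have hdata : ∀ p : (Vx G q A → Fin B) × (En G q (A × Fin B) → Fin Q),
      ¬ CertE w (fun y => ¬ f (FillE p.1 p.2 y)) →
      ∃ (U' : Finset (Vx G q A)) (z' : En G q (A × Fin B) → Fin Q), w < U'.card ∧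
      (∀ e, ¬ WiE e (swE_em p.1 U') → z' e = p.2 e) ∧
      swE_em p.1 U' ∈ swE_W w (swE_tau w f rank) z' :=
    fun p hp => swE_data w f hQ hf rank hr p.1 p.2 hp
  choose! U' z' hU hz hW using hdata
  set bad : Finset ((Vx G q A → Fin B) × (En G q (A × Fin B) → Fin Q)) :=
    univ.filter (fun p => ¬ CertE w (fun y => ¬ f (FillE p.1 p.2 y))) with hbad
  have hmb : ∀ p, p ∈ bad → ¬ CertE w (fun y => ¬ f (FillE p.1 p.2 y)) := fun p hp => (Finset.mem_filter.1 hp).2
  have hcb : Nat.card {p : (Vx G q A → Fin B) × (En G q (A × Fin B) → Fin Q) //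
      ¬ CertE w (fun y => ¬ f (FillE p.1 p.2 y))} = bad.card := by
    rw [Nat.card_eq_fintype_card, Fintype.card_subtype]
  rw [hcb, Nat.card_eq_fintype_card]
  -- source and target
  set Src : Finset (Σ _ : (Vx G q A → Fin B) × (En G q (A × Fin B) → Fin Q), (Vx G q A → Fin B)) :=
    bad.sigma (fun p => univ.filter (fun β' => ∀ u, ¬ u ∈ U' p → β' u = p.1 u)) with hSrc
  set Tgt : Finset (Σ _ : (Vx G q A → Fin B) × (En G q (A × Fin B) → Fin Q),
      Σ _ : Finset (Vx G q (A × Fin B)), (En G q (A × Fin B) → Fin Q)) :=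
    univ.sigma (fun p => (swE_W w (swE_tau w f rank) p.2).sigma
      (fun W => univ.filter (fun ζ : En G q (A × Fin B) → Fin Q => ∀ e, ¬ WiE e W → ζ e = 0))) with hTgt
  have hsrc : bad.card * B ^ (w + 1) ≤ Src.card := by
    rw [hSrc, Finset.card_sigma, ← smul_eq_mul]
    refine Finset.card_nsmul_le_sum _ _ _ fun p hp => ?_
    have h1 := swE_card_fun (fun u : Vx G q A => u ∈ U' p) p.1
    have h2 : (univ.filter (fun u : Vx G q A => u ∈ U' p)).card = (U' p).card := by
      congr 1; ext u; simp
    have h3 : (univ.filter (fun β' : Vx G q A → Fin B => ∀ u, ¬ u ∈ U' p → β' u = p.1 u)).card =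
        B ^ (U' p).card := by
      rw [Fintype.card_fin] at h1
      rw [← h2]
      exact swE_inst h1
    rw [h3]
    rcases Nat.eq_zero_or_pos B with hB | hB
    · rw [hB, zero_pow (by omega)]; exact Nat.zero_le _
    · exact Nat.pow_le_pow_right hB (hU p (hmb p hp))
  have htgt : Tgt.card ≤ Fintype.card ((Vx G q A → Fin B) × (En G q (A × Fin B) → Fin Q)) *
      (((2 * (w + 2)) * (2 ^ w * 2 ^ ((2 * w + 1) ^ Fintype.card G)) ^ (w + 1)) * Q ^ ((2 * w + 1) ^ Fintype.card G)) := by
    rw [hTgt, Finset.card_sigma, ← Finset.card_univ, ← smul_eq_mul]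
    refine Finset.sum_le_card_nsmul _ _ _ fun p _ => ?_
    rw [Finset.card_sigma]
    refine (Finset.sum_le_card_nsmul _ _ (Q ^ ((2 * w + 1) ^ Fintype.card G)) fun W hW' => ?_).trans ?_
    · have h1 := swE_card_fun (fun e : En G q (A × Fin B) => WiE e W) (fun _ => (0 : Fin Q))
      rw [Fintype.card_fin] at h1
      have h4 := swE_entries W (2 * w) (by
        unfold swE_W at hW'
        exact (Finset.mem_filter.1 hW').2)
      refine le_trans (le_of_eq ?_) (Nat.pow_le_pow_right (by omega : 0 < Q) h4)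
      exact swE_inst h1
    · rw [smul_eq_mul]
      exact Nat.mul_le_mul_right _ (swE_card_W w _ (swE_tau_card w f rank) _)
  have hinj : Src.card ≤ Tgt.card := by
    refine Finset.card_le_card_of_injOn
      (fun s => ⟨(s.2, z' s.1), ⟨swE_em s.1.1 (U' s.1),
        fun e => if WiE e (swE_em s.1.1 (U' s.1)) then s.1.2 e else 0⟩⟩) ?_ ?_
    · rintro ⟨p, β'⟩ hs
      have hs' := Finset.mem_sigma.1 (Finset.mem_coe.1 hs)
      rw [hTgt]
      refine Finset.mem_coe.2 (Finset.mem_sigma.2 ⟨Finset.mem_univ _, Finset.mem_sigma.2 ⟨?_, ?_⟩⟩)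
      · exact hW p (hmb p hs'.1)
      · exact Finset.mem_filter.2 ⟨Finset.mem_univ _, fun e he => if_neg he⟩
    · rintro ⟨⟨β, z⟩, β'⟩ hs ⟨⟨β₂, z₂⟩, β₂'⟩ hs₂ heq
      have hs' := Finset.mem_sigma.1 (Finset.mem_coe.1 hs)
      have hs₂' := Finset.mem_sigma.1 (Finset.mem_coe.1 hs₂)
      have hb1 := hmb _ hs'.1
      have hb2 := hmb _ hs₂'.1
      have ho1 := (Finset.mem_filter.1 hs'.2).2
      have ho2 := (Finset.mem_filter.1 hs₂'.2).2
      simp only [Sigma.mk.injEq, Prod.mk.injEq, heq_eq_eq] at heq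
      obtain ⟨⟨e1, e2⟩, e3, e4⟩ := heq
      subst e1
      have k1 := swE_em_inj _ _ _ _ e3.subset
      have k2 := swE_em_inj _ _ _ _ e3.symm.subset
      have hβ : β = β₂ := by
        funext u
        by_cases hu : u ∈ U' (β, z)
        · exact (k1 u hu).2
        · have hu2 : ¬ u ∈ U' (β₂, z₂) := fun h => hu (k2 u h).1
          exact (ho1 u hu).symm.trans (ho2 u hu2)
      subst hβ
      have hzz : z = z₂ := by
        funext e
        by_cases he : WiE e (swE_em β (U' (β, z)))
        · have := congrFun e4 e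
          rw [if_pos he, if_pos (by rw [← e3]; exact he)] at this
          exact this
        · have he2 : ¬ WiE e (swE_em β (U' (β, z₂))) := by rw [← e3]; exact he
          have a1 := hz (β, z) hb1 e he
          have a2 := hz (β, z₂) hb2 e he2
          exact a1.symm.trans ((congrFun e2 e).trans a2)
      subst hzz
      rfl
  refine hsrc.trans (hinj.trans (htgt.trans (le_of_eq ?_)))
  unfold CstE
  ring

end Pool.Agent.Lib.MP_b4f117_lc.AT
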